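import Pool.Agent.WSR.Stmts

set_option autoImplicit false

/-!
# WSR module AFC: the factorisation for type A
-/

namespace Pool.Agent.WSR

noncomputable section

theorem afc_proof (h1 : Stmt_FAC) : Stmt_AFC := by
  intro d u₁ z₁ u₂ z₂ u₃ z₃ h
  obtain ⟨⟨⟨a1, a1'⟩, ⟨b1, b1'⟩, ⟨a2, a2'⟩, ⟨b2, b2'⟩, ⟨a3, a3'⟩, ⟨b3, b3'⟩⟩, c1, c2, c3, c4, e⟩ := h
  obtain ⟨p, rfl⟩ : ∃ p, u₂ = u₁ + p := ⟨u₂ - u₁, by omega⟩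
  obtain ⟨q, rfl⟩ : ∃ q, u₃ = u₁ + p + q := ⟨u₃ - (u₁ + p), by omega⟩
  obtain ⟨s, rfl⟩ : ∃ s, z₂ = z₃ + s := ⟨z₂ - z₃, by omega⟩
  obtain ⟨r, rfl⟩ : ∃ r, z₁ = z₃ + s + r := ⟨z₁ - (z₃ + s), by omega⟩
  have hr : z₃ + s + r - (z₃ + s) = r := by omega
  have hp : u₁ + p - u₁ = p := by omega
  have hs : z₃ + s - z₃ = s := by omega
  rw [hr, hp, hs]
  have e2 : p * s * (z₃ + s + r) * (u₁ + p + q) = (r * z₃) * (u₁ * q) := by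
    have : ((p * s * (z₃ + s + r) * (u₁ + p + q) : ℕ) : ℤ) = ((r * z₃) * (u₁ * q) : ℕ) := by
      push_cast at e ⊢
      linear_combination e
    exact_mod_cast this
  have hn : 0 < r * z₃ := Nat.mul_pos (by omega) (by omega)
  obtain ⟨π, σ, ζ, υ, ⟨l₂, g1⟩, ⟨l₁, g2⟩, ⟨k₁, g3⟩, ⟨k₂, g4⟩, g5⟩ :=
    h1 (r * z₃) p s (z₃ + s + r) (u₁ + p + q) hn ⟨u₁ * q, e2⟩
  refine ⟨π, σ, ζ, υ, l₁, k₁, l₂, k₂, ?_, ?_, ?_, ?_, g1, g2, g3, g4, ?_⟩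
  · exact ⟨σ * ζ * υ, by rw [g5]; ring⟩
  · exact ⟨π * ζ * υ, by rw [g5]; ring⟩
  · exact ⟨π * σ * υ, by rw [g5]; ring⟩
  · exact ⟨π * σ * ζ, by rw [g5]; ring⟩
  · have e3 : (r * z₃) * ((l₁ * l₂) * (k₁ * k₂)) = (r * z₃) * (u₁ * q) := by
      rw [← e2]
      conv_lhs => rw [g5]
      calc π * σ * ζ * υ * ((l₁ * l₂) * (k₁ * k₂)) = (π * l₂) * (σ * l₁) * (ζ * k₁) * (υ * k₂) := by
            ring
        _ = p * s * (z₃ + s + r) * (u₁ + p + q) := by rw [← g1, ← g2, ← g3, ← g4]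
    have e4 : (l₁ * l₂) * (k₁ * k₂) = u₁ * q := Nat.eq_of_mul_eq_mul_left hn e3
    by_contra hcon
    push Not at hcon
    obtain ⟨f1, -, -, f4⟩ := hcon
    have f5 : (d + 1) * (d + 1) ≤ (l₁ * l₂) * (k₁ * k₂) := Nat.mul_le_mul f1 f4
    have f6 : u₁ * q ≤ d * d := Nat.mul_le_mul a1' (by omega)
    nlinarith

end

end Pool.Agent.WSR
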