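import Pool.Agent.WSR.Stmts

set_option autoImplicit false

/-! # WSR, module AH1: type A, given `z₁, z₂, z₃` and `u₃` -/

open scoped BigOperators Topology

namespace Pool.Agent.WSR

noncomputable section

namespace AH1_

theorem size {d u z s r w : ℕ} (hd : 1 ≤ d) (hu : u ≤ d) (hz : z ≤ d) (hs : s ≤ d) (hr : r ≤ d)
    (hw : w ≤ d) : u * u * (z * s + r * w) * (z * s) ≤ (2 * d) ^ 20 := by
  calc u * u * (z * s + r * w) * (z * s) ≤ d * d * (d * d + d * d) * (d * d) :=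
        Nat.mul_le_mul (Nat.mul_le_mul (Nat.mul_le_mul hu hu)
          (Nat.add_le_add (Nat.mul_le_mul hz hs) (Nat.mul_le_mul hr hw))) (Nat.mul_le_mul hz hs)
    _ = 2 * d ^ 6 := by ring
    _ ≤ 2 ^ 6 * d ^ 6 := Nat.mul_le_mul (by norm_num) le_rfl
    _ = (2 * d) ^ 6 := (mul_pow 2 d 6).symm
    _ ≤ (2 * d) ^ 20 := Nat.pow_le_pow_right (by omega) (by norm_num)

end AH1_

open AH1_ in
theorem ah1_proof (h1 : Stmt_HYP) : Stmt_AH1 := by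
  classical
  intro d B hDB z₁ z₂ z₃ u₃ S hS
  rcases S.eq_empty_or_nonempty with rfl | ⟨t₀, ht₀⟩
  · simp
  obtain ⟨hPA, a₁, a₂, rfl⟩ := hS t₀ ht₀
  obtain ⟨⟨-, hz1, -, hz2, hu3, hz3⟩, -, -, hz32, hz21, -⟩ := hPA
  obtain ⟨r, hr⟩ : ∃ r : ℕ, z₁ = z₂ + r := ⟨z₁ - z₂, by omega⟩
  obtain ⟨s, hs⟩ : ∃ s : ℕ, z₂ = z₃ + s := ⟨z₂ - z₃, by omega⟩
  have hr0 : 0 < r := by omega
  have hs0 : 0 < s := by omega
  have hrd : r ≤ d := by omega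
  have hsd : s ≤ d := by omega
  have hr' : (z₁ : ℤ) - z₂ = r := by
    rw [hr]
    push_cast
    ring
  have hs' : (z₂ : ℤ) - z₃ = s := by
    rw [hs]
    push_cast
    ring
  obtain ⟨D, hD⟩ : ∃ D : ℕ, D = u₃ * u₃ * (z₁ * s + r * z₃) * (z₁ * s) := ⟨_, rfl⟩
  have hD0 : 0 < D := by
    rw [hD]
    have e1 : 0 < z₁ * s := Nat.mul_pos hz1.1 hs0
    have e2 : 0 < u₃ * u₃ := Nat.mul_pos hu3.1 hu3.1
    exact Nat.mul_pos (Nat.mul_pos e2 (Nat.add_pos_left e1 _)) e1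
  have hDle : D ≤ (2 * d) ^ 20 := by
    rw [hD]
    exact size (by omega) hu3.2 hz1.2 hsd hrd hz3.2
  have hDz : (-((u₃ : ℤ) * (z₁ * s + r * z₃))) * (z₁ * u₃ * s) - (r * z₃) * 0 = -(D : ℤ) := by
    rw [hD]
    push_cast
    ring
  have hα : ((r : ℤ) * z₃) ≠ 0 := by
    have : 0 < r * z₃ := Nat.mul_pos hr0 hz3.1
    exact_mod_cast this.ne'
  have hne : (-((u₃ : ℤ) * (z₁ * s + r * z₃))) * (z₁ * u₃ * s) - (r * z₃) * 0 ≠ 0 := by
    rw [hDz]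
    have : (D : ℤ) ≠ 0 := by exact_mod_cast hD0.ne'
    exact neg_ne_zero.2 this
  have hle : |(-((u₃ : ℤ) * (z₁ * s + r * z₃))) * (z₁ * u₃ * s) - (r * z₃) * 0| ≤
      (2 * (d : ℤ)) ^ 20 := by
    rw [hDz, abs_neg, abs_of_nonneg (Int.natCast_nonneg D)]
    exact_mod_cast hDle
  have hinj : Set.InjOn (fun t : N6 => ((t.1 : ℤ), (t.2.2.1 : ℤ))) (S : Set N6) := by
    intro t ht t' ht' heq
    obtain ⟨-, p, q, rfl⟩ := hS t ht
    obtain ⟨-, p', q', rfl⟩ := hS t' ht'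
    simp only [Prod.mk.injEq, Nat.cast_inj] at heq
    obtain ⟨e1, e2⟩ := heq
    rw [e1, e2]
  rw [← Finset.card_image_of_injOn hinj]
  refine h1 d B hDB _ _ _ _ hα hne hle _ ?_
  intro q hq
  obtain ⟨t, ht, rfl⟩ := Finset.mem_image.1 hq
  obtain ⟨hPA, p, q, rfl⟩ := hS t ht
  obtain ⟨-, -, -, -, -, heq⟩ := hPA
  rw [hr', hs'] at heq
  simp only
  linear_combination heq

end

end Pool.Agent.WSR
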