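import Pool.Agent.WSR.Stmts

set_option autoImplicit false

open scoped BigOperators Topology

namespace Pool.Agent.WSR

theorem ah2_proof (h1 : Stmt_HYP) : Stmt_AH2 := by
  classical
  intro d B hB z₁ z₂ z₃ p S hS
  rcases S.eq_empty_or_nonempty with h0 | ⟨t0, ht0⟩
  · subst h0; simp
  -- the bounds
  obtain ⟨hPA, v₁, v₃, rfl⟩ := hS t0 ht0
  obtain ⟨⟨⟨a1, a2⟩, ⟨a3, a4⟩, ⟨a5, a6⟩, ⟨a7, a8⟩, ⟨a9, a10⟩, ⟨a11, a12⟩⟩, b1, b2, b3, b4, -⟩ := hPA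
  have hp : 0 < p := by omega
  obtain ⟨r, hr⟩ : ∃ r : ℕ, z₁ = z₂ + r := ⟨z₁ - z₂, by omega⟩
  obtain ⟨s, hs⟩ : ∃ s : ℕ, z₂ = z₃ + s := ⟨z₂ - z₃, by omega⟩
  have hr0 : 0 < r := by omega
  have hs0 : 0 < s := by omega
  have hpd : p ≤ d := by omega
  have hsd : s ≤ d := by omega
  have hrd : r ≤ d := by omega
  have hd1 : 1 ≤ d := by omega
  set f : N6 → ℤ × ℤ := fun t => ((t.1 : ℤ), (t.2.2.2.2.1 : ℤ) - (t.1 : ℤ) - (p : ℤ)) with hf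
  have hinj : Set.InjOn f (S : Set N6) := by
    intro t ht t' ht' he
    obtain ⟨-, u₁, u₃, rfl⟩ := hS t ht
    obtain ⟨-, u₁', u₃', rfl⟩ := hS t' ht'
    simp only [hf, Prod.mk.injEq] at he
    obtain ⟨e1, e2⟩ := he
    have e3 : u₁ = u₁' := by exact_mod_cast e1
    have e4 : u₃ = u₃' := by
      have : (u₃ : ℤ) = u₃' := by linarith
      exact_mod_cast this
    rw [e3, e4]
  rw [← Finset.card_image_of_injOn hinj]
  have hP : (0 : ℤ) < p := by exact_mod_cast hp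
  have hR : (0 : ℤ) < r := by exact_mod_cast hr0
  have hSs : (0 : ℤ) < s := by exact_mod_cast hs0
  have hZ1 : (0 : ℤ) < z₁ := by exact_mod_cast (show 0 < z₁ by omega)
  have hZ3 : (0 : ℤ) < z₃ := by exact_mod_cast (show 0 < z₃ by omega)
  have hD : (1 : ℤ) ≤ d := by exact_mod_cast hd1
  refine h1 d B hB ((r : ℤ) * z₃) (-((p : ℤ) * s * z₁)) (-((p : ℤ) * s * z₁))
    (-((p : ℤ) ^ 2 * s * z₁)) (by positivity) ?_ ?_ _ ?_
  · have : -((p : ℤ) * s * z₁) * -((p : ℤ) * s * z₁) - (r : ℤ) * z₃ * -((p : ℤ) ^ 2 * s * z₁) =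
        (p : ℤ) ^ 2 * s ^ 2 * z₁ ^ 2 + r * z₃ * p ^ 2 * s * z₁ := by ring
    rw [this]
    positivity
  · have e : -((p : ℤ) * s * z₁) * -((p : ℤ) * s * z₁) - (r : ℤ) * z₃ * -((p : ℤ) ^ 2 * s * z₁) =
        (p : ℤ) ^ 2 * s ^ 2 * z₁ ^ 2 + r * z₃ * p ^ 2 * s * z₁ := by ring
    rw [e, abs_of_pos (by positivity)]
    have c1 : (p : ℤ) ≤ d := by exact_mod_cast hpd
    have c2 : (s : ℤ) ≤ d := by exact_mod_cast hsd
    have c3 : (r : ℤ) ≤ d := by exact_mod_cast hrd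
    have c4 : (z₁ : ℤ) ≤ d := by exact_mod_cast a4
    have c5 : (z₃ : ℤ) ≤ d := by exact_mod_cast a12
    have k1 : (p : ℤ) ^ 2 * s ^ 2 * z₁ ^ 2 ≤ (d : ℤ) ^ 2 * d ^ 2 * d ^ 2 := by gcongr
    have k2 : (r : ℤ) * z₃ * p ^ 2 * s * z₁ ≤ (d : ℤ) * d * d ^ 2 * d * d := by gcongr
    have k3 : (2 * (d : ℤ)) ^ 6 ≤ (2 * (d : ℤ)) ^ 20 :=
      pow_le_pow_right₀ (by linarith) (by norm_num)
    have k4 : (0 : ℤ) ≤ (d : ℤ) ^ 6 := by positivity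
    nlinarith
  · intro x hx
    obtain ⟨t, ht, rfl⟩ := Finset.mem_image.1 hx
    obtain ⟨hPA', u₁, u₃, rfl⟩ := hS t ht
    obtain ⟨-, -, -, -, -, heq⟩ := hPA'
    simp only [hf]
    rw [hr, hs] at heq
    rw [hr, hs]
    push_cast at heq ⊢
    linear_combination -heq

end Pool.Agent.WSR
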