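import Pool.Agent.WSR.Stmts

set_option autoImplicit false

/-!
# ARRA: the number of the sign patterns on a line
-/

open scoped BigOperators Topology

namespace Pool.Agent.WSR

namespace ARRA_

theorem pats_finite (K : Set B3) (s : Finset Ix) : (pats K s).Finite := by
  classical
  refine ((s.powerset).finite_toSet).subset ?_
  rintro t ⟨p, _, ht⟩
  rw [Finset.mem_coe, Finset.mem_powerset, ht]
  exact Finset.filter_subset _ _

theorem N_empty (K : Set B3) (hK : K.Nonempty) : N K ∅ = 1 := by
  classical
  unfold N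
  rw [Set.ncard_eq_one]
  refine ⟨∅, ?_⟩
  ext t
  constructor
  · rintro ⟨p, _, ht⟩
    rw [Set.mem_singleton_iff, ht]
    rfl
  · intro ht
    obtain ⟨p, hp⟩ := hK
    refine ⟨p, ⟨hp, by simp⟩, ?_⟩
    rw [Set.mem_singleton_iff.1 ht]
    rfl

theorem N_of_empty (s : Finset Ix) : N (∅ : Set B3) s = 0 := by
  unfold N
  have : pats (∅ : Set B3) s = ∅ := by
    ext t
    constructor
    · rintro ⟨p, hp, _⟩
      exact absurd hp.1 (Set.notMem_empty p)
    · intro h
      exact absurd h (Set.notMem_empty t)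
  rw [this, Set.ncard_empty]

theorem N_le_one (K : Set B3) (s : Finset Ix) (hK : K.Subsingleton) : N K s ≤ 1 := by
  unfold N
  have h := pats_finite K s
  rw [Set.ncard_le_one h]
  rintro t ⟨p, hp, ht⟩ t' ⟨q, hq, ht'⟩
  rw [ht, ht', hK hp.1 hq.1]

theorem N_pos (K : Set B3) (s : Finset Ix) (p : B3) (hp : p ∈ off K s) : 1 ≤ N K s := by
  classical
  unfold N
  rw [Nat.one_le_iff_ne_zero, ← Nat.pos_iff_ne_zero, Set.ncard_pos (pats_finite K s)]
  exact ⟨_, p, hp, rfl⟩

end ARRA_

open ARRA_ in
theorem arra_proof (h1 : Stmt_REC) (h2 : Stmt_GEOA) (h3 : Stmt_GEOC) : Stmt_ARRA := by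
  classical
  intro d l s hd hl
  obtain ⟨_, _, hA⟩ := h2 d hd
  obtain ⟨hne, hconv, _⟩ := hA l hl
  induction s using Finset.induction_on with
  | empty =>
    intro _ _
    rw [N_empty _ hne]
    simp [X1, T2]
  | insert l' s hl's ih =>
    intro hsub hlns
    have hsub' : s ⊆ lines d := fun x hx => hsub (Finset.mem_insert_of_mem hx)
    have hlns' : l ∉ s := fun h => hlns (Finset.mem_insert_of_mem h)
    have hl' : l' ∈ lines d := hsub (Finset.mem_insert_self l' s)
    have hne' : l ≠ l' := by
      rintro rfl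
      exact hlns (Finset.mem_insert_self _ s)
    obtain ⟨ih1, ih2⟩ := ih hsub' hlns'
    obtain ⟨hX, hS⟩ := h3 d l l' hd hl hl' hne'
    rw [h1 (cut (Tri d) l) s l' hconv hl's hX]
    have hX1 : X1 d l (insert l' s) = X1 d l s + (if Xs d l l' then 1 else 0) := by
      unfold X1
      rw [Finset.filter_insert]
      by_cases h : Xs d l l'
      · rw [if_pos h, if_pos h, Finset.card_insert_of_notMem]
        intro h4
        exact hl's (Finset.mem_filter.1 h4).1
      · rw [if_neg h, if_neg h, add_zero]
    have hT2 : T2 d l s ≤ T2 d l (insert l' s) := by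
      unfold T2
      refine Finset.card_le_card ?_
      intro q hq
      rw [Finset.mem_filter, Finset.mem_product] at hq ⊢
      exact ⟨⟨Finset.mem_insert_of_mem hq.1.1, Finset.mem_insert_of_mem hq.1.2⟩, hq.2⟩
    rw [hX1]
    by_cases h : Xs d l l'
    · rw [if_pos h]
      have h5 : N (cut (cut (Tri d) l) l') s ≤ 1 := N_le_one _ _ hS
      refine ⟨by omega, ?_⟩
      obtain ⟨p, hp, hpl, hpl'⟩ := h
      by_cases h6 : ∃ j ∈ s, F j p = 0
      · obtain ⟨j, hj, hjp⟩ := h6
        have hnew : T2 d l s + 1 ≤ T2 d l (insert l' s) := by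
          unfold T2
          have hnot : (l', j) ∉ (s ×ˢ s).filter (fun q => q.1 ≠ q.2 ∧ Cs d l q.1 q.2) := by
            intro h7
            exact hl's (Finset.mem_product.1 (Finset.mem_filter.1 h7).1).1
          rw [← Finset.card_insert_of_notMem hnot]
          refine Finset.card_le_card ?_
          intro q hq
          rw [Finset.mem_filter, Finset.mem_product]
          rcases Finset.mem_insert.1 hq with h7 | h7
          · rw [h7]
            refine ⟨⟨Finset.mem_insert_self _ _, Finset.mem_insert_of_mem hj⟩, ?_, ?_⟩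
            · rintro h8
              have h8' : l' = j := h8
              exact hl's (h8' ▸ hj)
            · exact ⟨p, hp, hpl, hpl', hjp⟩
          · rw [Finset.mem_filter, Finset.mem_product] at h7
            exact ⟨⟨Finset.mem_insert_of_mem h7.1.1, Finset.mem_insert_of_mem h7.1.2⟩, h7.2⟩
        omega
      · have h7 : 1 ≤ N (cut (cut (Tri d) l) l') s := by
          refine N_pos _ _ p ⟨⟨⟨hp, hpl⟩, hpl'⟩, ?_⟩
          intro j hj hj0
          exact h6 ⟨j, hj, hj0⟩
        omega
    · rw [if_neg h]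
      have h5 : cut (cut (Tri d) l) l' = ∅ := by
        rw [Set.eq_empty_iff_forall_notMem]
        rintro p ⟨⟨hp, hpl⟩, hpl'⟩
        exact h ⟨p, hp, hpl, hpl'⟩
      rw [h5, N_of_empty]
      refine ⟨by omega, by omega⟩

end Pool.Agent.WSR
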