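import Pool.Agent.WSR.Stmts

set_option autoImplicit false

open scoped BigOperators Topology

namespace Pool.Agent.WSR

noncomputable section

namespace ARRB_

lemma N_empty (K : Set B3) (h : K.Nonempty) : N K ∅ = 1 := by
  classical
  unfold N
  have : pats K ∅ = {∅} := by
    ext t
    simp only [pats, Set.mem_setOf_eq, Finset.filter_empty, Set.mem_singleton_iff]
    constructor
    · rintro ⟨p, hp, h1⟩
      exact h1
    · intro h1
      obtain ⟨p, hp⟩ := h
      refine ⟨p, ⟨hp, ?_⟩, h1⟩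
      intro l hl
      simp at hl
  rw [this, Set.ncard_singleton]

lemma Xs_symm (d : ℕ) (l l' : Ix) : Xs d l l' ↔ Xs d l' l := by
  constructor
  · rintro ⟨p, h1, h2, h3⟩
    exact ⟨p, h1, h3, h2⟩
  · rintro ⟨p, h1, h2, h3⟩
    exact ⟨p, h1, h3, h2⟩

open Classical in
lemma X2_insert (d : ℕ) (l : Ix) (s : Finset Ix) (hl : l ∉ s) :
    X2 d (insert l s) = X2 d s + 2 * X1 d l s := by
  unfold X2 X1
  have h1 : (((insert l s) ×ˢ (insert l s)).filter fun q : Ix × Ix => q.1 ≠ q.2 ∧ Xs d q.1 q.2) =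
      (((s ×ˢ s).filter fun q : Ix × Ix => q.1 ≠ q.2 ∧ Xs d q.1 q.2) ∪
        (s.filter fun l' => Xs d l l').image (fun l' => (l, l'))) ∪
        (s.filter fun l' => Xs d l l').image (fun l' => (l', l)) := by
    ext ⟨a, b⟩
    simp only [Finset.mem_filter, Finset.mem_product, Finset.mem_insert, Finset.mem_union,
      Finset.mem_image, Prod.mk.injEq]
    constructor
    · rintro ⟨⟨ha, hb⟩, hne, hX⟩
      rcases ha with ha | ha
      · rcases hb with hb | hb
        · exact absurd (ha.trans hb.symm) hne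
        · subst ha
          exact Or.inl (Or.inr ⟨b, ⟨hb, hX⟩, rfl, rfl⟩)
      · rcases hb with hb | hb
        · subst hb
          exact Or.inr ⟨a, ⟨ha, (Xs_symm d _ _).1 hX⟩, rfl, rfl⟩
        · exact Or.inl (Or.inl ⟨⟨ha, hb⟩, hne, hX⟩)
    · rintro ((⟨⟨ha, hb⟩, hne, hX⟩ | ⟨c, ⟨hc, hX⟩, h1, h2⟩) | ⟨c, ⟨hc, hX⟩, h1, h2⟩)
      · exact ⟨⟨Or.inr ha, Or.inr hb⟩, hne, hX⟩
      · subst h1
        subst h2
        refine ⟨⟨Or.inl rfl, Or.inr hc⟩, ?_, hX⟩
        intro h
        exact hl (h ▸ hc)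
      · subst h1
        subst h2
        refine ⟨⟨Or.inr hc, Or.inl rfl⟩, ?_, (Xs_symm d _ _).1 hX⟩
        intro h
        exact hl (h ▸ hc)
  rw [h1, Finset.card_union_of_disjoint, Finset.card_union_of_disjoint,
    Finset.card_image_of_injective, Finset.card_image_of_injective]
  · ring
  · intro x y h
    exact (Prod.mk.inj h).1
  · intro x y h
    exact (Prod.mk.inj h).2
  · rw [Finset.disjoint_left]
    rintro ⟨a, b⟩ h2 h3
    simp only [Finset.mem_filter, Finset.mem_product, Finset.mem_image, Prod.mk.injEq] at h2 h3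
    obtain ⟨c, -, h4, -⟩ := h3
    exact hl (h4 ▸ h2.1.1)
  · rw [Finset.disjoint_left]
    rintro ⟨a, b⟩ h2 h3
    simp only [Finset.mem_filter, Finset.mem_product, Finset.mem_image, Finset.mem_union,
      Prod.mk.injEq] at h2 h3
    obtain ⟨c, ⟨hc, -⟩, h4, h5⟩ := h3
    rcases h2 with h2 | ⟨c', ⟨hc', -⟩, h6, h7⟩
    · exact hl (h5 ▸ h2.1.2)
    · apply hl
      rw [h6, ← h4]
      exact hc

lemma T3_insert (d : ℕ) (l : Ix) (s : Finset Ix) (hl : l ∉ s) :
    (T3s d s).card + T2 d l s ≤ (T3s d (insert l s)).card := by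
  classical
  unfold T3s T2
  rw [← Finset.card_image_of_injective ((s ×ˢ s).filter fun q : Ix × Ix => q.1 ≠ q.2 ∧
    Cs d l q.1 q.2) (f := fun q : Ix × Ix => (l, q.1, q.2))]
  · rw [← Finset.card_union_of_disjoint]
    · apply Finset.card_le_card
      rintro ⟨a, b, c⟩ h
      simp only [Finset.mem_filter, Finset.mem_product, Finset.mem_insert, Finset.mem_union,
        Finset.mem_image, Prod.mk.injEq] at h ⊢
      rcases h with ⟨⟨ha, hb, hc⟩, hab, hac, hbc, hC⟩ | ⟨⟨x, y⟩, ⟨⟨hx, hy⟩, hxy, hC⟩, h1, h2, h3⟩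
      · exact ⟨⟨Or.inr ha, Or.inr hb, Or.inr hc⟩, hab, hac, hbc, hC⟩
      · simp only at hx hy hxy hC h2 h3
        subst h1
        subst h2
        subst h3
        refine ⟨⟨Or.inl rfl, Or.inr hx, Or.inr hy⟩, ?_, ?_, hxy, hC⟩
        · intro h
          exact hl (h ▸ hx)
        · intro h
          exact hl (h ▸ hy)
    · rw [Finset.disjoint_left]
      rintro ⟨a, b, c⟩ h2 h3
      simp only [Finset.mem_filter, Finset.mem_product, Finset.mem_image, Prod.mk.injEq] at h2 h3
      obtain ⟨x, -, h4, -⟩ := h3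
      exact hl (h4 ▸ h2.1.1)
  · rintro ⟨x, y⟩ ⟨x', y'⟩ h
    simp only [Prod.mk.injEq, true_and] at h
    exact Prod.ext h.1 h.2

end ARRB_

theorem arrb_proof (h1 : Stmt_REC) (h2 : Stmt_GEOA) (h3 : Stmt_ARRA) : Stmt_ARRB := by
  classical
  intro d s hd hs
  obtain ⟨hc, hne, hL⟩ := h2 d hd
  induction s using Finset.induction_on with
  | empty =>
    rw [ARRB_.N_empty _ hne]
    have e1 : X2 d ∅ = 0 := by
      unfold X2
      simp
    have e2 : (T3s d ∅).card = 0 := by
      unfold T3s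
      simp
    rw [e1, e2]
    simp
  | insert l s hl ih =>
    have hs' : s ⊆ lines d := (Finset.subset_insert l s).trans hs
    have hll : l ∈ lines d := hs (Finset.mem_insert_self l s)
    obtain ⟨i1, i2⟩ := ih hs'
    obtain ⟨a1, a2⟩ := h3 d l s hd hll hs' hl
    have hN := h1 (Tri d) s l hc hl (hL l hll).2.2
    have hX := ARRB_.X2_insert d l s hl
    have hT := ARRB_.T3_insert d l s hl
    have hC : (insert l s).card = s.card + 1 := Finset.card_insert_of_notMem hl
    constructor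
    · omega
    · omega

end

end Pool.Agent.WSR
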