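import Pool.Agent.WSR.Stmts

set_option autoImplicit false

/-!
# B1: type B, first case, regular
-/

open scoped BigOperators Topology

namespace Pool.Agent.WSR

namespace B1_

/-- covering by fibres over `(r, z, k, x, α, β)` -/
theorem cover (d B : ℕ) (hB : DB d B) (S : Finset N6)
    (R : ℕ → ℕ → ℕ → ℕ → ℕ → ℕ → N6 → Prop)
    (hcov : ∀ t ∈ S, ∃ r z k x α β : ℕ, (1 ≤ r ∧ r ≤ d) ∧ (1 ≤ z ∧ z ≤ d) ∧ (1 ≤ k ∧ k ≤ d) ∧
      x ∣ k ∧ α ∣ r * z ∧ β ∣ (Phi d z r ((x * α : ℕ) : ℤ)).toNat ∧ 1 ≤ x * α ∧ x * α ≤ d ∧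
      0 < Phi d z r ((x * α : ℕ) : ℤ) ∧ R r z k x α β t)
    (hfib : ∀ (r z k x α β : ℕ) (S' : Finset N6), (∀ t ∈ S', t ∈ S ∧ R r z k x α β t) →
      S'.card ≤ 2 * B) : S.card ≤ 2 * d ^ 3 * B ^ 4 := by
  classical
  have hsq : ∀ r z : ℕ, 1 ≤ r → r ≤ d → 1 ≤ z → z ≤ d → r * z ≤ (2 * d) ^ 20 := by
    intro r z h1 h2 h3 h4
    calc r * z ≤ d * d := Nat.mul_le_mul h2 h4
      _ ≤ (2 * d) ^ 2 := by nlinarith
      _ ≤ (2 * d) ^ 20 := Nat.pow_le_pow_right (by omega) (by norm_num)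
  have hself : ∀ k : ℕ, 1 ≤ k → k ≤ d → k ≤ (2 * d) ^ 20 := by
    intro k h1 h2
    calc k ≤ (2 * d) ^ 1 := by rw [pow_one]; omega
      _ ≤ (2 * d) ^ 20 := Nat.pow_le_pow_right (by omega) (by norm_num)
  have hphi : ∀ r z w : ℕ, 1 ≤ r → r ≤ d → 1 ≤ z → z ≤ d → 1 ≤ w → w ≤ d →
      0 < Phi d z r w → 0 < (Phi d z r w).toNat ∧ (Phi d z r w).toNat ≤ (2 * d) ^ 20 := by
    intro r z w h1 h2 h3 h4 h5 h6 h7
    have h8 : Phi d z r w ≤ (((2 * d) ^ 2 : ℕ) : ℤ) := by
      unfold Phi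
      have a1 : (z : ℤ) * r ≤ d * d := by exact_mod_cast Nat.mul_le_mul h4 h2
      have a2 : (w : ℤ) * ((d : ℤ) - z - r) ≤ d * d := by
        have b1 : (w : ℤ) * ((d : ℤ) - z - r) ≤ w * d := by
          apply mul_le_mul_of_nonneg_left _ (by positivity)
          have : (0 : ℤ) ≤ z := by positivity
          have : (0 : ℤ) ≤ r := by positivity
          omega
        have b2 : (w : ℤ) * d ≤ d * d := by exact_mod_cast Nat.mul_le_mul_right d h6
        exact b1.trans b2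
      push_cast
      nlinarith
    have h9 : (Phi d z r w).toNat ≤ (2 * d) ^ 2 := by
      rw [Int.toNat_le]; exact h8
    refine ⟨by omega, h9.trans (Nat.pow_le_pow_right (by omega) (by norm_num))⟩
  -- the covering
  have hsub : S ⊆ (Finset.Icc 1 d).biUnion fun r => (Finset.Icc 1 d).biUnion fun z =>
      (Finset.Icc 1 d).biUnion fun k => (k.divisors).biUnion fun x =>
        ((r * z).divisors.filter fun α => 1 ≤ x * α ∧ x * α ≤ d ∧
          0 < Phi d z r ((x * α : ℕ) : ℤ)).biUnion fun α =>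
            ((Phi d z r ((x * α : ℕ) : ℤ)).toNat.divisors).biUnion fun β =>
              S.filter (R r z k x α β) := by
    intro t ht
    obtain ⟨r, z, k, x, α, β, hr, hz, hk, hx, hα, hβ, hw1, hw2, hΦ, hR⟩ := hcov t ht
    have hrz : r * z ≠ 0 := by
      have : 0 < r * z := Nat.mul_pos (by omega) (by omega)
      omega
    have hΦ0 : (Phi d z r ((x * α : ℕ) : ℤ)).toNat ≠ 0 := by omega
    simp only [Finset.mem_biUnion, Finset.mem_Icc, Nat.mem_divisors, Finset.mem_filter]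
    exact ⟨r, hr, z, hz, k, hk, x, ⟨hx, by omega⟩, α, ⟨⟨hα, hrz⟩, hw1, hw2, hΦ⟩, β, ⟨hβ, hΦ0⟩,
      ht, hR⟩
  refine (Finset.card_le_card hsub).trans ?_
  have h1 : ∀ r ∈ Finset.Icc 1 d, ((Finset.Icc 1 d).biUnion fun z =>
      (Finset.Icc 1 d).biUnion fun k => (k.divisors).biUnion fun x =>
        ((r * z).divisors.filter fun α => 1 ≤ x * α ∧ x * α ≤ d ∧
          0 < Phi d z r ((x * α : ℕ) : ℤ)).biUnion fun α =>
            ((Phi d z r ((x * α : ℕ) : ℤ)).toNat.divisors).biUnion fun β =>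
              S.filter (R r z k x α β)).card ≤ d * (d * (B * (B * (B * (2 * B))))) := by
    intro r hr
    rw [Finset.mem_Icc] at hr
    have h2 : ∀ z ∈ Finset.Icc 1 d, ((Finset.Icc 1 d).biUnion fun k =>
        (k.divisors).biUnion fun x => ((r * z).divisors.filter fun α => 1 ≤ x * α ∧ x * α ≤ d ∧
          0 < Phi d z r ((x * α : ℕ) : ℤ)).biUnion fun α =>
            ((Phi d z r ((x * α : ℕ) : ℤ)).toNat.divisors).biUnion fun β =>
              S.filter (R r z k x α β)).card ≤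
            d * (B * (B * (B * (2 * B)))) := by
      intro z hz
      rw [Finset.mem_Icc] at hz
      have hrz : (r * z).divisors.card ≤ B :=
        hB _ (Nat.mul_pos (by omega) (by omega)) (hsq r z hr.1 hr.2 hz.1 hz.2)
      have h3 : ∀ k ∈ Finset.Icc 1 d, ((k.divisors).biUnion fun x =>
          ((r * z).divisors.filter fun α => 1 ≤ x * α ∧ x * α ≤ d ∧
            0 < Phi d z r ((x * α : ℕ) : ℤ)).biUnion fun α =>
              ((Phi d z r ((x * α : ℕ) : ℤ)).toNat.divisors).biUnion fun β =>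
                S.filter (R r z k x α β)).card ≤ B * (B * (B * (2 * B))) := by
        intro k hk
        rw [Finset.mem_Icc] at hk
        have hkd : k.divisors.card ≤ B := hB _ (by omega) (hself k hk.1 hk.2)
        refine (Finset.card_biUnion_le_card_mul _ _ (B * (B * (2 * B))) fun x _ => ?_).trans
          (Nat.mul_le_mul_right _ hkd)
        have h4 : ((r * z).divisors.filter fun α => 1 ≤ x * α ∧ x * α ≤ d ∧
            0 < Phi d z r ((x * α : ℕ) : ℤ)).card ≤ B :=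
          (Finset.card_le_card (Finset.filter_subset _ _)).trans hrz
        refine (Finset.card_biUnion_le_card_mul _ _ (B * (2 * B)) fun α hα => ?_).trans
          (Nat.mul_le_mul_right _ h4)
        obtain ⟨-, hα1, hα2, hα3⟩ := Finset.mem_filter.1 hα
        obtain ⟨h5, h6⟩ := hphi r z (x * α) hr.1 hr.2 hz.1 hz.2 hα1 hα2 hα3
        refine (Finset.card_biUnion_le_card_mul _ _ (2 * B) fun β _ => ?_).trans
          (Nat.mul_le_mul_right _ (hB _ h5 h6))
        exact hfib r z k x α β _ fun t ht => Finset.mem_filter.1 ht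
      refine (Finset.card_biUnion_le_card_mul _ _ _ h3).trans (le_of_eq ?_)
      rw [Nat.card_Icc, Nat.add_sub_cancel]
    refine (Finset.card_biUnion_le_card_mul _ _ _ h2).trans (le_of_eq ?_)
    rw [Nat.card_Icc, Nat.add_sub_cancel]
  refine (Finset.card_biUnion_le_card_mul _ _ _ h1).trans (le_of_eq ?_)
  rw [Nat.card_Icc, Nat.add_sub_cancel]
  ring

end B1_

theorem b1_proof (h1 : Stmt_BH1) : Stmt_B1 := by
  intro d B hd hB S hS
  refine B1_.cover d B hB S
    (fun r z k x α β t => PB d t ∧ Phi d z r ((x * α : ℕ) : ℤ) ≠ ((k / x * β : ℕ) : ℤ) *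
      ((x * α : ℕ) : ℤ) ∧ ∃ z₁ u₂, t = (k / x * β, z₁, u₂, r, x * α, z)) ?_ ?_
  · intro t ht
    obtain ⟨u₁, z₁, u₂, z₂, w, v, n, a, g, f, rfl, hPB, hne, hu, hw, hn, hg, hag⟩ := hS t ht
    have hP := hPB
    obtain ⟨⟨hu1, hz1, hu2, hz2, hw1, hv1⟩, hlt, -, -, hΦ, -⟩ := hPB
    have hf0 : 0 < f := Nat.pos_of_ne_zero (by rintro rfl; simp at hw; omega)
    have ha0 : 0 < a := Nat.pos_of_ne_zero (by rintro rfl; simp at hu; omega)
    have hfa : f * a ≤ d := by
      calc f * a ≤ f * g := Nat.mul_le_mul_left _ hag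
        _ = w := hw.symm
        _ ≤ d := hw1.2
    have e1 : f * a / f = a := Nat.mul_div_cancel_left _ hf0
    refine ⟨z₂, v, f * a, f, g, n, hz2, hv1, ⟨Nat.mul_pos hf0 ha0, hfa⟩, Dvd.intro _ rfl, hg, ?_,
      ?_, ?_, ?_, hP, ?_, z₁, u₂, ?_⟩
    · rw [← hw]
      have h2 : ((Phi d v z₂ w).toNat : ℤ) = Phi d v z₂ w := Int.toNat_of_nonneg hΦ.le
      rw [← h2] at hn
      exact_mod_cast hn
    · rw [← hw]; exact hw1.1
    · rw [← hw]; exact hw1.2
    · rw [← hw]; exact hΦ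
    · rw [e1, ← hw, ← hu]; exact hne
    · rw [e1, ← hu, ← hw]
  · intro r z k x α β S' hS'
    rcases S'.eq_empty_or_nonempty with rfl | ⟨t₀, ht₀⟩
    · simp
    · refine h1 d B hB (k / x * β) r (x * α) z S' (hS' t₀ ht₀).2.2.1 ?_
      intro t ht
      exact ⟨(hS' t ht).2.1, (hS' t ht).2.2.2⟩

end Pool.Agent.WSR
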