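import Pool.Agent.WSR.Stmts

set_option autoImplicit false

/-!
# B2: type B, second case
-/

open scoped BigOperators Topology

namespace Pool.Agent.WSR

namespace B2_

/-- covering by fibres over `(r, z, k, x, α, β)` -/
theorem cover (d B : ℕ) (hB : DB d B) (S : Finset N6)
    (R : ℕ → ℕ → ℕ → ℕ → ℕ → ℕ → N6 → Prop)
    (hcov : ∀ t ∈ S, ∃ r z k x α β : ℕ, (1 ≤ r ∧ r ≤ d) ∧ (1 ≤ z ∧ z ≤ d) ∧ (1 ≤ k ∧ k ≤ d) ∧
      x ∣ k ∧ α ∣ r * z ∧ β ∣ r * z ∧ R r z k x α β t)
    (hfib : ∀ (r z k x α β : ℕ) (S' : Finset N6), (∀ t ∈ S', t ∈ S ∧ R r z k x α β t) →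
      S'.card ≤ 2 * B) : S.card ≤ 2 * d ^ 3 * B ^ 4 := by
  classical
  have hsq : ∀ r z : ℕ, 1 ≤ r → r ≤ d → 1 ≤ z → z ≤ d → r * z ≤ (2 * d) ^ 20 := by
    intro r z h1 h2 h3 h4
    calc r * z ≤ d * d := Nat.mul_le_mul h2 h4
      _ ≤ (2 * d) ^ 2 := by nlinarith
      _ ≤ (2 * d) ^ 20 := Nat.pow_le_pow_right (by omega) (by norm_num)
  have hself : ∀ k : ℕ, 1 ≤ k → k ≤ d → k ≤ (2 * d) ^ 20 := by
    intro k h1 h2
    calc k ≤ (2 * d) ^ 1 := by rw [pow_one]; omega
      _ ≤ (2 * d) ^ 20 := Nat.pow_le_pow_right (by omega) (by norm_num)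
  -- the covering
  have hsub : S ⊆ (Finset.Icc 1 d).biUnion fun r => (Finset.Icc 1 d).biUnion fun z =>
      (Finset.Icc 1 d).biUnion fun k => (k.divisors).biUnion fun x =>
        ((r * z).divisors).biUnion fun α => ((r * z).divisors).biUnion fun β =>
          S.filter (R r z k x α β) := by
    intro t ht
    obtain ⟨r, z, k, x, α, β, hr, hz, hk, hx, hα, hβ, hR⟩ := hcov t ht
    have hrz : r * z ≠ 0 := by
      have : 0 < r * z := Nat.mul_pos (by omega) (by omega)
      omega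
    simp only [Finset.mem_biUnion, Finset.mem_Icc, Nat.mem_divisors, Finset.mem_filter]
    exact ⟨r, hr, z, hz, k, hk, x, ⟨hx, by omega⟩, α, ⟨hα, hrz⟩, β, ⟨hβ, hrz⟩, ht, hR⟩
  refine (Finset.card_le_card hsub).trans ?_
  have h1 : ∀ r ∈ Finset.Icc 1 d, ((Finset.Icc 1 d).biUnion fun z =>
      (Finset.Icc 1 d).biUnion fun k => (k.divisors).biUnion fun x =>
        ((r * z).divisors).biUnion fun α => ((r * z).divisors).biUnion fun β =>
          S.filter (R r z k x α β)).card ≤ d * (d * (B * (B * (B * (2 * B))))) := by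
    intro r hr
    rw [Finset.mem_Icc] at hr
    have h2 : ∀ z ∈ Finset.Icc 1 d, ((Finset.Icc 1 d).biUnion fun k =>
        (k.divisors).biUnion fun x => ((r * z).divisors).biUnion fun α =>
          ((r * z).divisors).biUnion fun β => S.filter (R r z k x α β)).card ≤
            d * (B * (B * (B * (2 * B)))) := by
      intro z hz
      rw [Finset.mem_Icc] at hz
      have hrz : (r * z).divisors.card ≤ B :=
        hB _ (Nat.mul_pos (by omega) (by omega)) (hsq r z hr.1 hr.2 hz.1 hz.2)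
      have h3 : ∀ k ∈ Finset.Icc 1 d, ((k.divisors).biUnion fun x =>
          ((r * z).divisors).biUnion fun α => ((r * z).divisors).biUnion fun β =>
            S.filter (R r z k x α β)).card ≤ B * (B * (B * (2 * B))) := by
        intro k hk
        rw [Finset.mem_Icc] at hk
        have hkd : k.divisors.card ≤ B := hB _ (by omega) (hself k hk.1 hk.2)
        refine (Finset.card_biUnion_le_card_mul _ _ (B * (B * (2 * B))) fun x _ => ?_).trans
          (Nat.mul_le_mul_right _ hkd)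
        refine (Finset.card_biUnion_le_card_mul _ _ (B * (2 * B)) fun α _ => ?_).trans
          (Nat.mul_le_mul_right _ hrz)
        refine (Finset.card_biUnion_le_card_mul _ _ (2 * B) fun β _ => ?_).trans
          (Nat.mul_le_mul_right _ hrz)
        exact hfib r z k x α β _ fun t ht => Finset.mem_filter.1 ht
      refine (Finset.card_biUnion_le_card_mul _ _ _ h3).trans (le_of_eq ?_)
      rw [Nat.card_Icc, Nat.add_sub_cancel]
    refine (Finset.card_biUnion_le_card_mul _ _ _ h2).trans (le_of_eq ?_)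
    rw [Nat.card_Icc, Nat.add_sub_cancel]
  refine (Finset.card_biUnion_le_card_mul _ _ _ h1).trans (le_of_eq ?_)
  rw [Nat.card_Icc, Nat.add_sub_cancel]
  ring

end B2_

theorem b2_proof (h1 : Stmt_BH2) : Stmt_B2 := by
  intro d B hd hB S hS
  refine B2_.cover d B hB S
    (fun r z k x α β t => PB d t ∧ ∃ z₂ v, t = (α * x, r, α * x + z, z₂, β * (k / x), v)) ?_ ?_
  · intro t ht
    obtain ⟨u₁, z₁, u₂, z₂, w, v, n, a, g, f, rfl, hPB, hu, hw, ha, hf, hga⟩ := hS t ht
    have hP := hPB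
    obtain ⟨⟨hu1, hz1, hu2, hz2, hw1, hv1⟩, hlt, -⟩ := hPB
    have hn : 0 < n := Nat.pos_of_ne_zero (by rintro rfl; simp at hu; omega)
    have hg : 0 < g := Nat.pos_of_ne_zero (by rintro rfl; simp at hw; omega)
    have hng : n * g ≤ d := by
      calc n * g ≤ n * a := Nat.mul_le_mul_left _ hga
        _ = u₁ := by rw [hu, Nat.mul_comm]
        _ ≤ d := hu1.2
    refine ⟨z₁, u₂ - u₁, n * g, n, a, f, hz1, ⟨by omega, by omega⟩,
      ⟨Nat.mul_pos hn hg, hng⟩, Dvd.intro _ rfl, ha, hf, hP, z₂, v, ?_⟩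
    have e1 : n * g / n = g := Nat.mul_div_cancel_left _ hn
    have e2 : a * n + (u₂ - u₁) = u₂ := by rw [← hu]; omega
    rw [e1, e2, ← hu, ← hw]
  · intro r z k x α β S' hS'
    refine h1 d B hB (α * x) r (α * x + z) (β * (k / x)) S' ?_
    intro t ht
    exact (hS' t ht).2

end Pool.Agent.WSR
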