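import Pool.Agent.WSR.Stmts

set_option autoImplicit false

/-! # WSR, module BD: type B, degenerate case -/

open scoped BigOperators Topology

namespace Pool.Agent.WSR

noncomputable section

namespace BD_

theorem facts {d u₁ z₁ u₂ z₂ w v : ℕ} (h : PB d (u₁, z₁, u₂, z₂, w, v))
    (hP : Phi d v z₂ w = u₁ * w) :
    (1 ≤ u₁ ∧ u₁ ≤ d) ∧ (1 ≤ z₁ ∧ z₁ ≤ d) ∧ (1 ≤ z₂ ∧ z₂ ≤ d) ∧ (1 ≤ w ∧ w ≤ d) ∧
      (1 ≤ v ∧ v ≤ d) ∧
      (z₂ : ℤ) * ((v : ℤ) - w) = w * ((u₁ : ℤ) + v - d) ∧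
      (z₂ : ℤ) * u₂ = z₁ * u₁ + ((z₁ : ℤ) - z₂) * ((v : ℤ) - d) ∧ w < v := by
  obtain ⟨⟨hu1, hz1, hu2, hz2, hw, hv⟩, h1, h2, h3, h4, h5, h6⟩ := h
  have e1 : (z₂ : ℤ) * ((v : ℤ) - w) = w * ((u₁ : ℤ) + v - d) := by
    unfold Phi at hP
    linear_combination hP
  refine ⟨hu1, hz1, hz2, hw, hv, e1, ?_, ?_⟩
  · rw [hP] at h6
    have huw : ((u₁ : ℤ) * w) ≠ 0 := by
      have : 0 < u₁ * w := Nat.mul_pos hu1.1 hw.1
      exact_mod_cast this.ne'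
    have e2 : ((u₁ : ℤ) * w) * ((z₁ : ℤ) * ((u₂ : ℤ) - u₁)) =
        ((u₁ : ℤ) * w) * (((z₁ : ℤ) - z₂) * ((u₂ : ℤ) + v - d)) := by
      linear_combination h6
    have e3 := mul_left_cancel₀ huw e2
    linear_combination e3
  · have hw0 : (0 : ℤ) < w := by
      have := hw.1
      omega
    have hz0 : (0 : ℤ) < z₂ := by
      have := hz2.1
      omega
    have hr : (0 : ℤ) < (u₁ : ℤ) + v - d := by omega
    have hpos : (0 : ℤ) < (z₂ : ℤ) * ((v : ℤ) - w) := by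
      rw [e1]
      exact mul_pos hw0 hr
    have := (mul_pos_iff_of_pos_left hz0).1 hpos
    omega

theorem inj {d u₁ z₁ u₂ z₂ w v u₁' u₂' v' : ℕ} (h : PB d (u₁, z₁, u₂, z₂, w, v))
    (hP : Phi d v z₂ w = u₁ * w) (h' : PB d (u₁', z₁, u₂', z₂, w, v'))
    (hP' : Phi d v' z₂ w = u₁' * w) (hvv : v = v') : u₁ = u₁' ∧ u₂ = u₂' := by
  subst hvv
  obtain ⟨-, -, hz2, hw, -, e1, e2, -⟩ := facts h hP
  obtain ⟨-, -, -, -, -, e1', e2', -⟩ := facts h' hP'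
  have hw0 : (w : ℤ) ≠ 0 := by
    have := hw.1
    omega
  have hz0 : (z₂ : ℤ) ≠ 0 := by
    have := hz2.1
    omega
  have hu : (u₁ : ℤ) = u₁' := by
    have e4 := mul_left_cancel₀ hw0 (e1.symm.trans e1')
    linarith
  have hun : u₁ = u₁' := by exact_mod_cast hu
  subst hun
  refine ⟨rfl, ?_⟩
  have e6 := mul_left_cancel₀ hz0 (e2.trans e2'.symm)
  exact_mod_cast e6

end BD_

open BD_ in
theorem bd_proof : Stmt_BD := by
  classical
  intro d B hd hDB S hS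
  let f : N6 → ℕ × ℕ × ℕ := fun t => (t.2.1, t.2.2.2.1, t.2.2.2.2.2 - t.2.2.2.2.1)
  have him : (S.image f).card ≤ d * (d * d) := by
    have hsub : S.image f ⊆ Finset.Icc 1 d ×ˢ (Finset.Icc 1 d ×ˢ Finset.Icc 1 d) := by
      intro a ha
      obtain ⟨t, ht, rfl⟩ := Finset.mem_image.1 ha
      obtain ⟨u₁, z₁, u₂, z₂, w, v, rfl, hPB, hP⟩ := hS t ht
      obtain ⟨hu1, hz1, hz2, hw, hv, e1, e2, hlt⟩ := facts hPB hP
      simp only [f, Finset.mem_product, Finset.mem_Icc]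
      refine ⟨hz1, hz2, ?_⟩
      omega
    refine (Finset.card_le_card hsub).trans (le_of_eq ?_)
    simp only [Finset.card_product, Nat.card_Icc, Nat.add_sub_cancel]
  have hfib : ∀ a ∈ S.image f, (S.filter fun t => f t = a).card ≤ B := by
    intro a ha
    obtain ⟨t, ht, rfl⟩ := Finset.mem_image.1 ha
    obtain ⟨u₁, z₁, u₂, z₂, w, v, rfl, hPB, hP⟩ := hS t ht
    obtain ⟨hu1, hz1, hz2, hw, hv, e1, e2, hlt⟩ := facts hPB hP
    have hk : 0 < v - w := by omega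
    have hkd : v - w ≤ d := by omega
    have hpos : 0 < z₂ * (v - w) := Nat.mul_pos hz2.1 hk
    have hle : z₂ * (v - w) ≤ (2 * d) ^ 20 := by
      calc z₂ * (v - w) ≤ d * d := Nat.mul_le_mul hz2.2 hkd
        _ ≤ (2 * d) * (2 * d) := Nat.mul_le_mul (by omega) (by omega)
        _ = (2 * d) ^ 2 := (sq _).symm
        _ ≤ (2 * d) ^ 20 := Nat.pow_le_pow_right (by omega) (by norm_num)
    refine le_trans ?_ (hDB _ hpos hle)
    refine Finset.card_le_card_of_injOn (fun t : N6 => t.2.2.2.2.1) ?_ ?_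
    · intro t' ht'
      rw [Finset.mem_coe, Finset.mem_filter] at ht'
      obtain ⟨ht'S, hf⟩ := ht'
      obtain ⟨u₁', z₁', u₂', z₂', w', v', rfl, hPB', hP'⟩ := hS t' ht'S
      obtain ⟨hu1', hz1', hz2', hw', hv', e1', e2', hlt'⟩ := facts hPB' hP'
      simp only [f, Prod.mk.injEq] at hf
      obtain ⟨f1, f2, f3⟩ := hf
      rw [Finset.mem_coe, Nat.mem_divisors]
      refine ⟨?_, hpos.ne'⟩
      have hdvd : (w' : ℤ) ∣ (z₂' : ℤ) * ((v' : ℤ) - w') := ⟨_, e1'⟩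
      have hc : ((z₂' * (v' - w') : ℕ) : ℤ) = (z₂' : ℤ) * ((v' : ℤ) - w') := by
        rw [Nat.cast_mul, Nat.cast_sub hlt'.le]
      rw [← hc, Int.natCast_dvd_natCast, f2, f3] at hdvd
      exact hdvd
    · intro t₁ ht₁ t₂ ht₂ hw12
      rw [Finset.mem_coe, Finset.mem_filter] at ht₁ ht₂
      obtain ⟨h1S, hf1⟩ := ht₁
      obtain ⟨h2S, hf2⟩ := ht₂
      obtain ⟨p₁, q₁, p₂, q₂, w₁, v₁, rfl, hPB1, hP1⟩ := hS t₁ h1S
      obtain ⟨r₁, s₁, r₂, s₂, w₂, v₂, rfl, hPB2, hP2⟩ := hS t₂ h2S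
      obtain ⟨-, -, -, -, -, -, -, hlt1⟩ := facts hPB1 hP1
      obtain ⟨-, -, -, -, -, -, -, hlt2⟩ := facts hPB2 hP2
      have hff := hf1.trans hf2.symm
      simp only [f, Prod.mk.injEq] at hff
      obtain ⟨f1, f2, f3⟩ := hff
      simp only at hw12
      subst hw12
      subst f1
      subst f2
      have hvv : v₁ = v₂ := by omega
      obtain ⟨g1, g2⟩ := inj hPB1 hP1 hPB2 hP2 hvv
      rw [hvv, g1, g2]
  have := Finset.card_le_mul_card_image S B hfib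
  calc S.card ≤ B * (S.image f).card := this
    _ ≤ B * (d * (d * d)) := Nat.mul_le_mul le_rfl him
    _ = d ^ 3 * B := by ring

end

end Pool.Agent.WSR
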