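import Pool.Agent.WSR.Stmts

set_option autoImplicit false

namespace Pool.Agent.WSR

theorem bfc_proof (h1 : Stmt_FAC) : Stmt_BFC := by
  intro d u₁ z₁ u₂ z₂ w v h
  obtain ⟨hin, k1, k2, k3, k4, k5, k6⟩ := h
  obtain ⟨N, hN⟩ : ∃ N : ℕ, Phi d v z₂ w = N :=
    ⟨(Phi d v z₂ w).toNat, (Int.toNat_of_nonneg k4.le).symm⟩
  rw [hN] at k4 k6
  have hN0 : 0 < N := by exact_mod_cast k4
  obtain ⟨p, rfl⟩ : ∃ p, u₂ = u₁ + p := ⟨u₂ - u₁, by omega⟩
  obtain ⟨r, rfl⟩ : ∃ r, z₁ = z₂ + r := ⟨z₁ - z₂, by omega⟩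
  obtain ⟨c, hc⟩ : ∃ c : ℕ, u₁ + p + v = d + c := ⟨u₁ + p + v - d, by omega⟩
  have hcz : (u₁ : ℤ) + p + v = d + c := by exact_mod_cast hc
  have e : (z₂ + r) * p * N = u₁ * r * w * c := by
    have ez : ((z₂ : ℤ) + r) * p * N = u₁ * r * w * c := by
      push_cast at k6
      linear_combination k6 + (u₁ : ℤ) * r * w * hcz
    exact_mod_cast ez
  obtain ⟨n, m, g, m', ⟨a, ha⟩, ⟨r', hr⟩, ⟨f, hf⟩, ⟨c', hc'⟩, hprod⟩ :=
    h1 N u₁ r w c hN0 ⟨(z₂ + r) * p, by rw [← e]; ring⟩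
  have key : (z₂ + r) * p = a * r' * f * c' := by
    have h2 : N * ((z₂ + r) * p) = N * (a * r' * f * c') := by
      calc N * ((z₂ + r) * p) = u₁ * r * w * c := by rw [← e]; ring
        _ = (n * a) * (m * r') * (g * f) * (m' * c') := by rw [← ha, ← hr, ← hf, ← hc']
        _ = (n * m * g * m') * (a * r' * f * c') := by ring
        _ = N * (a * r' * f * c') := by rw [← hprod]
    exact Nat.eq_of_mul_eq_mul_left hN0 h2
  have hsub : u₁ + p - u₁ = p := by omega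
  refine ⟨n, a, g, f, by rw [ha]; ring, by rw [hf]; ring, ?_, ?_, ?_, ?_⟩
  · rw [hN]
    exact Int.natCast_dvd_natCast.2 ⟨m * g * m', by rw [hprod]; ring⟩
  · have h2 : ((z₂ * v : ℕ) : ℤ) = N - w * (d - v - z₂) := by
      rw [← hN]
      unfold Phi
      push_cast
      ring
    have h3 : (g : ℤ) ∣ ((z₂ * v : ℕ) : ℤ) := by
      rw [h2]
      refine dvd_sub (Int.natCast_dvd_natCast.2 ⟨n * m * m', by rw [hprod]; ring⟩) ?_
      exact (Int.natCast_dvd_natCast.2 ⟨f, hf⟩).mul_right _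
    exact Int.natCast_dvd_natCast.1 h3
  · rw [hsub, key]
    exact ⟨r' * f * c', by ring⟩
  · rw [hsub, key]
    exact ⟨a * r' * c', by ring⟩

end Pool.Agent.WSR
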