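import Pool.Agent.WSR.Stmts

set_option autoImplicit false

namespace Pool.Agent.WSR

namespace BH1_

theorem prod_le (a b c e P d : ℤ) (_ : 0 ≤ a) (ha' : a ≤ d) (hb : 0 ≤ b) (hb' : b ≤ d)
    (hc : 0 ≤ c) (hc' : c ≤ d) (he : 0 ≤ e) (he' : e ≤ d) (hP : 0 ≤ P) (hP' : P ≤ 2 * d ^ 2)
    (hd : 1 ≤ d) : a * b * c * e * P ≤ (2 * d) ^ 20 := by
  have hd0 : 0 ≤ d := by linarith
  have h1 : a * b ≤ d * d := mul_le_mul ha' hb' hb hd0
  have h2 : a * b * c ≤ d * d * d := mul_le_mul h1 hc' hc (by positivity)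
  have h3 : a * b * c * e ≤ d * d * d * d := mul_le_mul h2 he' he (by positivity)
  have h4 : a * b * c * e * P ≤ d * d * d * d * (2 * d ^ 2) := mul_le_mul h3 hP' hP (by positivity)
  refine h4.trans ?_
  have h5 : d ^ 6 ≤ d ^ 20 := pow_le_pow_right₀ hd (by norm_num)
  have h6 : (0 : ℤ) ≤ d ^ 20 := by positivity
  calc d * d * d * d * (2 * d ^ 2) = 2 * d ^ 6 := by ring
    _ ≤ 2 ^ 20 * d ^ 20 := by nlinarith
    _ = (2 * d) ^ 20 := by ring

end BH1_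

theorem bh1_proof (h1 : Stmt_HYP) : Stmt_BH1 := by
  intro d B hB u₁ z₂ w v S hne hS
  rcases S.eq_empty_or_nonempty with rfl | ⟨t₀, ht₀⟩
  · simp
  have hinj : Set.InjOn (fun t : N6 => ((t.2.1 : ℤ) - z₂, (t.2.2.1 : ℤ) + v - d)) S := by
    intro t ht t' ht' h
    obtain ⟨-, z₁, u₂, rfl⟩ := hS t ht
    obtain ⟨-, z₁', u₂', rfl⟩ := hS t' ht'
    simp only [Prod.mk.injEq] at h
    have e1 : z₁ = z₁' := by
      have : (z₁ : ℤ) = z₁' := by linarith [h.1]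
      exact_mod_cast this
    have e2 : u₂ = u₂' := by
      have : (u₂ : ℤ) = u₂' := by linarith [h.2]
      exact_mod_cast this
    rw [e1, e2]
  rw [← Finset.card_image_of_injOn hinj]
  obtain ⟨⟨hin, k1, k2, k3, k4, k5, k6⟩, z₀, u₀, rfl⟩ := hS t₀ ht₀
  obtain ⟨⟨hu, hu'⟩, ⟨-, -⟩, ⟨-, -⟩, ⟨hz, hz'⟩, ⟨hw, hw'⟩, ⟨hv, hv'⟩⟩ := hin
  have hz1 : (1 : ℤ) ≤ z₂ := by exact_mod_cast hz
  have hz2 : (z₂ : ℤ) ≤ d := by exact_mod_cast hz'
  have hw1 : (1 : ℤ) ≤ w := by exact_mod_cast hw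
  have hw2 : (w : ℤ) ≤ d := by exact_mod_cast hw'
  have hv1 : (1 : ℤ) ≤ v := by exact_mod_cast hv
  have hv2 : (v : ℤ) ≤ d := by exact_mod_cast hv'
  have hu1 : (1 : ℤ) ≤ u₁ := by exact_mod_cast hu
  have hu2 : (u₁ : ℤ) ≤ d := by exact_mod_cast hu'
  have huv : (d : ℤ) < u₁ + v := by exact_mod_cast k3
  have hPle : Phi d v z₂ w ≤ 2 * (d : ℤ) ^ 2 := by
    have e1 : (v : ℤ) * z₂ ≤ d * d := mul_le_mul hv2 hz2 (by linarith) (by linarith)
    have e2 : (w : ℤ) * (d - v - z₂) ≤ d * d := by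
      calc (w : ℤ) * (d - v - z₂) ≤ w * d := mul_le_mul_of_nonneg_left (by linarith) (by linarith)
        _ ≤ d * d := mul_le_mul_of_nonneg_right hw2 (by linarith)
    unfold Phi
    nlinarith
  set P : ℤ := Phi d v z₂ w with hP
  have hD : (-(P * (u₁ + v - d))) * (P * z₂) - (P - u₁ * w) * (-(P * z₂ * (u₁ + v - d))) =
      -((u₁ : ℤ) * w * z₂ * (u₁ + v - d) * P) := by
    ring
  have hpos : 0 < (u₁ : ℤ) * w * z₂ * (u₁ + v - d) * P := by
    have : (0 : ℤ) < u₁ + v - d := by linarith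
    positivity
  refine h1 d B hB (P - u₁ * w) (-(P * (u₁ + v - d))) (P * z₂) (-(P * z₂ * (u₁ + v - d))) ?_ ?_ ?_
    _ ?_
  · intro h0
    exact hne (by linarith)
  · rw [hD]
    exact (neg_neg_of_pos hpos).ne
  · rw [hD, abs_neg, abs_of_pos hpos]
    exact BH1_.prod_le _ _ _ _ _ _ (by linarith) hu2 (by linarith) hw2 (by linarith) hz2
      (by linarith) (by linarith) k4.le hPle (by linarith)
  · intro s hs
    rw [Finset.mem_image] at hs
    obtain ⟨t, ht, rfl⟩ := hs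
    obtain ⟨⟨-, -, -, -, -, -, q6⟩, z₁, u₂, rfl⟩ := hS t ht
    simp only
    rw [← hP] at q6
    linear_combination q6

end Pool.Agent.WSR
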