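import Pool.Agent.WSR.Stmts

set_option autoImplicit false

/-!
# WSR, BH2: type B, given `u₁, z₁, u₂` and `w`
-/

namespace Pool.Agent.WSR.BH2_

open Pool.Agent.WSR

/-- The two unknowns. -/
def f (d : ℕ) (t : N6) : ℤ × ℤ :=
  ((t.2.1 : ℤ) - t.2.2.2.1, (t.2.2.1 : ℤ) + t.2.2.2.2.2 - d)

lemma key {d u₁ z₁ u₂ w : ℤ} (hd : 1 ≤ d) (hu : 1 ≤ u₁) (hud : u₁ ≤ d) (hz : 1 ≤ z₁)
    (hzd : z₁ ≤ d) (hu2 : u₁ < u₂) (hu2d : u₂ ≤ d) (hw : 1 ≤ w) (hwd : w ≤ d)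
    (hP : 0 < Phi d z₁ (d - u₂) w) :
    0 < z₁ * (u₂ - u₁) * (w + u₂ - d) * (z₁ * (u₂ - u₁) * (z₁ - w)) -
      (-(z₁ * (u₂ - u₁) + u₁ * w)) * (z₁ * (u₂ - u₁) * Phi d z₁ (d - u₂) w) ∧
    z₁ * (u₂ - u₁) * (w + u₂ - d) * (z₁ * (u₂ - u₁) * (z₁ - w)) -
      (-(z₁ * (u₂ - u₁) + u₁ * w)) * (z₁ * (u₂ - u₁) * Phi d z₁ (d - u₂) w) ≤
        (2 * d) ^ 20 := by
  have hid : z₁ * (u₂ - u₁) * (w + u₂ - d) * (z₁ * (u₂ - u₁) * (z₁ - w)) -
      (-(z₁ * (u₂ - u₁) + u₁ * w)) * (z₁ * (u₂ - u₁) * Phi d z₁ (d - u₂) w) =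
      z₁ * (u₂ - u₁) * (z₁ * (u₂ - u₁) * (w * (d - w)) + u₁ * w * Phi d z₁ (d - u₂) w) := by
    unfold Phi
    ring
  rw [hid]
  have hp : 0 < u₂ - u₁ := by linarith
  have hpd : u₂ - u₁ ≤ d := by linarith
  have h1 : 0 < z₁ * (u₂ - u₁) := mul_pos (by linarith) hp
  have h2 : 0 ≤ w * (d - w) := mul_nonneg (by linarith) (by linarith)
  have h3 : 0 < u₁ * w := mul_pos (by linarith) (by linarith)
  refine ⟨mul_pos h1 (add_pos_of_nonneg_of_pos (mul_nonneg h1.le h2) (mul_pos h3 hP)), ?_⟩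
  have h4 : z₁ * (u₂ - u₁) ≤ d * d := mul_le_mul hzd hpd hp.le (by linarith)
  have h5 : w * (d - w) ≤ d * d := mul_le_mul hwd (by linarith) (by linarith) (by linarith)
  have h6 : u₁ * w ≤ d * d := mul_le_mul hud hwd (by linarith) (by linarith)
  have h7 : Phi d z₁ (d - u₂) w ≤ 2 * (d * d) := by
    unfold Phi
    have h8 : z₁ * (d - u₂) ≤ d * d := mul_le_mul hzd (by linarith) (by linarith) (by linarith)
    have h9 : w * (d - z₁ - (d - u₂)) ≤ d * d := by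
      calc w * (d - z₁ - (d - u₂)) ≤ w * d :=
            mul_le_mul_of_nonneg_left (by linarith) (by linarith)
        _ ≤ d * d := mul_le_mul_of_nonneg_right hwd (by linarith)
    linarith
  have h10 : z₁ * (u₂ - u₁) * (w * (d - w)) ≤ d * d * (d * d) :=
    mul_le_mul h4 h5 h2 (by positivity)
  have h11 : u₁ * w * Phi d z₁ (d - u₂) w ≤ d * d * (2 * (d * d)) :=
    mul_le_mul h6 h7 hP.le (by positivity)
  have h12 : z₁ * (u₂ - u₁) * (z₁ * (u₂ - u₁) * (w * (d - w)) +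
      u₁ * w * Phi d z₁ (d - u₂) w) ≤ d * d * (d * d * (d * d) + d * d * (2 * (d * d))) :=
    mul_le_mul h4 (add_le_add h10 h11)
      (add_nonneg (mul_nonneg h1.le h2) (mul_nonneg h3.le hP.le)) (by positivity)
  have h13 : d * d * (d * d * (d * d) + d * d * (2 * (d * d))) = 3 * d ^ 6 := by ring
  have h14 : 3 * d ^ 6 ≤ (2 * d) ^ 20 := by
    have h15 : d ^ 6 ≤ d ^ 20 := pow_le_pow_right₀ hd (by norm_num)
    have h16 : (2 * d) ^ 20 = 1048576 * d ^ 20 := by ring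
    have h17 : 0 ≤ d ^ 20 := by positivity
    rw [h16]
    linarith
  rw [h13] at h12
  exact h12.trans h14

end Pool.Agent.WSR.BH2_

namespace Pool.Agent.WSR

open BH2_

theorem bh2_proof (h1 : Stmt_HYP) : Stmt_BH2 := by
  classical
  intro d B hDB u₁ z₁ u₂ w S hS
  rcases S.eq_empty_or_nonempty with rfl | ⟨t0, ht0⟩
  · simp
  obtain ⟨hPB0, z0, v0, ht⟩ := hS t0 ht0
  rw [ht] at hPB0
  obtain ⟨⟨hu, hz, hu2, hz0, hw, hv0⟩, hlt, -, -, -, hP, -⟩ := hPB0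
  have hd : 1 ≤ d := hu.1.trans hu.2
  have hinj : Set.InjOn (f d) (S : Set N6) := by
    intro t hts t' hts' he
    obtain ⟨-, z, v, rfl⟩ := hS t hts
    obtain ⟨-, z', v', rfl⟩ := hS t' hts'
    simp only [f, Prod.mk.injEq] at he
    have h2 : z = z' := by omega
    have h3 : v = v' := by omega
    rw [h2, h3]
  rw [← Finset.card_image_of_injOn hinj]
  obtain ⟨hk1, hk2⟩ := key (d := (d : ℤ)) (u₁ := u₁) (z₁ := z₁) (u₂ := u₂) (w := w)
    (by exact_mod_cast hd) (by exact_mod_cast hu.1) (by exact_mod_cast hu.2)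
    (by exact_mod_cast hz.1) (by exact_mod_cast hz.2) (by exact_mod_cast hlt)
    (by exact_mod_cast hu2.2) (by exact_mod_cast hw.1) (by exact_mod_cast hw.2) hP
  refine h1 d B hDB (-((z₁ : ℤ) * (u₂ - u₁) + u₁ * w)) ((z₁ : ℤ) * (u₂ - u₁) * (w + u₂ - d))
    ((z₁ : ℤ) * (u₂ - u₁) * (z₁ - w)) ((z₁ : ℤ) * (u₂ - u₁) * Phi d z₁ (d - u₂) w) ?_ hk1.ne'
    ?_ _ ?_
  · have h2 : (0 : ℤ) < z₁ * (u₂ - u₁) + u₁ * w := by
      have h3 : (1 : ℤ) ≤ z₁ := by exact_mod_cast hz.1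
      have h4 : (u₁ : ℤ) < u₂ := by exact_mod_cast hlt
      have h5 : (1 : ℤ) ≤ u₁ := by exact_mod_cast hu.1
      have h6 : (1 : ℤ) ≤ w := by exact_mod_cast hw.1
      exact add_pos (mul_pos (by linarith) (by linarith)) (mul_pos (by linarith) (by linarith))
    exact (neg_neg_of_pos h2).ne
  · rw [abs_of_pos hk1]
    exact hk2
  · intro s hs
    obtain ⟨t, hts, rfl⟩ := Finset.mem_image.1 hs
    obtain ⟨hPB, z, v, rfl⟩ := hS t hts
    have he := hPB.2.2.2.2.2.2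
    simp only [f]
    simp only [Phi] at he ⊢
    linear_combination he

end Pool.Agent.WSR
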