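import Pool.Agent.WSR.Stmts

set_option autoImplicit false

/-!
# WSR: C1, type C, first case, regular: counting by fibres
-/

namespace Pool.Agent.WSR

namespace C1_

theorem div_le {d B n : ℕ} (hDB : DB d B) (hn : n ≤ (2 * d) ^ 20) : n.divisors.card ≤ B := by
  rcases Nat.eq_zero_or_pos n with rfl | h
  · simp
  · exact hDB n h hn

theorem pow_le {d e : ℕ} (hd : 1 ≤ d) (he : e ≤ 20) : d ^ e ≤ (2 * d) ^ 20 :=
  calc d ^ e ≤ d ^ 20 := Nat.pow_le_pow_right hd he
    _ ≤ (2 * d) ^ 20 := Nat.pow_le_pow_left (by omega) 20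

theorem phi_le {d z v w : ℕ} (hd : 1 ≤ d) (hz : z ≤ d) (hv : v ≤ d) (hw : w ≤ d ^ 3) :
    (Phi d v z w).natAbs ≤ (2 * d) ^ 20 := by
  have h1 : |Phi d v z w| ≤ 2 * (d : ℤ) ^ 4 := by
    unfold Phi
    have hz' : (z : ℤ) ≤ d := by exact_mod_cast hz
    have hv' : (v : ℤ) ≤ d := by exact_mod_cast hv
    have hw' : (w : ℤ) ≤ (d : ℤ) ^ 3 := by exact_mod_cast hw
    have hd' : (1 : ℤ) ≤ d := by exact_mod_cast hd
    have hz0 : (0 : ℤ) ≤ z := by positivity
    have hv0 : (0 : ℤ) ≤ v := by positivity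
    have hw0 : (0 : ℤ) ≤ w := by positivity
    have h2 : |(v : ℤ) * z| ≤ (d : ℤ) ^ 2 := by
      rw [abs_of_nonneg (by positivity), pow_two]
      exact mul_le_mul hv' hz' hz0 (by positivity)
    have h3 : |(w : ℤ) * (d - v - z)| ≤ (d : ℤ) ^ 3 * d := by
      rw [abs_mul, abs_of_nonneg hw0]
      refine mul_le_mul hw' ?_ (abs_nonneg _) (by positivity)
      rw [abs_le]
      constructor <;> linarith
    have h4 : (d : ℤ) ^ 2 ≤ (d : ℤ) ^ 4 := pow_le_pow_right₀ hd' (by norm_num)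
    calc |(v : ℤ) * z + w * (d - v - z)| ≤ |(v : ℤ) * z| + |(w : ℤ) * (d - v - z)| :=
          abs_add_le _ _
      _ ≤ (d : ℤ) ^ 4 + (d : ℤ) ^ 3 * d := add_le_add (h2.trans h4) h3
      _ = 2 * (d : ℤ) ^ 4 := by ring
  have h5 : (Phi d v z w).natAbs ≤ 2 * d ^ 4 := by
    have h6 : ((Phi d v z w).natAbs : ℤ) ≤ ((2 * d ^ 4 : ℕ) : ℤ) := by
      rw [Int.natCast_natAbs]
      push_cast
      exact h1
    exact_mod_cast h6
  calc (Phi d v z w).natAbs ≤ 2 * d ^ 4 := h5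
    _ ≤ (2 * d) ^ 4 := by
        rw [mul_pow]
        have : 0 < d ^ 4 := by positivity
        nlinarith
    _ ≤ (2 * d) ^ 20 := Nat.pow_le_pow_right (by omega) (by norm_num)

open Classical in
/-- The fibre. -/
noncomputable def fib (d : ℕ) (S : Finset N6) (z w v x : ℕ) : Finset N6 :=
  S.filter fun t => Phi d v z w ≠ w * x ∧ ∃ u y : ℕ, t = (u, z, w, v, y, x)

end C1_

open C1_ in
theorem c1_proof (hCH : Stmt_CH) : Stmt_C1 := by
  classical
  intro d B hd hDB S hS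
  have hfib : ∀ z w v x, (fib d S z w v x).card ≤ 2 * B := by
    intro z w v x
    by_cases h : Phi d v z w ≠ w * x
    · apply hCH d B hDB z w v x _ h
      intro t ht
      obtain ⟨htS, -, u, y, hu⟩ := Finset.mem_filter.1 ht
      obtain ⟨u', z', w', v', y', x', -, -, -, -, h1, h2, -⟩ := hS t htS
      exact ⟨h1 ▸ h2, u, y, hu⟩
    · have : fib d S z w v x = ∅ := by
        unfold fib
        rw [Finset.filter_eq_empty_iff]
        intro t _ ht
        exact h ht.1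
      rw [this]
      simp
  have hsub : S ⊆ (Finset.Icc 1 d ×ˢ (Finset.Icc 1 d ×ˢ Finset.Icc 1 d)).biUnion fun q =>
      q.2.2.divisors.biUnion fun w₂ => (q.1 * q.2.1).divisors.biUnion fun w₁ =>
      (Phi d q.2.1 q.1 ((w₁ * w₂ : ℕ) : ℤ)).natAbs.divisors.biUnion fun x₁ =>
      fib d S q.1 (w₁ * w₂) q.2.1 (x₁ * (q.2.2 / w₂)) := by
    intro t ht
    obtain ⟨u, z, w, v, y, x, w₁, w₂, x₁, x₂, h1, h2, h3, h4, h5, h6, h7, h8⟩ := hS t ht
    rw [h1] at h2
    obtain ⟨⟨hu, hz, hw, hv, hy, hx⟩, -, -, -, hΦ, -, -⟩ := h2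
    have hw0 : w₁ * w₂ ≠ 0 := by rw [← h4]; omega
    have hx0 : x₁ * x₂ ≠ 0 := by rw [← h5]; omega
    have hw1 : 0 < w₁ := Nat.pos_of_ne_zero (left_ne_zero_of_mul hw0)
    have hw2 : 0 < w₂ := Nat.pos_of_ne_zero (right_ne_zero_of_mul hw0)
    have hx2 : 0 < x₂ := Nat.pos_of_ne_zero (right_ne_zero_of_mul hx0)
    have hk : w₂ * x₂ ≤ d := by
      calc w₂ * x₂ ≤ w₂ * w₁ := Nat.mul_le_mul_left _ h8
        _ = w := by rw [h4, mul_comm]
        _ ≤ d := hw.2
    have hkdiv : w₂ * x₂ / w₂ = x₂ := Nat.mul_div_cancel_left _ hw2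
    rw [Finset.mem_biUnion]
    refine ⟨(z, v, w₂ * x₂), ?_, ?_⟩
    · rw [Finset.mem_product, Finset.mem_product, Finset.mem_Icc, Finset.mem_Icc, Finset.mem_Icc]
      exact ⟨hz, hv, Nat.mul_pos hw2 hx2, hk⟩
    rw [Finset.mem_biUnion]
    refine ⟨w₂, ?_, ?_⟩
    · rw [Nat.mem_divisors]
      exact ⟨Dvd.intro _ rfl, (Nat.mul_pos hw2 hx2).ne'⟩
    rw [Finset.mem_biUnion]
    refine ⟨w₁, ?_, ?_⟩
    · rw [Nat.mem_divisors]
      exact ⟨h6, (Nat.mul_pos (show 0 < z from hz.1) (show 0 < v from hv.1)).ne'⟩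
    rw [Finset.mem_biUnion]
    refine ⟨x₁, ?_, ?_⟩
    · rw [Nat.mem_divisors]
      change x₁ ∣ (Phi d v z ((w₁ * w₂ : ℕ) : ℤ)).natAbs ∧ _
      rw [← h4]
      refine ⟨?_, ?_⟩
      · rw [← Int.natCast_dvd]
        exact h7
      · rw [Int.natAbs_ne_zero]
        exact hΦ.ne'
    · change t ∈ fib d S z (w₁ * w₂) v (x₁ * (w₂ * x₂ / w₂))
      rw [hkdiv, ← h4, ← h5]
      unfold fib
      rw [Finset.mem_filter]
      exact ⟨ht, h3, u, y, h1⟩
  have hcard := Finset.card_le_card hsub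
  refine le_trans hcard ?_
  have hI : (Finset.Icc 1 d ×ˢ (Finset.Icc 1 d ×ˢ Finset.Icc 1 d)).card = d ^ 3 := by
    rw [Finset.card_product, Finset.card_product, Nat.card_Icc]
    simp only [Nat.add_sub_cancel]
    ring
  calc _ ≤ (Finset.Icc 1 d ×ˢ (Finset.Icc 1 d ×ˢ Finset.Icc 1 d)).card *
        (B * (B * (B * (2 * B)))) := by
        apply Finset.card_biUnion_le_card_mul
        rintro ⟨z, v, k⟩ hq
        rw [Finset.mem_product, Finset.mem_product, Finset.mem_Icc, Finset.mem_Icc,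
          Finset.mem_Icc] at hq
        obtain ⟨hz, hv, hk⟩ := hq
        simp only at hz hv hk
        have d1 : k.divisors.card ≤ B :=
          div_le hDB (le_trans hk.2 (by simpa using pow_le (e := 1) hd (by norm_num)))
        refine le_trans ?_ (Nat.mul_le_mul_right _ d1)
        apply Finset.card_biUnion_le_card_mul
        intro w₂ hw2
        have hw2' : w₂ ≤ d := le_trans (Nat.divisor_le hw2) hk.2
        have d2 : (z * v).divisors.card ≤ B := by
          apply div_le hDB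
          calc z * v ≤ d * d := Nat.mul_le_mul hz.2 hv.2
            _ = d ^ 2 := by ring
            _ ≤ _ := pow_le hd (by norm_num)
        refine le_trans ?_ (Nat.mul_le_mul_right _ d2)
        apply Finset.card_biUnion_le_card_mul
        intro w₁ hw1
        have hw1' : w₁ ≤ d * d := le_trans (Nat.divisor_le hw1) (Nat.mul_le_mul hz.2 hv.2)
        have d3 : (Phi d v z ((w₁ * w₂ : ℕ) : ℤ)).natAbs.divisors.card ≤ B := by
          apply div_le hDB
          apply phi_le hd hz.2 hv.2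
          calc w₁ * w₂ ≤ d * d * d := Nat.mul_le_mul hw1' hw2'
            _ = d ^ 3 := by ring
        refine le_trans ?_ (Nat.mul_le_mul_right _ d3)
        apply Finset.card_biUnion_le_card_mul
        intro x₁ _
        exact hfib _ _ _ _
    _ = 2 * d ^ 3 * B ^ 4 := by rw [hI]; ring

end Pool.Agent.WSR
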