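import Pool.Agent.WSR.Stmts

set_option autoImplicit false

/-!
# CA: the number of the solutions of type A
-/

open scoped BigOperators Topology

namespace Pool.Agent.WSR

namespace CA_

/-- covering by fibres over `(r, z, k, x, α, β)` -/
theorem cover (d B : ℕ) (hB : DB d B) (S : Finset N6)
    (R : ℕ → ℕ → ℕ → ℕ → ℕ → ℕ → N6 → Prop)
    (hcov : ∀ t ∈ S, ∃ r z k x α β : ℕ, (1 ≤ r ∧ r ≤ d) ∧ (1 ≤ z ∧ z ≤ d) ∧ (1 ≤ k ∧ k ≤ d) ∧
      x ∣ k ∧ α ∣ r * z ∧ β ∣ r * z ∧ R r z k x α β t)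
    (hfib : ∀ (r z k x α β : ℕ) (S' : Finset N6), (∀ t ∈ S', t ∈ S ∧ R r z k x α β t) →
      S'.card ≤ 2 * B) : S.card ≤ 2 * d ^ 3 * B ^ 4 := by
  classical
  have hsq : ∀ r z : ℕ, 1 ≤ r → r ≤ d → 1 ≤ z → z ≤ d → r * z ≤ (2 * d) ^ 20 := by
    intro r z h1 h2 h3 h4
    calc r * z ≤ d * d := Nat.mul_le_mul h2 h4
      _ ≤ (2 * d) ^ 2 := by nlinarith
      _ ≤ (2 * d) ^ 20 := Nat.pow_le_pow_right (by omega) (by norm_num)
  have hself : ∀ k : ℕ, 1 ≤ k → k ≤ d → k ≤ (2 * d) ^ 20 := by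
    intro k h1 h2
    calc k ≤ (2 * d) ^ 1 := by rw [pow_one]; omega
      _ ≤ (2 * d) ^ 20 := Nat.pow_le_pow_right (by omega) (by norm_num)
  -- the covering
  have hsub : S ⊆ (Finset.Icc 1 d).biUnion fun r => (Finset.Icc 1 d).biUnion fun z =>
      (Finset.Icc 1 d).biUnion fun k => (k.divisors).biUnion fun x =>
        ((r * z).divisors).biUnion fun α => ((r * z).divisors).biUnion fun β =>
          S.filter (R r z k x α β) := by
    intro t ht
    obtain ⟨r, z, k, x, α, β, hr, hz, hk, hx, hα, hβ, hR⟩ := hcov t ht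
    have hrz : r * z ≠ 0 := by
      have : 0 < r * z := Nat.mul_pos (by omega) (by omega)
      omega
    simp only [Finset.mem_biUnion, Finset.mem_Icc, Nat.mem_divisors, Finset.mem_filter]
    exact ⟨r, hr, z, hz, k, hk, x, ⟨hx, by omega⟩, α, ⟨hα, hrz⟩, β, ⟨hβ, hrz⟩, ht, hR⟩
  refine (Finset.card_le_card hsub).trans ?_
  have h1 : ∀ r ∈ Finset.Icc 1 d, ((Finset.Icc 1 d).biUnion fun z =>
      (Finset.Icc 1 d).biUnion fun k => (k.divisors).biUnion fun x =>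
        ((r * z).divisors).biUnion fun α => ((r * z).divisors).biUnion fun β =>
          S.filter (R r z k x α β)).card ≤ d * (d * (B * (B * (B * (2 * B))))) := by
    intro r hr
    rw [Finset.mem_Icc] at hr
    have h2 : ∀ z ∈ Finset.Icc 1 d, ((Finset.Icc 1 d).biUnion fun k =>
        (k.divisors).biUnion fun x => ((r * z).divisors).biUnion fun α =>
          ((r * z).divisors).biUnion fun β => S.filter (R r z k x α β)).card ≤
            d * (B * (B * (B * (2 * B)))) := by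
      intro z hz
      rw [Finset.mem_Icc] at hz
      have hrz : (r * z).divisors.card ≤ B :=
        hB _ (Nat.mul_pos (by omega) (by omega)) (hsq r z hr.1 hr.2 hz.1 hz.2)
      have h3 : ∀ k ∈ Finset.Icc 1 d, ((k.divisors).biUnion fun x =>
          ((r * z).divisors).biUnion fun α => ((r * z).divisors).biUnion fun β =>
            S.filter (R r z k x α β)).card ≤ B * (B * (B * (2 * B))) := by
        intro k hk
        rw [Finset.mem_Icc] at hk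
        have hkd : k.divisors.card ≤ B := hB _ (by omega) (hself k hk.1 hk.2)
        refine (Finset.card_biUnion_le_card_mul _ _ (B * (B * (2 * B))) fun x _ => ?_).trans
          (Nat.mul_le_mul_right _ hkd)
        refine (Finset.card_biUnion_le_card_mul _ _ (B * (2 * B)) fun α _ => ?_).trans
          (Nat.mul_le_mul_right _ hrz)
        refine (Finset.card_biUnion_le_card_mul _ _ (2 * B) fun β _ => ?_).trans
          (Nat.mul_le_mul_right _ hrz)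
        exact hfib r z k x α β _ fun t ht => Finset.mem_filter.1 ht
      refine (Finset.card_biUnion_le_card_mul _ _ _ h3).trans (le_of_eq ?_)
      rw [Nat.card_Icc, Nat.add_sub_cancel]
    refine (Finset.card_biUnion_le_card_mul _ _ _ h2).trans (le_of_eq ?_)
    rw [Nat.card_Icc, Nat.add_sub_cancel]
  refine (Finset.card_biUnion_le_card_mul _ _ _ h1).trans (le_of_eq ?_)
  rw [Nat.card_Icc, Nat.add_sub_cancel]
  ring

end CA_

open CA_

theorem ca_proof (h1 : Stmt_AH1) (h2 : Stmt_AH2) (h3 : Stmt_AFC) : Stmt_CA := by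
  intro d B hd hB S hS
  classical
  -- the four relations
  let R1 : ℕ → ℕ → ℕ → ℕ → ℕ → ℕ → N6 → Prop := fun r z k x α β t =>
    ∃ u₁ u₃, t = (u₁, z + α * x + r, u₁ + β * (k / x), z + α * x, u₃, z)
  let R2 : ℕ → ℕ → ℕ → ℕ → ℕ → ℕ → N6 → Prop := fun r z k x α β t =>
    ∃ u₁ u₂, t = (u₁, z + α * x + r, u₂, z + α * x, β * (k / x), z)
  let R3 : ℕ → ℕ → ℕ → ℕ → ℕ → ℕ → N6 → Prop := fun r z k x α β t =>
    ∃ u₁ u₃, t = (u₁, α * x, u₁ + β * (k / x), α * x - r, u₃, z)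
  let R4 : ℕ → ℕ → ℕ → ℕ → ℕ → ℕ → N6 → Prop := fun r z k x α β t =>
    ∃ u₁ u₂, t = (u₁, α * x, u₂, α * x - r, β * (k / x), z)
  let H : (ℕ → ℕ → ℕ → ℕ → ℕ → ℕ → N6 → Prop) → N6 → Prop := fun R t =>
    ∃ r z k x α β : ℕ, (1 ≤ r ∧ r ≤ d) ∧ (1 ≤ z ∧ z ≤ d) ∧ (1 ≤ k ∧ k ≤ d) ∧
      x ∣ k ∧ α ∣ r * z ∧ β ∣ r * z ∧ R r z k x α β t
  have key : ∀ t ∈ S, H R1 t ∨ H R2 t ∨ H R3 t ∨ H R4 t := by
    rintro ⟨u₁, z₁, u₂, z₂, u₃, z₃⟩ ht
    have hP := hS _ ht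
    obtain ⟨π, σ, ζ, υ, l₁, k₁, l₂, k₂, hπ, hσ, hζ, hυ, e1, e2, e3, e4, hc⟩ := h3 d _ _ _ _ _ _ hP
    obtain ⟨⟨⟨a1, a1'⟩, ⟨a2, a2'⟩, ⟨a3, a3'⟩, ⟨a4, a4'⟩, ⟨a5, a5'⟩, ⟨a6, a6'⟩⟩, b1, b2, b3, b4, _⟩ := hP
    have hl2 : 0 < l₂ := Nat.pos_of_ne_zero fun h => by
      rw [h, mul_zero] at e1
      omega
    have hl1 : 0 < l₁ := Nat.pos_of_ne_zero fun h => by
      rw [h, mul_zero] at e2
      omega
    have hk1 : 0 < k₁ := Nat.pos_of_ne_zero fun h => by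
      rw [h, mul_zero] at e3
      omega
    have hk2 : 0 < k₂ := Nat.pos_of_ne_zero fun h => by
      rw [h, mul_zero] at e4
      omega
    have hr : 1 ≤ z₁ - z₂ ∧ z₁ - z₂ ≤ d := ⟨by omega, by omega⟩
    rcases hc with hc | hc | hc | hc
    · left
      refine ⟨z₁ - z₂, z₃, l₁ * l₂, l₁, σ, π, hr, ⟨a6, a6'⟩, ⟨Nat.mul_pos hl1 hl2, hc⟩,
        Dvd.intro _ rfl, hσ, hπ, u₁, u₃, ?_⟩
      rw [Nat.mul_div_cancel_left _ hl1, ← e1, ← e2]
      refine Prod.ext rfl (Prod.ext ?_ (Prod.ext ?_ (Prod.ext ?_ rfl)))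
      · simp only; omega
      · simp only; omega
      · simp only; omega
    · right; left
      refine ⟨z₁ - z₂, z₃, l₁ * k₂, l₁, σ, υ, hr, ⟨a6, a6'⟩, ⟨Nat.mul_pos hl1 hk2, hc⟩,
        Dvd.intro _ rfl, hσ, hυ, u₁, u₂, ?_⟩
      rw [Nat.mul_div_cancel_left _ hl1, ← e4, ← e2]
      refine Prod.ext rfl (Prod.ext ?_ (Prod.ext rfl (Prod.ext ?_ rfl)))
      · simp only; omega
      · simp only; omega
    · right; right; left
      refine ⟨z₁ - z₂, z₃, k₁ * l₂, k₁, ζ, π, hr, ⟨a6, a6'⟩, ⟨Nat.mul_pos hk1 hl2, hc⟩,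
        Dvd.intro _ rfl, hζ, hπ, u₁, u₃, ?_⟩
      rw [Nat.mul_div_cancel_left _ hk1, ← e1, ← e3]
      refine Prod.ext rfl (Prod.ext rfl (Prod.ext ?_ (Prod.ext ?_ rfl)))
      · simp only; omega
      · simp only; omega
    · right; right; right
      refine ⟨z₁ - z₂, z₃, k₁ * k₂, k₁, ζ, υ, hr, ⟨a6, a6'⟩, ⟨Nat.mul_pos hk1 hk2, hc⟩,
        Dvd.intro _ rfl, hζ, hυ, u₁, u₂, ?_⟩
      rw [Nat.mul_div_cancel_left _ hk1, ← e4, ← e3]
      refine Prod.ext rfl (Prod.ext rfl (Prod.ext rfl (Prod.ext ?_ rfl)))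
      · simp only; omega
  have hsub : S ⊆ S.filter (H R1) ∪ (S.filter (H R2) ∪ (S.filter (H R3) ∪ S.filter (H R4))) := by
    intro t ht
    simp only [Finset.mem_union, Finset.mem_filter]
    rcases key t ht with h | h | h | h
    · exact Or.inl ⟨ht, h⟩
    · exact Or.inr (Or.inl ⟨ht, h⟩)
    · exact Or.inr (Or.inr (Or.inl ⟨ht, h⟩))
    · exact Or.inr (Or.inr (Or.inr ⟨ht, h⟩))
  have c1 : (S.filter (H R1)).card ≤ 2 * d ^ 3 * B ^ 4 := by
    refine cover d B hB _ R1 (fun t ht => (Finset.mem_filter.1 ht).2) ?_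
    intro r z k x α β S' hS'
    refine h2 d B hB (z + α * x + r) (z + α * x) z (β * (k / x)) S' fun t ht => ?_
    obtain ⟨k1, u₁, u₃, k2⟩ := hS' t ht
    exact ⟨hS t (Finset.mem_filter.1 k1).1, u₁, u₃, k2⟩
  have c2 : (S.filter (H R2)).card ≤ 2 * d ^ 3 * B ^ 4 := by
    refine cover d B hB _ R2 (fun t ht => (Finset.mem_filter.1 ht).2) ?_
    intro r z k x α β S' hS'
    refine h1 d B hB (z + α * x + r) (z + α * x) z (β * (k / x)) S' fun t ht => ?_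
    obtain ⟨k1, u₁, u₃, k2⟩ := hS' t ht
    exact ⟨hS t (Finset.mem_filter.1 k1).1, u₁, u₃, k2⟩
  have c3 : (S.filter (H R3)).card ≤ 2 * d ^ 3 * B ^ 4 := by
    refine cover d B hB _ R3 (fun t ht => (Finset.mem_filter.1 ht).2) ?_
    intro r z k x α β S' hS'
    refine h2 d B hB (α * x) (α * x - r) z (β * (k / x)) S' fun t ht => ?_
    obtain ⟨k1, u₁, u₃, k2⟩ := hS' t ht
    exact ⟨hS t (Finset.mem_filter.1 k1).1, u₁, u₃, k2⟩
  have c4 : (S.filter (H R4)).card ≤ 2 * d ^ 3 * B ^ 4 := by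
    refine cover d B hB _ R4 (fun t ht => (Finset.mem_filter.1 ht).2) ?_
    intro r z k x α β S' hS'
    refine h1 d B hB (α * x) (α * x - r) z (β * (k / x)) S' fun t ht => ?_
    obtain ⟨k1, u₁, u₃, k2⟩ := hS' t ht
    exact ⟨hS t (Finset.mem_filter.1 k1).1, u₁, u₃, k2⟩
  have e1 := Finset.card_le_card hsub
  have e2 := Finset.card_union_le (S.filter (H R1))
    (S.filter (H R2) ∪ (S.filter (H R3) ∪ S.filter (H R4)))
  have e3 := Finset.card_union_le (S.filter (H R2)) (S.filter (H R3) ∪ S.filter (H R4))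
  have e4 := Finset.card_union_le (S.filter (H R3)) (S.filter (H R4))
  have e5 : 8 * d ^ 3 * B ^ 4 = 2 * d ^ 3 * B ^ 4 + (2 * d ^ 3 * B ^ 4 + (2 * d ^ 3 * B ^ 4 +
    2 * d ^ 3 * B ^ 4)) := by ring
  omega

end Pool.Agent.WSR
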