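import Pool.Agent.WSR.Stmts

set_option autoImplicit false

namespace Pool.Agent.WSR

theorem cb_proof (hBD : Stmt_BD) (hBFC : Stmt_BFC) (hB1 : Stmt_B1) (hB2 : Stmt_B2) : Stmt_CB := by
  classical
  intro d B hd hB hDB S hS
  let P0 : N6 → Prop := fun t => ∃ u₁ z₁ u₂ z₂ w v : ℕ, t = (u₁, z₁, u₂, z₂, w, v) ∧ PB d t ∧
    Phi d v z₂ w = u₁ * w
  let P1 : N6 → Prop := fun t => ∃ u₁ z₁ u₂ z₂ w v n a g f : ℕ, t = (u₁, z₁, u₂, z₂, w, v) ∧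
    PB d t ∧ Phi d v z₂ w ≠ u₁ * w ∧
    u₁ = a * n ∧ w = f * g ∧ (n : ℤ) ∣ Phi d v z₂ w ∧ g ∣ z₂ * v ∧ a ≤ g
  let P2 : N6 → Prop := fun t => ∃ u₁ z₁ u₂ z₂ w v n a g f : ℕ, t = (u₁, z₁, u₂, z₂, w, v) ∧
    PB d t ∧ u₁ = a * n ∧ w = f * g ∧ a ∣ z₁ * (u₂ - u₁) ∧ f ∣ z₁ * (u₂ - u₁) ∧ g ≤ a
  have h0 : (S.filter P0).card ≤ d ^ 3 * B :=
    hBD d B hd hDB _ fun t ht => (Finset.mem_filter.1 ht).2
  have h1 : (S.filter P1).card ≤ 2 * d ^ 3 * B ^ 4 :=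
    hB1 d B hd hDB _ fun t ht => (Finset.mem_filter.1 ht).2
  have h2 : (S.filter P2).card ≤ 2 * d ^ 3 * B ^ 4 :=
    hB2 d B hd hDB _ fun t ht => (Finset.mem_filter.1 ht).2
  have hsub : S ⊆ (S.filter P0 ∪ S.filter P1) ∪ S.filter P2 := by
    intro t ht
    obtain ⟨u₁, z₁, u₂, z₂, w, v⟩ := t
    have hPB := hS _ ht
    simp only [Finset.mem_union, Finset.mem_filter]
    by_cases hdeg : Phi d v z₂ w = u₁ * w
    · exact Or.inl (Or.inl ⟨ht, u₁, z₁, u₂, z₂, w, v, rfl, hPB, hdeg⟩)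
    · obtain ⟨n, a, g, f, e1, e2, e3, e4, e5, e6⟩ := hBFC _ _ _ _ _ _ _ hPB
      rcases le_total a g with hag | hag
      · exact Or.inl (Or.inr ⟨ht, u₁, z₁, u₂, z₂, w, v, n, a, g, f, rfl, hPB, hdeg, e1, e2, e3, e4,
          hag⟩)
      · exact Or.inr ⟨ht, u₁, z₁, u₂, z₂, w, v, n, a, g, f, rfl, hPB, e1, e2, e5, e6, hag⟩
  have h3 : B ≤ B ^ 4 := Nat.le_self_pow (by norm_num) B
  have h4 : d ^ 3 * B ≤ d ^ 3 * B ^ 4 := Nat.mul_le_mul_left _ h3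
  calc S.card ≤ _ := Finset.card_le_card hsub
    _ ≤ _ := Finset.card_union_le _ _
    _ ≤ ((S.filter P0).card + (S.filter P1).card) + (S.filter P2).card :=
        Nat.add_le_add_right (Finset.card_union_le _ _) _
    _ ≤ (d ^ 3 * B ^ 4 + 2 * d ^ 3 * B ^ 4) + 2 * d ^ 3 * B ^ 4 := by omega
    _ = 5 * d ^ 3 * B ^ 4 := by ring

end Pool.Agent.WSR
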