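import Pool.Agent.WSR.Stmts

set_option autoImplicit false

/-! # WSR, module CC: the number of the solutions of type C -/

open scoped BigOperators Topology

namespace Pool.Agent.WSR

noncomputable section

namespace CC_

/-- The regular case. -/
def P1 (d : ℕ) (t : N6) : Prop :=
  ∃ u z w v y x w₁ w₂ x₁ x₂ : ℕ, t = (u, z, w, v, y, x) ∧ PC d t ∧
    Phi d v z w ≠ w * x ∧ w = w₁ * w₂ ∧ x = x₁ * x₂ ∧ w₁ ∣ z * v ∧ (x₁ : ℤ) ∣ Phi d v z w ∧
    x₂ ≤ w₁

/-- The degenerate case. -/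
def P2 (d : ℕ) (t : N6) : Prop :=
  ∃ u z w v y x : ℕ, t = (u, z, w, v, y, x) ∧ PC d t ∧ Phi d v z w = w * x

/-- The reflection. -/
def rf : N6 → N6
  | (u, z, w, v, y, x) => (z, u, x, y, v, w)

theorem rf_inj : Function.Injective rf := by
  rintro ⟨u, z, w, v, y, x⟩ ⟨u', z', w', v', y', x'⟩ h
  simp only [rf, Prod.mk.injEq] at h ⊢
  tauto

theorem rf_PC {d : ℕ} {t : N6} (h : PC d t) : PC d (rf t) := by
  obtain ⟨u, z, w, v, y, x⟩ := t
  obtain ⟨⟨hu, hz, hw, hv, hy, hx⟩, h1, h2, h3, h4, h5, h6⟩ := h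
  refine ⟨⟨hz, hu, hx, hy, hv, hw⟩, by omega, by omega, by omega, ?_, ?_, ?_⟩
  · unfold Phi at h5 ⊢
    linarith
  · unfold Phi at h4 ⊢
    linarith
  · unfold Phi at h6 ⊢
    linear_combination h6

theorem cover (hF : Stmt_CFC) {d : ℕ} {t : N6} (h : PC d t) :
    P1 d t ∨ P2 d t ∨ P1 d (rf t) ∨ P2 d (rf t) := by
  have h' := rf_PC h
  obtain ⟨u, z, w, v, y, x⟩ := t
  obtain ⟨w₁, w₂, x₁, x₂, e1, e2, e3, e4, e5, e6⟩ := hF d u z w v y x h
  rcases le_total x₂ w₁ with hle | hle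
  · by_cases hP : Phi d v z w = w * x
    · exact Or.inr (Or.inl ⟨u, z, w, v, y, x, rfl, h, hP⟩)
    · exact Or.inl ⟨u, z, w, v, y, x, w₁, w₂, x₁, x₂, rfl, h, hP, e1, e2, e3, e5, hle⟩
  · by_cases hP : Phi d y u x = x * w
    · exact Or.inr (Or.inr (Or.inr ⟨z, u, x, y, v, w, rfl, h', hP⟩))
    · refine Or.inr (Or.inr (Or.inl ⟨z, u, x, y, v, w, x₂, x₁, w₂, w₁, rfl, h', hP, ?_, ?_, e4,
        ?_, hle⟩))
      · rw [e2, mul_comm]
      · rw [e1, mul_comm]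
      · have : Phi d y u x = Phi d u y x := by
          unfold Phi
          ring
        rw [this]
        exact e6

end CC_

open CC_ in
theorem cc_proof (h1 : Stmt_CD) (h2 : Stmt_CFC) (h3 : Stmt_C1) : Stmt_CC := by
  classical
  intro d B hd hB hDB S hS
  have hA : ∀ T : Finset N6, (∀ t ∈ T, P1 d t) → T.card ≤ 2 * d ^ 3 * B ^ 4 :=
    fun T hT => h3 d B hd hDB T hT
  have hC : ∀ T : Finset N6, (∀ t ∈ T, P2 d t) → T.card ≤ 2 * d ^ 3 * B :=
    fun T hT => h1 d B hd hDB T hT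
  have hsub : S ⊆ ((S.filter (P1 d) ∪ S.filter (P2 d)) ∪
      (S.filter (fun t => P1 d (rf t)) ∪ S.filter (fun t => P2 d (rf t)))) := by
    intro t ht
    simp only [Finset.mem_union, Finset.mem_filter]
    rcases cover h2 (hS t ht) with h | h | h | h
    · exact Or.inl (Or.inl ⟨ht, h⟩)
    · exact Or.inl (Or.inr ⟨ht, h⟩)
    · exact Or.inr (Or.inl ⟨ht, h⟩)
    · exact Or.inr (Or.inr ⟨ht, h⟩)
  have c1 : (S.filter (P1 d)).card ≤ 2 * d ^ 3 * B ^ 4 :=
    hA _ fun t ht => (Finset.mem_filter.1 ht).2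
  have c2 : (S.filter (P2 d)).card ≤ 2 * d ^ 3 * B :=
    hC _ fun t ht => (Finset.mem_filter.1 ht).2
  have c3 : (S.filter (fun t => P1 d (rf t))).card ≤ 2 * d ^ 3 * B ^ 4 := by
    rw [← Finset.card_image_of_injective _ rf_inj]
    refine hA _ fun t ht => ?_
    obtain ⟨s, hs, rfl⟩ := Finset.mem_image.1 ht
    exact (Finset.mem_filter.1 hs).2
  have c4 : (S.filter (fun t => P2 d (rf t))).card ≤ 2 * d ^ 3 * B := by
    rw [← Finset.card_image_of_injective _ rf_inj]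
    refine hC _ fun t ht => ?_
    obtain ⟨s, hs, rfl⟩ := Finset.mem_image.1 ht
    exact (Finset.mem_filter.1 hs).2
  have hBB : 2 * d ^ 3 * B ≤ 2 * d ^ 3 * B ^ 4 := by
    refine Nat.mul_le_mul le_rfl ?_
    calc B = B ^ 1 := (pow_one B).symm
      _ ≤ B ^ 4 := Nat.pow_le_pow_right (by omega) (by norm_num)
  have h8 : 8 * d ^ 3 * B ^ 4 = 4 * (2 * d ^ 3 * B ^ 4) := by ring
  have u1 := Finset.card_le_card hsub
  have u2 := Finset.card_union_le (S.filter (P1 d) ∪ S.filter (P2 d))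
    (S.filter (fun t => P1 d (rf t)) ∪ S.filter (fun t => P2 d (rf t)))
  have u3 := Finset.card_union_le (S.filter (P1 d)) (S.filter (P2 d))
  have u4 := Finset.card_union_le (S.filter (fun t => P1 d (rf t)))
    (S.filter (fun t => P2 d (rf t)))
  rw [h8]
  omega

end

end Pool.Agent.WSR
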