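import Pool.Agent.WSR.Stmts

set_option autoImplicit false

/-! # WSR, module CD: type C, degenerate case -/

open scoped BigOperators Topology

namespace Pool.Agent.WSR

noncomputable section

namespace CD_

theorem facts {d u z w v y x : ℕ} (h : PC d (u, z, w, v, y, x))
    (hP : Phi d v z w = w * x) :
    (1 ≤ u ∧ u ≤ d) ∧ (1 ≤ z ∧ z ≤ d) ∧ (1 ≤ w ∧ w ≤ d) ∧ (1 ≤ v ∧ v ≤ d) ∧ (1 ≤ x) ∧
      (z : ℤ) * ((v : ℤ) - w) = w * ((x : ℤ) + v - d) ∧
      ((u : ℤ) + v - d) * ((z : ℤ) + y - d) = (u : ℤ) * y + x * ((d : ℤ) - u - y) ∧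
      (v : ℤ) ≠ w := by
  obtain ⟨⟨hu, hz, hw, hv, hy, hx⟩, h1, h2, h3, h4, h5, h6⟩ := h
  have e1 : (z : ℤ) * ((v : ℤ) - w) = w * ((x : ℤ) + v - d) := by
    unfold Phi at hP
    linear_combination hP
  refine ⟨hu, hz, hw, hv, hx.1, e1, ?_, ?_⟩
  · rw [hP] at h6
    have hwx : ((w : ℤ) * x) ≠ 0 := by
      have : 0 < w * x := Nat.mul_pos hw.1 hx.1
      exact_mod_cast this.ne'
    have e2 : ((w : ℤ) * x) * (((u : ℤ) + v - d) * ((z : ℤ) + y - d)) =
        ((w : ℤ) * x) * Phi d u y x := by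
      linear_combination h6
    have e3 := mul_left_cancel₀ hwx e2
    unfold Phi at e3
    exact e3
  · intro hvw
    rw [hvw, sub_self, mul_zero] at e1
    have hw0 : (w : ℤ) ≠ 0 := by
      have := hw.1
      omega
    have e4 : (x : ℤ) + w - d = 0 := by
      rcases mul_eq_zero.1 e1.symm with h | h
      · exact absurd h hw0
      · exact h
    omega

theorem inj {d u z w v y x v' y' x' : ℕ} (h : PC d (u, z, w, v, y, x))
    (hP : Phi d v z w = w * x) (h' : PC d (u, z, w, v', y', x'))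
    (hP' : Phi d v' z w = w * x') (hvv : v = v') : x = x' ∧ y = y' := by
  subst hvv
  obtain ⟨hu, hz, hw, hv, hx, e1, e2, hne⟩ := facts h hP
  obtain ⟨-, -, -, -, -, e1', e2', -⟩ := facts h' hP'
  have hw0 : (w : ℤ) ≠ 0 := by
    have := hw.1
    omega
  have hz0 : (z : ℤ) ≠ 0 := by
    have := hz.1
    omega
  have hx' : (x : ℤ) = x' := by
    have e3 : (w : ℤ) * ((x : ℤ) + v - d) = w * ((x' : ℤ) + v - d) := e1.symm.trans e1'
    have e4 := mul_left_cancel₀ hw0 e3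
    linarith
  have hxn : x = x' := by exact_mod_cast hx'
  subst hxn
  refine ⟨rfl, ?_⟩
  have hc : (x : ℤ) + v - d ≠ 0 := by
    intro h0
    rw [h0, mul_zero] at e1
    rcases mul_eq_zero.1 e1 with h | h
    · exact hz0 h
    · exact hne (by linarith)
  have e5 : ((x : ℤ) + v - d) * y = ((x : ℤ) + v - d) * y' := by
    linear_combination e2 - e2'
  have e6 := mul_left_cancel₀ hc e5
  exact_mod_cast e6

end CD_

open CD_ in
theorem cd_proof : Stmt_CD := by
  classical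
  intro d B hd hDB S hS
  let f : N6 → ℕ × ℕ × ℕ × Bool := fun t =>
    (t.2.1, t.1, ((t.2.2.2.1 : ℤ) - t.2.2.1).natAbs, decide (t.2.2.1 < t.2.2.2.1))
  have him : (S.image f).card ≤ d * (d * (d * 2)) := by
    have hsub : S.image f ⊆ Finset.Icc 1 d ×ˢ (Finset.Icc 1 d ×ˢ
        (Finset.Icc 1 d ×ˢ (Finset.univ : Finset Bool))) := by
      intro a ha
      obtain ⟨t, ht, rfl⟩ := Finset.mem_image.1 ha
      obtain ⟨u, z, w, v, y, x, rfl, hPC, hP⟩ := hS t ht
      obtain ⟨hu, hz, hw, hv, hx, e1, e2, hne⟩ := facts hPC hP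
      simp only [f, Finset.mem_product, Finset.mem_Icc, Finset.mem_univ, and_true]
      refine ⟨hz, hu, ?_, ?_⟩
      · omega
      · omega
    refine (Finset.card_le_card hsub).trans (le_of_eq ?_)
    simp only [Finset.card_product, Nat.card_Icc, Finset.card_univ, Fintype.card_bool,
      Nat.add_sub_cancel]
  have hfib : ∀ a ∈ S.image f, (S.filter fun t => f t = a).card ≤ B := by
    intro a ha
    obtain ⟨t, ht, rfl⟩ := Finset.mem_image.1 ha
    obtain ⟨u, z, w, v, y, x, rfl, hPC, hP⟩ := hS t ht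
    obtain ⟨hu, hz, hw, hv, hx, e1, e2, hne⟩ := facts hPC hP
    have hk : 0 < ((v : ℤ) - w).natAbs := by omega
    have hkd : ((v : ℤ) - w).natAbs ≤ d := by omega
    have hpos : 0 < z * ((v : ℤ) - w).natAbs := Nat.mul_pos hz.1 hk
    have hle : z * ((v : ℤ) - w).natAbs ≤ (2 * d) ^ 20 := by
      calc z * ((v : ℤ) - w).natAbs ≤ d * d := Nat.mul_le_mul hz.2 hkd
        _ ≤ (2 * d) * (2 * d) := Nat.mul_le_mul (by omega) (by omega)
        _ = (2 * d) ^ 2 := (sq _).symm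
        _ ≤ (2 * d) ^ 20 := Nat.pow_le_pow_right (by omega) (by norm_num)
    refine le_trans ?_ (hDB _ hpos hle)
    refine Finset.card_le_card_of_injOn (fun t : N6 => t.2.2.1) ?_ ?_
    · intro t' ht'
      rw [Finset.mem_coe, Finset.mem_filter] at ht'
      obtain ⟨ht'S, hf⟩ := ht'
      obtain ⟨u', z', w', v', y', x', rfl, hPC', hP'⟩ := hS t' ht'S
      obtain ⟨hu', hz', hw', hv', hx', e1', e2', hne'⟩ := facts hPC' hP'
      simp only [f, Prod.mk.injEq] at hf
      obtain ⟨f1, f2, f3, f4⟩ := hf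
      rw [Finset.mem_coe, Nat.mem_divisors]
      refine ⟨?_, hpos.ne'⟩
      have hdvd : (w' : ℤ) ∣ (z' : ℤ) * ((v' : ℤ) - w') := ⟨_, e1'⟩
      have h2 := Int.natAbs_dvd_natAbs.2 hdvd
      rw [Int.natAbs_mul, Int.natAbs_natCast, Int.natAbs_natCast, f1, f3] at h2
      exact h2
    · intro t₁ ht₁ t₂ ht₂ hw12
      rw [Finset.mem_coe, Finset.mem_filter] at ht₁ ht₂
      obtain ⟨h1S, hf1⟩ := ht₁
      obtain ⟨h2S, hf2⟩ := ht₂
      obtain ⟨u₁, z₁, w₁, v₁, y₁, x₁, rfl, hPC1, hP1⟩ := hS t₁ h1S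
      obtain ⟨u₂, z₂, w₂, v₂, y₂, x₂, rfl, hPC2, hP2⟩ := hS t₂ h2S
      have hff := hf1.trans hf2.symm
      simp only [f, Prod.mk.injEq, decide_eq_decide] at hff
      obtain ⟨f1, f2, f3, f4⟩ := hff
      simp only at hw12
      subst hw12
      subst f1
      subst f2
      have hvv : v₁ = v₂ := by omega
      obtain ⟨g1, g2⟩ := inj hPC1 hP1 hPC2 hP2 hvv
      rw [hvv, g1, g2]
  have := Finset.card_le_mul_card_image S B hfib
  calc S.card ≤ B * (S.image f).card := this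
    _ ≤ B * (d * (d * (d * 2))) := Nat.mul_le_mul le_rfl him
    _ = 2 * d ^ 3 * B := by ring

end

end Pool.Agent.WSR
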