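import Pool.Agent.WSR.Stmts

set_option autoImplicit false

/-!
# WSR module CFC: the factorisation for type C
-/

namespace Pool.Agent.WSR

theorem cfc_proof (h1 : Stmt_FAC) : Stmt_CFC := by
  intro d u z w v y x h
  obtain ⟨hin, k1, k2, k3, k4, k5, k6⟩ := h
  obtain ⟨N, hN⟩ : ∃ N : ℕ, Phi d v z w = N :=
    ⟨(Phi d v z w).toNat, (Int.toNat_of_nonneg k4.le).symm⟩
  obtain ⟨M, hM⟩ : ∃ M : ℕ, Phi d u y x = M :=
    ⟨(Phi d u y x).toNat, (Int.toNat_of_nonneg k5.le).symm⟩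
  rw [hN] at k4 k6
  rw [hM] at k5 k6
  have hN0 : 0 < N := by exact_mod_cast k4
  obtain ⟨P, hP⟩ : ∃ P : ℕ, u + v = d + P := ⟨u + v - d, by omega⟩
  obtain ⟨Q, hQ⟩ : ∃ Q : ℕ, z + y = d + Q := ⟨z + y - d, by omega⟩
  have hPz : (u : ℤ) + v - d = P := by
    have : ((u : ℤ) + v) = d + P := by exact_mod_cast hP
    linarith
  have hQz : (z : ℤ) + y - d = Q := by
    have : ((z : ℤ) + y) = d + Q := by exact_mod_cast hQ
    linarith
  have e : w * x * P * Q = N * M := by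
    have ez : (w : ℤ) * x * P * Q = N * M := by
      rw [← k6, hPz, hQz]
    exact_mod_cast ez
  obtain ⟨w₁, x₁, p₁, q₁, ⟨w₂, hw⟩, ⟨x₂, hx⟩, ⟨p₂, hp⟩, ⟨q₂, hq⟩, hprod⟩ :=
    h1 N w x P Q hN0 ⟨M, e⟩
  have key : M = w₂ * x₂ * p₂ * q₂ := by
    have h2 : N * M = N * (w₂ * x₂ * p₂ * q₂) := by
      calc N * M = w * x * P * Q := e.symm
        _ = (w₁ * w₂) * (x₁ * x₂) * (p₁ * p₂) * (q₁ * q₂) := by rw [← hw, ← hx, ← hp, ← hq]
        _ = (w₁ * x₁ * p₁ * q₁) * (w₂ * x₂ * p₂ * q₂) := by ring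
        _ = N * (w₂ * x₂ * p₂ * q₂) := by rw [← hprod]
    exact Nat.eq_of_mul_eq_mul_left hN0 h2
  refine ⟨w₁, w₂, x₁, x₂, hw, hx, ?_, ?_, ?_, ?_⟩
  · have h2 : ((z * v : ℕ) : ℤ) = N - w * (d - v - z) := by
      rw [← hN]
      unfold Phi
      push_cast
      ring
    have h3 : (w₁ : ℤ) ∣ ((z * v : ℕ) : ℤ) := by
      rw [h2]
      refine dvd_sub (Int.natCast_dvd_natCast.2 ⟨x₁ * p₁ * q₁, by rw [hprod]; ring⟩) ?_
      exact (Int.natCast_dvd_natCast.2 ⟨w₂, hw⟩).mul_right _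
    exact Int.natCast_dvd_natCast.1 h3
  · have h2 : ((u * y : ℕ) : ℤ) = M - x * (d - u - y) := by
      rw [← hM]
      unfold Phi
      push_cast
      ring
    have h3 : (x₂ : ℤ) ∣ ((u * y : ℕ) : ℤ) := by
      rw [h2]
      refine dvd_sub (Int.natCast_dvd_natCast.2 ⟨w₂ * p₂ * q₂, by rw [key]; ring⟩) ?_
      exact (Int.natCast_dvd_natCast.2 ⟨x₁, by rw [hx]; ring⟩).mul_right _
    exact Int.natCast_dvd_natCast.1 h3
  · rw [hN]
    exact Int.natCast_dvd_natCast.2 ⟨w₁ * p₁ * q₁, by rw [hprod]; ring⟩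
  · rw [hM]
    exact Int.natCast_dvd_natCast.2 ⟨x₂ * p₂ * q₂, by rw [key]; ring⟩

end Pool.Agent.WSR
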