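import Pool.Agent.WSR.Stmts

set_option autoImplicit false

namespace Pool.Agent.WSR

namespace CH_

theorem prod_le (a b c e P d : ℤ) (_ : 0 ≤ a) (ha' : a ≤ d) (hb : 0 ≤ b) (hb' : b ≤ d)
    (hc : 0 ≤ c) (hc' : c ≤ d) (he : 0 ≤ e) (he' : e ≤ d) (hP : 0 ≤ P) (hP' : P ≤ 2 * d ^ 2)
    (hd : 1 ≤ d) : a * b * c * e * P ≤ (2 * d) ^ 20 := by
  have hd0 : 0 ≤ d := by linarith
  have h1 : a * b ≤ d * d := mul_le_mul ha' hb' hb hd0
  have h2 : a * b * c ≤ d * d * d := mul_le_mul h1 hc' hc (by positivity)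
  have h3 : a * b * c * e ≤ d * d * d * d := mul_le_mul h2 he' he (by positivity)
  have h4 : a * b * c * e * P ≤ d * d * d * d * (2 * d ^ 2) := mul_le_mul h3 hP' hP (by positivity)
  refine h4.trans ?_
  have h5 : d ^ 6 ≤ d ^ 20 := pow_le_pow_right₀ hd (by norm_num)
  have h6 : (0 : ℤ) ≤ d ^ 20 := by positivity
  calc d * d * d * d * (2 * d ^ 2) = 2 * d ^ 6 := by ring
    _ ≤ 2 ^ 20 * d ^ 20 := by nlinarith
    _ = (2 * d) ^ 20 := by ring

end CH_

theorem ch_proof (h1 : Stmt_HYP) : Stmt_CH := by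
  intro d B hB z w v x S hne hS
  rcases S.eq_empty_or_nonempty with rfl | ⟨t₀, ht₀⟩
  · simp
  have hinj : Set.InjOn (fun t : N6 => ((t.1 : ℤ), (t.2.2.2.2.1 : ℤ))) S := by
    intro t ht t' ht' h
    obtain ⟨-, u, y, rfl⟩ := hS t ht
    obtain ⟨-, u', y', rfl⟩ := hS t' ht'
    simp only [Prod.mk.injEq, Nat.cast_inj] at h
    rw [h.1, h.2]
  rw [← Finset.card_image_of_injOn hinj]
  obtain ⟨⟨hin, k1, k2, k3, k4, k5, k6⟩, u₀, y₀, rfl⟩ := hS t₀ ht₀
  obtain ⟨⟨-, -⟩, ⟨hz, hz'⟩, ⟨hw, hw'⟩, ⟨hv, hv'⟩, ⟨-, -⟩, ⟨hx, hx'⟩⟩ := hin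
  have hz1 : (1 : ℤ) ≤ z := by exact_mod_cast hz
  have hz2 : (z : ℤ) ≤ d := by exact_mod_cast hz'
  have hw1 : (1 : ℤ) ≤ w := by exact_mod_cast hw
  have hw2 : (w : ℤ) ≤ d := by exact_mod_cast hw'
  have hv1 : (1 : ℤ) ≤ v := by exact_mod_cast hv
  have hv2 : (v : ℤ) ≤ d := by exact_mod_cast hv'
  have hx1 : (1 : ℤ) ≤ x := by exact_mod_cast hx
  have hx2 : (x : ℤ) ≤ d := by exact_mod_cast hx'
  have hwx : (d : ℤ) < w + x := by exact_mod_cast k2
  have hPle : Phi d v z w ≤ 2 * (d : ℤ) ^ 2 := by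
    have e1 : (v : ℤ) * z ≤ d * d := mul_le_mul hv2 hz2 (by linarith) (by linarith)
    have e2 : (w : ℤ) * (d - v - z) ≤ d * d := by
      calc (w : ℤ) * (d - v - z) ≤ w * d := mul_le_mul_of_nonneg_left (by linarith) (by linarith)
        _ ≤ d * d := mul_le_mul_of_nonneg_right hw2 (by linarith)
    unfold Phi
    nlinarith
  set P : ℤ := Phi d v z w with hP
  have hPd : P = v * z + w * (d - v - z) := by rw [hP]; rfl
  have hD : (P * x - w * x * (d - z)) * (P * x - w * x * (d - v)) -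
      (w * x - P) * (w * x * (d - v) * (d - z) - P * x * d) =
      x * z * v * (w + x - d) * P := by
    rw [hPd]
    ring
  have hpos : 0 < (x : ℤ) * z * v * (w + x - d) * P := by
    have : (0 : ℤ) < w + x - d := by linarith
    positivity
  refine h1 d B hB (w * x - P) (P * x - w * x * (d - z)) (P * x - w * x * (d - v))
    (w * x * (d - v) * (d - z) - P * x * d) ?_ ?_ ?_ _ ?_
  · intro h0
    exact hne (by linarith)
  · rw [hD]
    exact hpos.ne'
  · rw [hD, abs_of_pos hpos]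
    exact CH_.prod_le _ _ _ _ _ _ (by linarith) hx2 (by linarith) hz2 (by linarith) hv2
      (by linarith) (by linarith) k4.le hPle (by linarith)
  · intro s hs
    rw [Finset.mem_image] at hs
    obtain ⟨t, ht, rfl⟩ := hs
    obtain ⟨⟨-, -, -, -, -, -, q6⟩, u, y, rfl⟩ := hS t ht
    simp only
    rw [← hP] at q6
    have e : Phi d u y x = u * y + x * (d - u - y) := rfl
    rw [e] at q6
    linear_combination q6

end Pool.Agent.WSR
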