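import Pool.Agent.WSR.Stmts

set_option autoImplicit false

open scoped BigOperators Topology

namespace Pool.Agent.WSR

noncomputable section

namespace CMP_

lemma F_affine (l : Ix) (p q : B3) (a b : ℝ) (h : a + b = 1) :
    F l (a • p + b • q) = a * F l p + b * F l q := by
  have hb : b = 1 - a := by linarith
  subst hb
  simp only [F, L, Pi.add_apply, Pi.smul_apply, smul_eq_mul]
  ring

lemma F_cont (l : Ix) : Continuous (F l) := by
  unfold F L
  fun_prop

open Classical in
/-- The sign pattern of a point. -/
def pat (K : Set B3) (s : Finset Ix) (p : off K s) : Finset Ix :=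
  s.filter (fun l => 0 < F l p.1)

lemma pat_lc (K : Set B3) (s : Finset Ix) : IsLocallyConstant (pat K s) := by
  classical
  rw [IsLocallyConstant.iff_eventually_eq]
  intro p
  have h : ∀ l ∈ s, ∀ᶠ q in 𝓝 p, (0 < F l q.1 ↔ 0 < F l p.1) := by
    intro l hl
    have hne : F l p.1 ≠ 0 := p.2.2 l hl
    have hc : Continuous (fun q : off K s => F l q.1) := (F_cont l).comp continuous_subtype_val
    rcases lt_or_gt_of_ne hne with h | h
    · have h1 : ∀ᶠ q in 𝓝 p, F l (q : off K s).1 < 0 :=
        (hc.tendsto p).eventually (gt_mem_nhds h)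
      filter_upwards [h1] with q hq
      constructor
      · intro h2
        linarith
      · intro h2
        linarith
    · have h1 : ∀ᶠ q in 𝓝 p, 0 < F l (q : off K s).1 :=
        (hc.tendsto p).eventually (lt_mem_nhds h)
      filter_upwards [h1] with q hq
      exact ⟨fun _ => h, fun _ => hq⟩
  have h2 : ∀ᶠ q in 𝓝 p, ∀ l ∈ s, (0 < F l q.1 ↔ 0 < F l p.1) :=
    (Filter.eventually_all_finset s).2 h
  filter_upwards [h2] with q hq
  unfold pat
  exact Finset.filter_congr hq

lemma fibre (K : Set B3) (s : Finset Ix) (hK : Convex ℝ K) (t : Finset Ix) :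
    IsPreconnected {p : off K s | pat K s p = t} := by
  classical
  rw [← Topology.IsInducing.subtypeVal.isPreconnected_image]
  apply Convex.isPreconnected
  intro x hx y hy a b ha hb hab
  obtain ⟨x', hx', rfl⟩ := hx
  obtain ⟨y', hy', rfl⟩ := hy
  have hx1 : pat K s x' = t := hx'
  have hy1 : pat K s y' = t := hy'
  have hpos : ∀ l ∈ s, (0 < F l x'.1 ↔ l ∈ t) := by
    intro l hl
    rw [← hx1]
    unfold pat
    simp [hl]
  have hpos' : ∀ l ∈ s, (0 < F l y'.1 ↔ l ∈ t) := by
    intro l hl
    rw [← hy1]
    unfold pat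
    simp [hl]
  have key : ∀ l ∈ s, (l ∈ t → 0 < F l (a • x'.1 + b • y'.1)) ∧
      (l ∉ t → F l (a • x'.1 + b • y'.1) < 0) := by
    intro l hl
    rw [F_affine l x'.1 y'.1 a b hab]
    have hx0 := x'.2.2 l hl
    have hy0 := y'.2.2 l hl
    constructor
    · intro ht
      have h1 := (hpos l hl).2 ht
      have h2 := (hpos' l hl).2 ht
      rcases eq_or_lt_of_le ha with h3 | h3
      · have h4 : b = 1 := by linarith
        rw [← h3, h4]
        linarith
      · have h5 : 0 < a * F l x'.1 := mul_pos h3 h1
        have h6 : 0 ≤ b * F l y'.1 := mul_nonneg hb h2.le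
        linarith
    · intro ht
      have h1 : F l x'.1 < 0 := by
        rcases lt_or_gt_of_ne hx0 with h | h
        · exact h
        · exact absurd ((hpos l hl).1 h) ht
      have h2 : F l y'.1 < 0 := by
        rcases lt_or_gt_of_ne hy0 with h | h
        · exact h
        · exact absurd ((hpos' l hl).1 h) ht
      rcases eq_or_lt_of_le ha with h3 | h3
      · have h4 : b = 1 := by linarith
        rw [← h3, h4]
        linarith
      · have h5 : a * F l x'.1 < 0 := mul_neg_of_pos_of_neg h3 h1
        have h6 : b * F l y'.1 ≤ 0 := mul_nonpos_of_nonneg_of_nonpos hb h2.le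
        linarith
  have hmem : a • x'.1 + b • y'.1 ∈ off K s := by
    refine ⟨hK x'.2.1 y'.2.1 ha hb hab, ?_⟩
    intro l hl
    by_cases ht : l ∈ t
    · exact ((key l hl).1 ht).ne'
    · exact ((key l hl).2 ht).ne
  refine ⟨⟨_, hmem⟩, ?_, rfl⟩
  show pat K s ⟨_, hmem⟩ = t
  have hts : t ⊆ s := by
    rw [← hx1]
    unfold pat
    exact Finset.filter_subset _ _
  unfold pat
  ext l
  simp only [Finset.mem_filter]
  constructor
  · rintro ⟨h1, h2⟩
    by_contra h3
    have := (key l h1).2 h3
    linarith
  · intro h1
    exact ⟨hts h1, (key l (hts h1)).1 h1⟩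

/-- The pattern of a component. -/
def cpat (K : Set B3) (s : Finset Ix) : ConnectedComponents (off K s) → Finset Ix :=
  Quotient.lift (pat K s) (by
    intro p q h
    have h1 : connectedComponent p = connectedComponent q := h
    apply (pat_lc K s).apply_eq_of_isPreconnected (isPreconnected_connectedComponent (x := p))
    · exact mem_connectedComponent
    · rw [h1]
      exact mem_connectedComponent)

lemma cpat_mk (K : Set B3) (s : Finset Ix) (p : off K s) :
    cpat K s (ConnectedComponents.mk p) = pat K s p := rfl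

lemma cpat_inj (K : Set B3) (s : Finset Ix) (hK : Convex ℝ K) :
    Function.Injective (cpat K s) := by
  intro P Q h
  obtain ⟨p, rfl⟩ := ConnectedComponents.surjective_coe P
  obtain ⟨q, rfl⟩ := ConnectedComponents.surjective_coe Q
  have h1 : pat K s p = pat K s q := h
  rw [ConnectedComponents.coe_eq_coe]
  apply connectedComponent_eq
  have h2 := (fibre K s hK (pat K s p)).subset_connectedComponent (x := p) rfl
  exact h2 h1.symm

lemma cpat_range (K : Set B3) (s : Finset Ix) : Set.range (cpat K s) = pats K s := by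
  classical
  ext t
  constructor
  · rintro ⟨P, rfl⟩
    obtain ⟨p, rfl⟩ := ConnectedComponents.surjective_coe P
    refine ⟨p.1, p.2, ?_⟩
    show pat K s p = _
    unfold pat
    congr
  · rintro ⟨p, hp, rfl⟩
    refine ⟨ConnectedComponents.mk ⟨p, hp⟩, ?_⟩
    rw [cpat_mk]
    unfold pat
    congr

end CMP_

theorem cmp_proof : Stmt_CMP := by
  classical
  intro K s hK
  have hinj := CMP_.cpat_inj K s hK
  constructor
  · have hsub : ∀ P : ConnectedComponents (off K s), CMP_.cpat K s P ∈ s.powerset := by
      intro P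
      obtain ⟨p, rfl⟩ := ConnectedComponents.surjective_coe P
      rw [CMP_.cpat_mk, Finset.mem_powerset]
      unfold CMP_.pat
      exact Finset.filter_subset _ _
    apply Finite.of_injective (fun P => (⟨CMP_.cpat K s P, hsub P⟩ : s.powerset))
    intro P Q h
    exact hinj (Subtype.ext_iff.1 h)
  · unfold N
    rw [← CMP_.cpat_range K s, ← Nat.card_coe_set_eq]
    exact (Nat.card_range_of_injective hinj).symm

end

end Pool.Agent.WSR
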