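import Pool.Agent.WSR.Stmts

set_option autoImplicit false

/-!
# WSR, module CRA: the crossing criterion for lines of the same corner
-/

namespace Pool.Agent.WSR

namespace CRA_

theorem mem_lines {d : ℕ} {c : Fin 3} {i j : ℕ} (h : (c, i, j) ∈ lines d) :
    1 ≤ i ∧ i ≤ d ∧ 1 ≤ j ∧ j + 1 ≤ d := by
  simp only [lines, Finset.mem_product, Finset.mem_univ, true_and, Finset.mem_Icc] at h
  omega

/-- The crossing point. -/
theorem point {d i j i' j' : ℝ} (hi : 0 < i) (hid : i ≤ d) (hj : 0 < j) (hjd : j < d)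
    (hj' : 0 < j') (h1 : i < i') (h2 : j' < j) :
    ∃ y z : ℝ, 0 < y ∧ 0 < z ∧ y + z < d ∧ j * y + i * z - i * j = 0 ∧
      j' * y + i' * z - i' * j' = 0 := by
  have hi' : 0 < i' := by linarith
  have hD : 0 < j * i' - i * j' := by
    have : j * i' - i * j' = (j - j') * i' + j' * (i' - i) := by ring
    rw [this]
    have h3 : 0 < (j - j') * i' := mul_pos (by linarith) hi'
    have h4 : 0 < j' * (i' - i) := mul_pos hj' (by linarith)
    linarith
  have hy : 0 < i * i' * (j - j') / (j * i' - i * j') :=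
    div_pos (mul_pos (mul_pos hi hi') (by linarith)) hD
  have hz : 0 < j * j' * (i' - i) / (j * i' - i * j') :=
    div_pos (mul_pos (mul_pos hj hj') (by linarith)) hD
  have e1 : j * (i * i' * (j - j') / (j * i' - i * j')) +
      i * (j * j' * (i' - i) / (j * i' - i * j')) - i * j = 0 := by
    rw [← mul_div_assoc, ← mul_div_assoc, ← add_div, sub_eq_zero, div_eq_iff hD.ne']
    ring
  have e2 : j' * (i * i' * (j - j') / (j * i' - i * j')) +
      i' * (j * j' * (i' - i) / (j * i' - i * j')) - i' * j' = 0 := by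
    rw [← mul_div_assoc, ← mul_div_assoc, ← add_div, sub_eq_zero, div_eq_iff hD.ne']
    ring
  refine ⟨_, _, hy, hz, ?_, e1, e2⟩
  generalize i * i' * (j - j') / (j * i' - i * j') = y at *
  generalize j * j' * (i' - i) / (j * i' - i * j') = z at *
  have hd : 0 < d := by linarith
  have k1 : y * (i * j) ≤ y * (d * j) :=
    mul_le_mul_of_nonneg_left (mul_le_mul_of_nonneg_right hid hj.le) hy.le
  have k2 : z * (i * j) < z * (i * d) :=
    mul_lt_mul_of_pos_left (mul_lt_mul_of_pos_left hjd hi) hz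
  have k3 : (i * j) * (y + z) < (i * j) * d := by
    have : y * (d * j) + z * (i * d) = d * (i * j) := by linear_combination d * e1
    linarith
  exact lt_of_mul_lt_mul_left k3 (mul_pos hi hj).le

/-- The point of `B3` with prescribed coordinates. -/
noncomputable def pt (c : Fin 3) (x y z : ℝ) : B3 :=
  fun e => if e = c then x else if e = c + 1 then y else z

theorem pt0 (c : Fin 3) (x y z : ℝ) : pt c x y z c = x := by simp [pt]

theorem pt1 (c : Fin 3) (x y z : ℝ) : pt c x y z (c + 1) = y := by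
  have h : c + 1 ≠ c := by revert c; decide
  simp [pt]

theorem pt2 (c : Fin 3) (x y z : ℝ) : pt c x y z (c + 2) = z := by
  have h : c + 2 ≠ c := by revert c; decide
  have h' : c + 2 ≠ c + 1 := by revert c; decide
  unfold pt
  rw [if_neg h, if_neg h']

theorem pt_mem (d : ℕ) (c : Fin 3) (x y z : ℝ) (hx : 0 < x) (hy : 0 < y) (hz : 0 < z)
    (hs : x + y + z = d) : pt c x y z ∈ Tri d := by
  constructor
  · intro e
    unfold pt
    split_ifs <;> assumption
  · rw [← hs]
    fin_cases c <;> simp [pt] <;> ring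

theorem exists_of {d : ℕ} {c : Fin 3} {i j i' j' : ℕ} (h1 : (c, i, j) ∈ lines d)
    (h2 : (c, i', j') ∈ lines d) (h3 : i < i') (h4 : j' < j) :
    Xs d (c, i, j) (c, i', j') := by
  obtain ⟨a1, b1, c1, d1⟩ := mem_lines h1
  obtain ⟨a2, b2, c2, d2⟩ := mem_lines h2
  have A1 : (0 : ℝ) < i := by exact_mod_cast a1
  have B1 : (i : ℝ) ≤ d := by exact_mod_cast b1
  have C1 : (0 : ℝ) < j := by exact_mod_cast c1
  have C2 : (0 : ℝ) < j' := by exact_mod_cast c2
  have D1 : (j : ℝ) < d := by exact_mod_cast d1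
  have H3 : (i : ℝ) < i' := by exact_mod_cast h3
  have H4 : (j' : ℝ) < j := by exact_mod_cast h4
  obtain ⟨y, z, hy, hz, hs, e1, e2⟩ := point A1 B1 C1 D1 C2 H3 H4
  refine ⟨pt c (d - y - z) y z, pt_mem d c _ y z (by linarith) hy hz (by ring), ?_, ?_⟩
  · simp only [F, L, pt1, pt2]; exact e1
  · simp only [F, L, pt1, pt2]; exact e2

theorem Xs_symm {d : ℕ} {l l' : Ix} (h : Xs d l l') : Xs d l' l := by
  obtain ⟨p, hp, h1, h2⟩ := h
  exact ⟨p, hp, h2, h1⟩

end CRA_

open CRA_ in
theorem cra_proof : Stmt_CRA := by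
  intro d c i j i' j' hd h1 h2 hne
  constructor
  · rintro ⟨p, ⟨hpos, hsum⟩, e1, e2⟩
    obtain ⟨a1, b1, c1, d1⟩ := mem_lines h1
    obtain ⟨a2, b2, c2, d2⟩ := mem_lines h2
    have hy := hpos (c + 1)
    have hz := hpos (c + 2)
    simp only [F, L] at e1 e2
    generalize p (c + 1) = y at *
    generalize p (c + 2) = z at *
    have A1 : (0 : ℝ) < i := by exact_mod_cast a1
    have A2 : (0 : ℝ) < i' := by exact_mod_cast a2
    have C1 : (0 : ℝ) < j := by exact_mod_cast c1
    have C2 : (0 : ℝ) < j' := by exact_mod_cast c2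
    have key : (j * j' * y) * ((i' : ℝ) - i) = (i * i' * z) * ((j : ℝ) - j') := by
      linear_combination ((i' : ℝ) * j') * e1 - ((i : ℝ) * j) * e2
    have hp1 : 0 < (j : ℝ) * j' * y := by positivity
    have hp2 : 0 < (i : ℝ) * i' * z := by positivity
    rcases lt_trichotomy i i' with h | h | h
    · left
      refine ⟨h, ?_⟩
      have h' : (i : ℝ) < i' := by exact_mod_cast h
      have h3 : 0 < (j * j' * y) * ((i' : ℝ) - i) := mul_pos hp1 (by linarith)
      rw [key] at h3
      have h4 := (mul_pos_iff_of_pos_left hp2).1 h3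
      have h5 : (j' : ℝ) < j := by linarith
      exact_mod_cast h5
    · exfalso
      subst h
      rw [sub_self, mul_zero] at key
      have h4 := (mul_eq_zero.1 key.symm).resolve_left hp2.ne'
      have h5 : (j : ℝ) = j' := by linarith
      have h6 : j = j' := by exact_mod_cast h5
      exact hne (by rw [h6])
    · right
      refine ⟨h, ?_⟩
      have h' : (i' : ℝ) < i := by exact_mod_cast h
      have h3 : 0 < (j * j' * y) * ((i : ℝ) - i') := mul_pos hp1 (by linarith)
      have h3' : 0 < (i * i' * z) * ((j' : ℝ) - j) := by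
        have : (i * i' * z) * ((j' : ℝ) - j) = (j * j' * y) * ((i : ℝ) - i') := by
          linear_combination key
        rw [this]; exact h3
      have h4 := (mul_pos_iff_of_pos_left hp2).1 h3'
      have h5 : (j : ℝ) < j' := by linarith
      exact_mod_cast h5
  · rintro (⟨h3, h4⟩ | ⟨h3, h4⟩)
    · exact exists_of h1 h2 h3 h4
    · exact Xs_symm (exists_of h2 h1 h3 h4)

end Pool.Agent.WSR
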