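import Pool.Agent.WSR.Stmts

set_option autoImplicit false

/-! # WSR, module CRB: the crossing criterion for lines of different corners -/

open scoped BigOperators Topology

namespace Pool.Agent.WSR

noncomputable section

namespace CRB_

theorem f11 : ∀ c : Fin 3, c + 1 + 1 = c + 2 := by decide
theorem f12 : ∀ c : Fin 3, c + 1 + 2 = c := by decide
theorem f1 : ∀ c : Fin 3, c + 1 ≠ c := by decide
theorem f2 : ∀ c : Fin 3, c + 2 ≠ c := by decide
theorem f3 : ∀ c : Fin 3, c + 2 ≠ c + 1 := by decide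

theorem sumc (p : B3) (c : Fin 3) : p 0 + p 1 + p 2 = p c + p (c + 1) + p (c + 2) := by
  have h0 : (0 : Fin 3) + 1 = 1 := by decide
  have h1 : (0 : Fin 3) + 2 = 2 := by decide
  have h2 : (1 : Fin 3) + 1 = 2 := by decide
  have h3 : (1 : Fin 3) + 2 = 0 := by decide
  have h4 : (2 : Fin 3) + 1 = 0 := by decide
  have h5 : (2 : Fin 3) + 2 = 1 := by decide
  have hc : c = 0 ∨ c = 1 ∨ c = 2 := by
    revert c
    decide
  rcases hc with rfl | rfl | rfl
  · rw [h0, h1]
  · rw [h2, h3]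
    ring
  · rw [h4, h5]
    ring

theorem exists_pt (d : ℕ) (c : Fin 3) (X Y Z : ℝ) (hX : 0 < X) (hY : 0 < Y) (hZ : 0 < Z)
    (hs : X + Y + Z = d) : ∃ p ∈ Tri d, p c = X ∧ p (c + 1) = Y ∧ p (c + 2) = Z := by
  obtain ⟨p, hp⟩ : ∃ p : B3, p = fun e => if e = c then X else if e = c + 1 then Y else Z :=
    ⟨_, rfl⟩
  have a1 : p c = X := by
    rw [hp]
    simp
  have a2 : p (c + 1) = Y := by
    rw [hp]
    simp only [f1 c, if_false, if_true]
  have a3 : p (c + 2) = Z := by
    rw [hp]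
    simp only [f2 c, f3 c, if_false]
  refine ⟨p, ⟨?_, ?_⟩, a1, a2, a3⟩
  · intro e
    rw [hp]
    simp only
    split_ifs
    · exact hX
    · exact hY
    · exact hZ
  · rw [sumc p c, a1, a2, a3]
    exact hs

end CRB_

open CRB_ in
theorem crb_proof : Stmt_CRB := by
  intro d c i j i' j' hd hl hl'
  simp only [lines, Finset.mem_product, Finset.mem_univ, true_and, Finset.mem_Icc] at hl hl'
  obtain ⟨⟨hi1, hid⟩, hj1, hjd⟩ := hl
  obtain ⟨⟨hi'1, hi'd⟩, hj'1, hj'd⟩ := hl'
  have ri : (0 : ℝ) < i := by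
    have : 0 < i := by omega
    exact_mod_cast this
  have rj : (0 : ℝ) < j := by
    have : 0 < j := by omega
    exact_mod_cast this
  have ri' : (0 : ℝ) < i' := by
    have : 0 < i' := by omega
    exact_mod_cast this
  have rj' : (0 : ℝ) < j' := by
    have : 0 < j' := by omega
    exact_mod_cast this
  have rd : (0 : ℝ) < d := by
    have : 0 < d := by omega
    exact_mod_cast this
  have rid : (i : ℝ) ≤ d := by exact_mod_cast hid
  have rid' : (i' : ℝ) ≤ d := by exact_mod_cast hi'd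
  have rjd : (j : ℝ) < d := by
    have : j < d := by omega
    exact_mod_cast this
  have rjd' : (j' : ℝ) < d := by
    have : j' < d := by omega
    exact_mod_cast this
  obtain ⟨A, hA⟩ : ∃ A : ℝ, A = (j : ℝ) * (d - i') + i * i' - i * j := ⟨_, rfl⟩
  have hA0 : 0 < A := by
    have h1 : (d : ℝ) * A = j * ((d - i') * (d - i)) + (d - j) * (i * i') := by
      rw [hA]
      ring
    have h2 : 0 ≤ (j : ℝ) * ((d - i') * (d - i)) :=
      mul_nonneg rj.le (mul_nonneg (sub_nonneg.2 rid') (sub_nonneg.2 rid))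
    have h3 : 0 < ((d : ℝ) - j) * (i * i') := mul_pos (sub_pos.2 rjd) (mul_pos ri ri')
    have h4 : 0 < (d : ℝ) * A := by linarith
    exact (mul_pos_iff_of_pos_left rd).1 h4
  constructor
  · rintro ⟨p, hp, h1, h2⟩
    obtain ⟨hpos, hsum⟩ := hp
    unfold F L at h1 h2
    simp only [f11, f12] at h1 h2
    rw [sumc p c] at hsum
    obtain ⟨X, hX⟩ : ∃ X, X = p c := ⟨_, rfl⟩
    obtain ⟨Y, hY⟩ : ∃ Y, Y = p (c + 1) := ⟨_, rfl⟩
    obtain ⟨Z, hZ⟩ : ∃ Z, Z = p (c + 2) := ⟨_, rfl⟩
    have hX0 : 0 < X := by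
      rw [hX]
      exact hpos c
    have hZ0 : 0 < Z := by
      rw [hZ]
      exact hpos (c + 2)
    rw [← hX, ← hZ] at h2
    rw [← hY, ← hZ] at h1
    rw [← hX, ← hY, ← hZ] at hsum
    have key : Z * j' * A + X * i' * j * ((d : ℝ) - j' - i) = 0 := by
      have hY' : Y = d - X - Z := by linarith
      rw [hY'] at h1
      rw [hA]
      linear_combination (i' : ℝ) * j' * h1 + ((j : ℝ) * (d - i)) * h2
    have h5 : 0 < Z * j' * A := mul_pos (mul_pos hZ0 rj') hA0
    have h6 : 0 < X * i' * j := mul_pos (mul_pos hX0 ri') rj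
    have h7 : ((d : ℝ) - j' - i) < 0 := by
      by_contra hcon
      push Not at hcon
      have := mul_nonneg h6.le hcon
      linarith
    have h8 : (d : ℝ) < i + j' := by linarith
    exact_mod_cast h8
  · intro hlt
    have rlt : (0 : ℝ) < (i : ℝ) + j' - d := by
      have : (d : ℝ) < (i : ℝ) + j' := by exact_mod_cast hlt
      linarith
    obtain ⟨E, hE⟩ : ∃ E : ℝ, E = (j : ℝ) * (i + j' - d) := ⟨_, rfl⟩
    have hE0 : 0 < E := by
      rw [hE]
      exact mul_pos rj rlt
    have hAE : 0 < A + E := add_pos hA0 hE0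
    obtain ⟨t, ht⟩ : ∃ t : ℝ, t = A / (A + E) := ⟨_, rfl⟩
    have ht0 : 0 < t := by
      rw [ht]
      exact div_pos hA0 hAE
    have ht1 : t < 1 := by
      rw [ht, div_lt_one hAE]
      linarith
    have htA : t * (A + E) = A := by
      rw [ht, div_mul_cancel₀ _ hAE.ne']
    have hX0 : 0 < t * j' := mul_pos ht0 rj'
    have hZ0 : 0 < (1 - t) * i' := mul_pos (by linarith) ri'
    have hY0 : 0 < (d : ℝ) - t * j' - (1 - t) * i' := by
      have e1 : (d : ℝ) - t * j' - (1 - t) * i' = t * (d - j') + (1 - t) * (d - i') := by ring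
      rw [e1]
      have e2 : 0 < t * ((d : ℝ) - j') := mul_pos ht0 (sub_pos.2 rjd')
      have e3 : 0 ≤ (1 - t) * ((d : ℝ) - i') := mul_nonneg (by linarith) (sub_nonneg.2 rid')
      linarith
    obtain ⟨p, hp, a1, a2, a3⟩ := exists_pt d c (t * j') ((d : ℝ) - t * j' - (1 - t) * i')
      ((1 - t) * i') hX0 hY0 hZ0 (by ring)
    refine ⟨p, hp, ?_, ?_⟩
    · unfold F L
      simp only
      rw [a2, a3]
      rw [hA, hE] at htA
      linear_combination (-1 : ℝ) * htA
    · unfold F L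
      simp only [f11, f12]
      rw [a1, a3]
      ring

end

end Pool.Agent.WSR
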