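import Pool.Agent.WSR.Stmts

set_option autoImplicit false

/-! # WSR, module CUTA: a point of the open triangle on a line lies on a cross-cut -/

open scoped BigOperators Topology

namespace Pool.Agent.WSR

noncomputable section

namespace CUTA_

theorem f1 : ∀ c : Fin 3, c + 1 ≠ c := by decide
theorem f2 : ∀ c : Fin 3, c + 2 ≠ c := by decide
theorem f3 : ∀ c : Fin 3, c + 2 ≠ c + 1 := by decide

theorem cases3 : ∀ c e : Fin 3, e = c ∨ e = c + 1 ∨ e = c + 2 := by decide

theorem sumc (p : Fin 3 → ℝ) (c : Fin 3) : p 0 + p 1 + p 2 = p c + p (c + 1) + p (c + 2) := by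
  have h0 : (0 : Fin 3) + 1 = 1 := by decide
  have h1 : (0 : Fin 3) + 2 = 2 := by decide
  have h2 : (1 : Fin 3) + 1 = 2 := by decide
  have h3 : (1 : Fin 3) + 2 = 0 := by decide
  have h4 : (2 : Fin 3) + 1 = 0 := by decide
  have h5 : (2 : Fin 3) + 2 = 1 := by decide
  have hc : c = 0 ∨ c = 1 ∨ c = 2 := by
    revert c
    decide
  rcases hc with rfl | rfl | rfl
  · rw [h0, h1]
  · rw [h2, h3]
    ring
  · rw [h4, h5]
    ring

theorem sum_coord (b : AffineBasis (Fin 3) ℝ E2) (x : E2) (c : Fin 3) :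
    b.coord c x + b.coord (c + 1) x + b.coord (c + 2) x = 1 := by
  have h := b.sum_coord_apply_eq_one x
  rw [Fin.sum_univ_three, sumc (fun e => b.coord e x) c] at h
  exact h

theorem coord_line (b : AffineBasis (Fin 3) ℝ E2) (P Q : E2) (t : ℝ) (e : Fin 3) :
    b.coord e (AffineMap.lineMap P Q t) = (1 - t) * b.coord e P + t * b.coord e Q := by
  rw [AffineMap.apply_lineMap, AffineMap.lineMap_apply_module]
  simp only [smul_eq_mul]

end CUTA_

open CUTA_ in
theorem cuta_proof (_h1 : Stmt_MRK) (h2 : Stmt_SID) : Stmt_CUTA := by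
  intro b d x hd hx l hl hF
  obtain ⟨c, i, j⟩ := l
  simp only [lines, Finset.mem_product, Finset.mem_univ, true_and, Finset.mem_Icc] at hl
  obtain ⟨⟨hi1, hid⟩, hj1, hjd⟩ := hl
  have ri : (0 : ℝ) < i := by
    have : 0 < i := by omega
    exact_mod_cast this
  have rj : (0 : ℝ) < j := by
    have : 0 < j := by omega
    exact_mod_cast this
  have rd : (0 : ℝ) < d := by
    have : 0 < d := by omega
    exact_mod_cast this
  have rid : (i : ℝ) ≤ d := by exact_mod_cast hid
  have rjd : (j : ℝ) < d := by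
    have : j < d := by omega
    exact_mod_cast this
  rw [AffineBasis.interior_convexHull] at hx
  have hx0 : ∀ e, 0 < b.coord e x := hx
  unfold F L bary at hF
  simp only at hF
  obtain ⟨P, hP⟩ : ∃ P : E2, P = AffineMap.lineMap (b c) (b (c + 1)) ((i : ℝ) / (d : ℝ)) :=
    ⟨_, rfl⟩
  obtain ⟨Q, hQ⟩ : ∃ Q : E2, Q = AffineMap.lineMap (b c) (b (c + 2)) ((j : ℝ) / (d : ℝ)) :=
    ⟨_, rfl⟩
  have p0 : b.coord c P = 1 - (i : ℝ) / d := by
    rw [hP, coord_line, b.coord_apply, b.coord_apply, if_pos rfl, if_neg (f1 c).symm]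
    ring
  have p1 : b.coord (c + 1) P = (i : ℝ) / d := by
    rw [hP, coord_line, b.coord_apply, b.coord_apply, if_pos rfl, if_neg (f1 c)]
    ring
  have p2 : b.coord (c + 2) P = 0 := by
    rw [hP, coord_line, b.coord_apply, b.coord_apply, if_neg (f2 c), if_neg (f3 c)]
    ring
  have q0 : b.coord c Q = 1 - (j : ℝ) / d := by
    rw [hQ, coord_line, b.coord_apply, b.coord_apply, if_pos rfl, if_neg (f2 c).symm]
    ring
  have q1 : b.coord (c + 1) Q = 0 := by
    rw [hQ, coord_line, b.coord_apply, b.coord_apply, if_neg (f1 c), if_neg (f3 c).symm]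
    ring
  have q2 : b.coord (c + 2) Q = (j : ℝ) / d := by
    rw [hQ, coord_line, b.coord_apply, b.coord_apply, if_pos rfl, if_neg (f2 c)]
    ring
  have hi' : 0 < (i : ℝ) / d := div_pos ri rd
  have hj' : 0 < (j : ℝ) / d := div_pos rj rd
  have hi1' : (i : ℝ) / d ≤ 1 := (div_le_one rd).2 rid
  have hj1' : (j : ℝ) / d < 1 := (div_lt_one rd).2 rjd
  have hPn : ∀ e, 0 ≤ b.coord e P := by
    intro e
    rcases cases3 c e with rfl | rfl | rfl
    · rw [p0]
      linarith
    · rw [p1]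
      exact hi'.le
    · rw [p2]
  have hQn : ∀ e, 0 ≤ b.coord e Q := by
    intro e
    rcases cases3 c e with rfl | rfl | rfl
    · rw [q0]
      linarith
    · rw [q1]
    · rw [q2]
      exact hj'.le
  have hno : ∀ e, ¬ (b.coord e P = 0 ∧ b.coord e Q = 0) := by
    rintro e ⟨h, h'⟩
    rcases cases3 c e with rfl | rfl | rfl
    · rw [q0] at h'
      linarith
    · rw [p1] at h
      linarith
    · rw [q2] at h'
      linarith
  have hside := (h2 b P Q hPn hQn).2 hno
  refine Set.mem_sUnion.2 ⟨segment ℝ P Q, ⟨P, Q, ⟨c, c + 1, i, hid, hP⟩,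
    ⟨c, c + 2, j, by omega, hQ⟩, hside, rfl⟩, ?_⟩
  obtain ⟨Y, hY⟩ : ∃ Y, Y = b.coord (c + 1) x := ⟨_, rfl⟩
  obtain ⟨Z, hZ⟩ : ∃ Z, Z = b.coord (c + 2) x := ⟨_, rfl⟩
  have hY0 : 0 < Y := by
    rw [hY]
    exact hx0 _
  have hZ0 : 0 < Z := by
    rw [hZ]
    exact hx0 _
  rw [← hY, ← hZ] at hF
  obtain ⟨t, ht⟩ : ∃ t : ℝ, t = (d : ℝ) * Z / j := ⟨_, rfl⟩
  have htj : t * j = d * Z := by
    rw [ht, div_mul_cancel₀ _ rj.ne']
  have hti : (1 - t) * i = d * Y := by
    have e1 : (j : ℝ) * ((1 - t) * i) = j * (d * Y) := by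
      linear_combination (-(i : ℝ)) * htj - hF
    exact mul_left_cancel₀ rj.ne' e1
  have ht0 : 0 ≤ t := by
    rw [ht]
    exact (div_pos (mul_pos rd hZ0) rj).le
  have ht1 : t ≤ 1 := by
    have e1 : 0 < (1 - t) * i := by
      rw [hti]
      exact mul_pos rd hY0
    have e2 : 0 < 1 - t := by
      by_contra hcon
      push Not at hcon
      have := mul_nonneg (neg_nonneg.2 hcon) ri.le
      linarith
    linarith
  rw [segment_eq_image_lineMap]
  refine ⟨t, ⟨ht0, ht1⟩, ?_⟩
  have k1 : b.coord (c + 1) (AffineMap.lineMap P Q t) = b.coord (c + 1) x := by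
    rw [coord_line, p1, q1, ← hY]
    have e1 : (1 - t) * ((i : ℝ) / d) + t * 0 = ((1 - t) * i) / d := by ring
    rw [e1, hti, mul_div_cancel_left₀ _ rd.ne']
  have k2 : b.coord (c + 2) (AffineMap.lineMap P Q t) = b.coord (c + 2) x := by
    rw [coord_line, p2, q2, ← hZ]
    have e1 : (1 - t) * 0 + t * ((j : ℝ) / d) = (t * j) / d := by ring
    rw [e1, htj, mul_div_cancel_left₀ _ rd.ne']
  have k0 : b.coord c (AffineMap.lineMap P Q t) = b.coord c x := by
    have s1 := sum_coord b (AffineMap.lineMap P Q t) c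
    have s2 := sum_coord b x c
    rw [k1, k2] at s1
    linarith
  refine b.ext_elem fun e => ?_
  rcases cases3 c e with rfl | rfl | rfl
  · exact k0
  · exact k1
  · exact k2

end

end Pool.Agent.WSR
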