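import Pool.Agent.WSR.Stmts

set_option autoImplicit false

/-! # WSR, module CUTB: a point of the open triangle on a cross-cut lies on a line -/

open scoped BigOperators Topology

namespace Pool.Agent.WSR

noncomputable section

namespace CUTB_

theorem cases3 : ∀ c e : Fin 3, e = c ∨ e = c + 1 ∨ e = c + 2 := by decide

theorem a12 : ∀ c : Fin 3, c + 1 + 1 = c + 2 := by decide

theorem a13 : ∀ c : Fin 3, c + 1 + 2 = c := by decide

theorem a21 : ∀ c : Fin 3, c + 2 + 1 = c := by decide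

theorem a22 : ∀ c : Fin 3, c + 2 + 2 = c + 1 := by decide

theorem pairs : ∀ e f : Fin 3, e ≠ f →
    (∃ c : Fin 3, f = c + 1 ∧ e = c + 2) ∨ (∃ c : Fin 3, e = c + 1 ∧ f = c + 2) := by decide

theorem sum3 (c : Fin 3) (a : Fin 3 → ℕ) : a c + a (c + 1) + a (c + 2) = a 0 + a 1 + a 2 := by
  fin_cases c
  · rfl
  · show a 1 + a 2 + a 0 = a 0 + a 1 + a 2
    omega
  · show a 2 + a 0 + a 1 = a 0 + a 1 + a 2
    omega

/-- The combinatorial core. -/
theorem core (d : ℕ) (c : Fin 3) (a a' : Fin 3 → ℕ) (ha : a 0 + a 1 + a 2 = d)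
    (ha' : a' 0 + a' 1 + a' 2 = d) (h2 : a (c + 2) = 0) (h1 : a' (c + 1) = 0)
    (hn : ∀ e, ¬ (a e = 0 ∧ a' e = 0)) (s t : ℝ) (hst : s + t = 1) (p : B3)
    (hp : ∀ e, p e = s * (a e : ℝ) + t * (a' e : ℝ)) :
    ∃ l ∈ lines d, F l p = 0 := by
  have sa := sum3 c a
  have sa' := sum3 c a'
  rw [ha] at sa
  rw [ha'] at sa'
  have n0 := hn c
  have n1 := hn (c + 1)
  have n2 := hn (c + 2)
  by_cases hj : a' (c + 2) = d
  · refine ⟨(c + 1, d, d - a (c + 1)), ?_, ?_⟩
    · simp only [lines, Finset.mem_product, Finset.mem_univ, true_and, Finset.mem_Icc]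
      omega
    · have hle : a (c + 1) ≤ d := by omega
      have e0 : (a c : ℝ) = d - a (c + 1) := by
        have : a c = d - a (c + 1) := by omega
        rw [this, Nat.cast_sub hle]
      have e1 : a' c = 0 := by omega
      unfold F L
      simp only [a12, a13]
      rw [hp, hp, h2, hj, e1, e0, Nat.cast_sub hle]
      have hs : s = 1 - t := by linarith
      rw [hs]
      push_cast
      ring
  · refine ⟨(c, a (c + 1), a' (c + 2)), ?_, ?_⟩
    · simp only [lines, Finset.mem_product, Finset.mem_univ, true_and, Finset.mem_Icc]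
      omega
    · unfold F L
      simp only
      rw [hp, hp, h2, h1]
      have hs : s = 1 - t := by linarith
      rw [hs]
      push_cast
      ring

theorem nonneg_of {d : ℕ} (hd : 1 ≤ d) (b : AffineBasis (Fin 3) ℝ E2) (P : E2) (a : Fin 3 → ℕ)
    (h : bary b d P = fun c => (a c : ℝ)) (c : Fin 3) : (d : ℝ) * b.coord c P = a c ∧
      0 ≤ b.coord c P ∧ (a c = 0 → b.coord c P = 0) := by
  have hd0 : (0 : ℝ) < d := by
    have : 0 < d := by omega
    exact_mod_cast this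
  have h1 : (d : ℝ) * b.coord c P = a c := congrFun h c
  refine ⟨h1, ?_, ?_⟩
  · by_contra hcon
    push Not at hcon
    have := mul_neg_of_pos_of_neg hd0 hcon
    rw [h1] at this
    exact absurd (Nat.cast_nonneg (α := ℝ) (a c)) (not_le.2 this)
  · intro h0
    rw [h0, Nat.cast_zero] at h1
    rcases mul_eq_zero.1 h1 with h2 | h2
    · exact absurd h2 hd0.ne'
    · exact h2

end CUTB_

open CUTB_ in
theorem cutb_proof (h1 : Stmt_MRK) (h2 : Stmt_SID) : Stmt_CUTB := by
  intro b d x hd _ hx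
  obtain ⟨S, ⟨P, Q, hP, hQ, hno, rfl⟩, hxS⟩ := Set.mem_sUnion.1 hx
  obtain ⟨a, ha, ⟨e, he⟩, haP⟩ := (h1 b d P hd).1 hP
  obtain ⟨a', ha', ⟨f, hf⟩, haQ⟩ := (h1 b d Q hd).1 hQ
  have kP := nonneg_of hd b P a haP
  have kQ := nonneg_of hd b Q a' haQ
  have hn := (h2 b P Q (fun c => (kP c).2.1) (fun c => (kQ c).2.1)).1 hno
  have hn' : ∀ c, ¬ (a c = 0 ∧ a' c = 0) := fun c hc => hn c ⟨(kP c).2.2 hc.1, (kQ c).2.2 hc.2⟩
  have hef : e ≠ f := by
    rintro rfl
    exact hn' e ⟨he, hf⟩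
  rw [segment_eq_image_lineMap] at hxS
  obtain ⟨t, -, rfl⟩ := hxS
  have hp : ∀ c, bary b d (AffineMap.lineMap P Q t) c = (1 - t) * (a c : ℝ) + t * (a' c : ℝ) := by
    intro c
    unfold bary
    rw [AffineMap.apply_lineMap, AffineMap.lineMap_apply_module, ← (kP c).1, ← (kQ c).1]
    simp only [smul_eq_mul]
    ring
  rcases pairs e f hef with ⟨c, hfc, hec⟩ | ⟨c, hec, hfc⟩
  · subst hfc hec
    exact core d c a a' ha ha' he hf hn' (1 - t) t (by ring) _ hp
  · subst hfc hec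
    refine core d c a' a ha' ha hf he (fun k hk => hn' k ⟨hk.2, hk.1⟩) t (1 - t) (by ring) _ ?_
    intro k
    rw [hp k]
    ring

end

end Pool.Agent.WSR
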