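import Pool.Agent.WSR.Stmts

/-!
# WSR: module DIV (the divisor bound)
-/

set_option autoImplicit false

namespace Pool.Agent.WSR.DIV_

theorem local_large {e : ℝ} (he : 0 < e) {p a : ℕ} (hp : (2 : ℝ) ^ (1 / e) ≤ p) :
    ((a : ℝ) + 1) ≤ ((p : ℝ) ^ a) ^ e := by
  have h0 : (0 : ℝ) < (2 : ℝ) ^ (1 / e) := Real.rpow_pos_of_pos (by norm_num) _
  have hp0 : (0 : ℝ) < p := lt_of_lt_of_le h0 hp
  have h1 : (2 : ℝ) ≤ (p : ℝ) ^ e := by
    have h2 : ((2 : ℝ) ^ (1 / e)) ^ e ≤ (p : ℝ) ^ e := Real.rpow_le_rpow h0.le hp he.le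
    rw [← Real.rpow_mul (by norm_num), one_div_mul_cancel he.ne', Real.rpow_one] at h2
    exact h2
  have h3 : ((p : ℝ) ^ a) ^ e = ((p : ℝ) ^ e) ^ a := by
    rw [← Real.rpow_natCast, ← Real.rpow_mul hp0.le, mul_comm, Real.rpow_mul hp0.le,
      Real.rpow_natCast]
  rw [h3]
  have h4 : (2 : ℝ) ^ a ≤ ((p : ℝ) ^ e) ^ a := pow_le_pow_left₀ (by norm_num) h1 a
  have h5 : (a : ℝ) + 1 ≤ 2 ^ a := by
    have : a + 1 ≤ 2 ^ a := Nat.lt_two_pow_self
    exact_mod_cast this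
  linarith

theorem local_small {e : ℝ} (he : 0 < e) {p a : ℕ} (hp : 2 ≤ p) :
    ((a : ℝ) + 1) ≤ (1 + 1 / (e * Real.log 2)) * ((p : ℝ) ^ a) ^ e := by
  have hl : 0 < Real.log 2 := Real.log_pos (by norm_num)
  have hel : 0 < e * Real.log 2 := mul_pos he hl
  have h1 : (2 : ℝ) ^ (e * a) ≤ ((p : ℝ) ^ a) ^ e := by
    have h2 : (2 : ℝ) ^ a ≤ (p : ℝ) ^ a := pow_le_pow_left₀ (by norm_num) (by exact_mod_cast hp) a
    have h3 : ((2 : ℝ) ^ a) ^ e ≤ ((p : ℝ) ^ a) ^ e := Real.rpow_le_rpow (by positivity) h2 he.le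
    rw [← Real.rpow_natCast, ← Real.rpow_mul (by norm_num), mul_comm] at h3
    exact h3
  have h4 : 1 + e * Real.log 2 * a ≤ (2 : ℝ) ^ (e * a) := by
    rw [Real.rpow_def_of_pos (by norm_num)]
    have := Real.add_one_le_exp (Real.log 2 * (e * a))
    linarith [this, mul_comm (Real.log 2) (e * a)]
  have h5 : (1 + 1 / (e * Real.log 2)) * (1 + e * Real.log 2 * a) =
      1 + a + (e * Real.log 2 * a + 1 / (e * Real.log 2)) := by
    field_simp
    ring
  have h6 : (0 : ℝ) ≤ e * Real.log 2 * a + 1 / (e * Real.log 2) := by positivity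
  have h7 : (0 : ℝ) ≤ 1 + 1 / (e * Real.log 2) := by positivity
  calc (a : ℝ) + 1 ≤ (1 + 1 / (e * Real.log 2)) * (1 + e * Real.log 2 * a) := by
        rw [h5]; linarith
    _ ≤ (1 + 1 / (e * Real.log 2)) * ((p : ℝ) ^ a) ^ e :=
        mul_le_mul_of_nonneg_left (h4.trans h1) h7

/-- the divisor bound -/
theorem divisor_bound (e : ℝ) (he : 0 < e) : ∃ C : ℝ, 1 ≤ C ∧ ∀ n : ℕ, 0 < n →
    (n.divisors.card : ℝ) ≤ C * (n : ℝ) ^ e := by
  obtain ⟨K, hK⟩ : ∃ K, K = 1 + 1 / (e * Real.log 2) := ⟨_, rfl⟩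
  obtain ⟨P, hP⟩ : ∃ P, P = ⌈(2 : ℝ) ^ (1 / e)⌉₊ := ⟨_, rfl⟩
  have hl : 0 < Real.log 2 := Real.log_pos (by norm_num)
  have hK1 : 1 ≤ K := by
    rw [hK]
    have : 0 ≤ 1 / (e * Real.log 2) := by positivity
    linarith
  refine ⟨K ^ P, one_le_pow₀ hK1, ?_⟩
  intro n hn
  rw [Nat.card_divisors hn.ne']
  push_cast
  have h1 : ∀ p ∈ n.primeFactors, ((n.factorization p : ℝ) + 1) ≤
      (if p < P then K else 1) * (((p : ℝ) ^ n.factorization p) ^ e) := by
    intro p hp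
    have hp2 : 2 ≤ p := (Nat.prime_of_mem_primeFactors hp).two_le
    by_cases h : p < P
    · rw [if_pos h, hK]
      exact local_small he hp2
    · rw [if_neg h, one_mul]
      apply local_large he
      have h2 : (P : ℝ) ≤ p := by exact_mod_cast not_lt.1 h
      exact (Nat.le_ceil _).trans (by rw [← hP]; exact h2)
  have h2 : ∏ p ∈ n.primeFactors, ((n.factorization p : ℝ) + 1) ≤
      ∏ p ∈ n.primeFactors, ((if p < P then K else 1) *
        (((p : ℝ) ^ n.factorization p) ^ e)) :=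
    Finset.prod_le_prod (fun p _ => by positivity) h1
  refine h2.trans ?_
  rw [Finset.prod_mul_distrib]
  have h3 : ∏ p ∈ n.primeFactors, (((p : ℝ) ^ n.factorization p) ^ e) = (n : ℝ) ^ e := by
    rw [Real.finsetProd_rpow _ _ fun p _ => by positivity]
    congr 1
    have h4 := Nat.prod_factorization_pow_eq_self hn.ne'
    conv_rhs => rw [← h4]
    rw [Finsupp.prod, Nat.support_factorization]
    push_cast
    rfl
  have h5 : ∏ p ∈ n.primeFactors, (if p < P then K else (1 : ℝ)) ≤ K ^ P := by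
    rw [Finset.prod_ite, Finset.prod_const, Finset.prod_const_one, mul_one]
    apply pow_le_pow_right₀ hK1
    have h6 : (n.primeFactors.filter fun p => p < P) ⊆ Finset.range P := by
      intro p hp
      rw [Finset.mem_filter] at hp
      exact Finset.mem_range.2 hp.2
    have h7 := Finset.card_le_card h6
    rwa [Finset.card_range] at h7
  rw [h3]
  exact mul_le_mul_of_nonneg_right h5 (by positivity)

end Pool.Agent.WSR.DIV_

namespace Pool.Agent.WSR

/-- DIV. -/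
theorem div_proof : Stmt_DIV := by
  intro ε hε
  obtain ⟨C, hC, h⟩ := DIV_.divisor_bound (ε / 20) (by positivity)
  refine ⟨C * 2 ^ ε, by positivity, ?_⟩
  intro d hd
  have hd1 : (1 : ℝ) ≤ d := by exact_mod_cast hd
  have e1 : (((2 * d : ℕ) : ℝ) ^ 20) ^ (ε / 20) = 2 ^ ε * (d : ℝ) ^ ε := by
    rw [← Real.rpow_natCast, ← Real.rpow_mul (by positivity)]
    have e2 : ((20 : ℕ) : ℝ) * (ε / 20) = ε := by
      push_cast
      ring
    rw [e2]
    push_cast
    rw [Real.mul_rpow (by norm_num) (by positivity)]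
  have e3 : (1 : ℝ) ≤ C * (((2 * d : ℕ) : ℝ) ^ 20) ^ (ε / 20) := by
    rw [e1]
    have h1 : (1 : ℝ) ≤ 2 ^ ε := Real.one_le_rpow (by norm_num) hε.le
    have h2 : (1 : ℝ) ≤ (d : ℝ) ^ ε := Real.one_le_rpow hd1 hε.le
    have h3 := mul_le_mul h1 h2 zero_le_one (by positivity)
    have h4 := mul_le_mul hC h3 (by norm_num) (by positivity)
    linarith
  refine ⟨⌊C * (((2 * d : ℕ) : ℝ) ^ 20) ^ (ε / 20)⌋₊, ?_, ?_, ?_⟩
  · exact Nat.le_floor (by exact_mod_cast e3)
  · intro n hn hn2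
    apply Nat.le_floor
    refine (h n hn).trans ?_
    apply mul_le_mul_of_nonneg_left _ (by linarith)
    apply Real.rpow_le_rpow (by positivity) _ (by positivity)
    exact_mod_cast hn2
  · refine (Nat.floor_le (by linarith)).trans ?_
    rw [e1]
    exact le_of_eq (by ring)

end Pool.Agent.WSR
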