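import Pool.Agent.WSR.Stmts

/-!
# WSR, EQA: three concurrent lines of the same corner
-/

set_option autoImplicit false

namespace Pool.Agent.WSR

namespace EQA_

/-- comparison of two lines of the same corner through a point with positive coordinates -/
theorem step {X Y a b a' b' : ℝ} (hX : 0 < X) (hY : 0 < Y) (ha : 0 < a) (hb : 0 < b)
    (ha' : 0 < a') (hb' : 0 < b') (h : b * X + a * Y - a * b = 0)
    (h' : b' * X + a' * Y - a' * b' = 0) (hlt : a < a') :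
    X * (a' - a) * b * b' = Y * (b - b') * a * a' ∧ b' < b := by
  have e : X * (a' - a) * b * b' = Y * (b - b') * a * a' := by
    linear_combination (a' * b') * h - (a * b) * h'
  refine ⟨e, ?_⟩
  by_contra hc
  have hc' : b ≤ b' := not_lt.1 hc
  have h1 : 0 < X * (a' - a) * b * b' := by
    have : 0 < a' - a := sub_pos.2 hlt
    positivity
  have h3 : Y * (b - b') ≤ 0 := mul_nonpos_of_nonneg_of_nonpos hY.le (by linarith)
  have h4 : Y * (b - b') * a ≤ 0 := mul_nonpos_of_nonpos_of_nonneg h3 ha.le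
  have h5 : Y * (b - b') * a * a' ≤ 0 := mul_nonpos_of_nonpos_of_nonneg h4 ha'.le
  linarith

theorem mem {d : ℕ} {c : Fin 3} {i j : ℕ} (h : (c, i, j) ∈ lines d) :
    1 ≤ i ∧ i ≤ d ∧ 1 ≤ j ∧ j ≤ d := by
  unfold lines at h
  simp only [Finset.mem_product, Finset.mem_univ, Finset.mem_Icc, true_and] at h
  omega

end EQA_

open EQA_ in
theorem eqa_proof : Stmt_EQA := by
  intro d c i₁ j₁ i₂ j₂ i₃ j₃ _ m1 m2 m3 h12 h23 hC
  obtain ⟨a1, a2, a3, a4⟩ := mem m1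
  obtain ⟨b1, b2, b3, b4⟩ := mem m2
  obtain ⟨c1, c2, c3, c4⟩ := mem m3
  obtain ⟨p, ⟨hp, -⟩, f1, f2, f3⟩ := hC
  have hX : 0 < p (c + 1) := hp _
  have hY : 0 < p (c + 2) := hp _
  simp only [F, L] at f1 f2 f3
  set X := p (c + 1) with hXd
  set Y := p (c + 2) with hYd
  have pos : ∀ n : ℕ, 1 ≤ n → (0 : ℝ) < n := fun n hn => by exact_mod_cast hn
  obtain ⟨e1, l1⟩ := step hX hY (pos i₁ a1) (pos j₁ a3) (pos i₂ b1) (pos j₂ b3) f1 f2
    (by exact_mod_cast h12)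
  obtain ⟨e2, l2⟩ := step hX hY (pos i₂ b1) (pos j₂ b3) (pos i₃ c1) (pos j₃ c3) f2 f3
    (by exact_mod_cast h23)
  have l1' : j₂ < j₁ := by exact_mod_cast l1
  have l2' : j₃ < j₂ := by exact_mod_cast l2
  refine ⟨⟨⟨a1, a2⟩, ⟨a3, a4⟩, ⟨b1, b2⟩, ⟨b3, b4⟩, ⟨c1, c2⟩, c3, c4⟩, h12, h23, l2', l1', ?_⟩
  have key : (j₁ : ℝ) * (i₂ - i₁) * i₃ * (j₂ - j₃) = i₁ * (j₁ - j₂) * j₃ * (i₃ - i₂) := by
    have hne : X * Y * j₂ * i₂ ≠ 0 := by
      have := pos i₂ b1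
      have := pos j₂ b3
      positivity
    apply mul_left_cancel₀ hne
    linear_combination (Y * ((j₂ : ℝ) - j₃) * i₂ * i₃) * e1 - (Y * ((j₁ : ℝ) - j₂) * i₁ * i₂) * e2
  exact_mod_cast key

end Pool.Agent.WSR
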