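import Pool.Agent.WSR.Stmts

set_option autoImplicit false

/-!
# WSR, module EQB: two lines of a corner and a line of the next corner
-/

namespace Pool.Agent.WSR

namespace EQB_

theorem mem_lines {d : ℕ} {c : Fin 3} {i j : ℕ} (h : (c, i, j) ∈ lines d) :
    1 ≤ i ∧ i ≤ d ∧ 1 ≤ j ∧ j + 1 ≤ d := by
  simp only [lines, Finset.mem_product, Finset.mem_univ, true_and, Finset.mem_Icc] at h
  omega

/-- The order of the feet of two crossing lines of the same corner. -/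
theorem order {i₁ j₁ i₂ j₂ y z : ℝ} (hi₁ : 0 < i₁) (hj₁ : 0 < j₁) (hj₂ : 0 < j₂)
    (hy : 0 < y) (hz : 0 < z) (h12 : i₁ < i₂)
    (e1 : j₁ * y + i₁ * z - i₁ * j₁ = 0) (e2 : j₂ * y + i₂ * z - i₂ * j₂ = 0) :
    j₁ * j₂ * y * (i₂ - i₁) = i₁ * i₂ * z * (j₁ - j₂) ∧ j₂ < j₁ := by
  have key : j₁ * j₂ * y * (i₂ - i₁) = i₁ * i₂ * z * (j₁ - j₂) := by
    linear_combination (i₂ * j₂) * e1 - (i₁ * j₁) * e2
  refine ⟨key, ?_⟩
  have h1 : 0 < j₁ * j₂ * y * (i₂ - i₁) := by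
    have : 0 < i₂ - i₁ := by linarith
    positivity
  rw [key] at h1
  have h2 : 0 < i₁ * i₂ * z := by
    have : 0 < i₂ := by linarith
    positivity
  have := (mul_pos_iff_of_pos_left h2).1 h1
  linarith

theorem phi_pos {d a b w : ℝ} (hd : 0 < d) (ha : 0 ≤ a) (had : a < d) (hb : 0 ≤ b) (hbd : b < d)
    (hw : 0 < w) (hwd : w ≤ d) : 0 < a * b + w * (d - a - b) := by
  have key : d * (a * b + w * (d - a - b)) = a * b * (d - w) + w * ((d - a) * (d - b)) := by ring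
  have h1 : 0 ≤ a * b * (d - w) := mul_nonneg (mul_nonneg ha hb) (by linarith)
  have h2 : 0 < w * ((d - a) * (d - b)) := mul_pos hw (mul_pos (by linarith) (by linarith))
  have h3 : 0 < d * (a * b + w * (d - a - b)) := by rw [key]; linarith
  exact (mul_pos_iff_of_pos_left hd).1 h3

/-- The crossing criterion of two lines of different corners. -/
theorem cross {d i₁ j₁ i₃ j₃ x y z : ℝ} (hd : 0 < d) (hi₁ : 0 < i₁) (hj₁ : 0 < j₁)
    (hj₁d : j₁ < d) (hi₃ : 0 < i₃) (hi₃d : i₃ ≤ d) (hj₃ : 0 < j₃) (hj₃d : j₃ < d)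
    (hy : 0 < y) (hz : 0 < z) (hs : x + y + z = d)
    (e1 : j₁ * y + i₁ * z - i₁ * j₁ = 0) (e3 : j₃ * z + i₃ * x - i₃ * j₃ = 0) :
    d < i₁ + j₃ := by
  by_contra hcon
  push Not at hcon
  -- `t = z / j₁`
  have hzj : z < j₁ := by
    have h0 : 0 < i₁ * (j₁ - z) := by
      have : i₁ * (j₁ - z) = j₁ * y := by linear_combination -e1
      rw [this]; positivity
    have := (mul_pos_iff_of_pos_left hi₁).1 h0
    linarith
  -- `F₃` at the foot of line 1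
  have hphi := phi_pos hd hj₃.le hj₃d hj₁.le hj₁d hi₃ hi₃d
  have key : (j₁ - z) * (i₃ * (d - i₁ - j₃)) + z * (j₃ * j₁ + i₃ * (d - j₃ - j₁)) = 0 := by
    have hx : x = d - y - z := by linarith
    subst hx
    linear_combination j₁ * e3 + i₃ * e1
  have h1 : 0 ≤ (j₁ - z) * (i₃ * (d - i₁ - j₃)) :=
    mul_nonneg (by linarith) (mul_nonneg hi₃.le (by linarith))
  have h2 : 0 < z * (j₃ * j₁ + i₃ * (d - j₃ - j₁)) := mul_pos hz hphi
  linarith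

/-- The equation. -/
theorem eqn {d i₁ j₁ i₂ j₂ i₃ j₃ x y z : ℝ} (hj₂ : 0 < j₂)
    (hy : 0 < y) (hs : x + y + z = d)
    (e2 : j₂ * y + i₂ * z - i₂ * j₂ = 0)
    (e3 : j₃ * z + i₃ * x - i₃ * j₃ = 0)
    (key : j₁ * j₂ * y * (i₂ - i₁) = i₁ * i₂ * z * (j₁ - j₂)) :
    j₁ * (i₂ - i₁) * (j₃ * j₂ + i₃ * (d - j₃ - j₂)) =
      i₁ * (j₁ - j₂) * i₃ * (i₂ + j₃ - d) := by
  have hx : x = d - y - z := by linarith
  subst hx
  have k1 : z * (j₃ * j₂ + i₃ * (d - j₃ - j₂)) = (j₂ - z) * (i₃ * (i₂ + j₃ - d)) := by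
    linear_combination j₂ * e3 + i₃ * e2
  have k2 : i₂ * (j₂ - z) = j₂ * y := by linear_combination -e2
  have k3 : (i₂ * (j₂ - z)) * (j₁ * (i₂ - i₁) * (j₃ * j₂ + i₃ * (d - j₃ - j₂))) =
      (i₂ * (j₂ - z)) * (i₁ * (j₁ - j₂) * i₃ * (i₂ + j₃ - d)) := by
    calc (i₂ * (j₂ - z)) * (j₁ * (i₂ - i₁) * (j₃ * j₂ + i₃ * (d - j₃ - j₂)))
        = (j₁ * j₂ * y * (i₂ - i₁)) * (j₃ * j₂ + i₃ * (d - j₃ - j₂)) := by rw [k2]; ring
      _ = (i₁ * i₂ * (j₁ - j₂)) * (z * (j₃ * j₂ + i₃ * (d - j₃ - j₂))) := by rw [key]; ring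
      _ = (i₂ * (j₂ - z)) * (i₁ * (j₁ - j₂) * i₃ * (i₂ + j₃ - d)) := by rw [k1]; ring
  have hne : i₂ * (j₂ - z) ≠ 0 := by
    rw [k2]; positivity
  exact mul_left_cancel₀ hne k3

end EQB_

open EQB_ in
theorem eqb_proof : Stmt_EQB := by
  intro d c i₁ j₁ i₂ j₂ i₃ j₃ hd h1 h2 h3 h12 hC
  obtain ⟨p, ⟨hpos, hsum⟩, e1, e2, e3⟩ := hC
  obtain ⟨a1, b1, c1, d1⟩ := mem_lines h1
  obtain ⟨a2, b2, c2, d2⟩ := mem_lines h2
  obtain ⟨a3, b3, c3, d3⟩ := mem_lines h3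
  have hs : p c + p (c + 1) + p (c + 2) = d := by
    rw [← hsum]
    fin_cases c <;> simp [add_comm, add_left_comm] <;> ring
  have hc1 : c + 1 + 1 = c + 2 := by clear * - ; revert c; decide
  have hc2 : c + 1 + 2 = c := by clear * - ; revert c; decide
  simp only [F, L, hc1, hc2] at e1 e2 e3
  have hy := hpos (c + 1)
  have hz := hpos (c + 2)
  generalize p c = x at *
  generalize p (c + 1) = y at *
  generalize p (c + 2) = z at *
  have hdR : (0 : ℝ) < d := by exact_mod_cast hd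
  have A1 : (0 : ℝ) < i₁ := by exact_mod_cast a1
  have A2 : (0 : ℝ) < i₂ := by exact_mod_cast a2
  have A3 : (0 : ℝ) < i₃ := by exact_mod_cast a3
  have B2 : (i₂ : ℝ) ≤ d := by exact_mod_cast b2
  have B3 : (i₃ : ℝ) ≤ d := by exact_mod_cast b3
  have C1 : (0 : ℝ) < j₁ := by exact_mod_cast c1
  have C2 : (0 : ℝ) < j₂ := by exact_mod_cast c2
  have C3 : (0 : ℝ) < j₃ := by exact_mod_cast c3
  have D1 : (j₁ : ℝ) < d := by exact_mod_cast d1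
  have D2 : (j₂ : ℝ) < d := by exact_mod_cast d2
  have D3 : (j₃ : ℝ) < d := by exact_mod_cast d3
  have H12 : (i₁ : ℝ) < i₂ := by exact_mod_cast h12
  obtain ⟨key, hj⟩ := order A1 C1 C2 hy hz H12 e1 e2
  have hcr := cross hdR A1 C1 D1 A3 B3 C3 D3 hy hz hs e1 e3
  have heq := eqn C2 hy hs e2 e3 key
  have hp1 := phi_pos hdR C3.le D3 C2.le D2 A3 B3
  have hp2 := phi_pos hdR C1.le D1 (b := (d : ℝ) - i₂) (by linarith) (by linarith) A3 B3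
  refine ⟨⟨⟨a1, b1⟩, ⟨c1, by omega⟩, ⟨a2, b2⟩, ⟨c2, by omega⟩, ⟨a3, b3⟩, ⟨c3, by omega⟩⟩, h12,
    by exact_mod_cast hj, ?_, ?_, ?_, ?_⟩
  · have : ((d : ℕ) : ℝ) < ((i₁ + j₃ : ℕ) : ℝ) := by push_cast; exact hcr
    exact_mod_cast this
  · simp only [Phi]
    have : ((0 : ℤ) : ℝ) < (((j₃ : ℤ) * j₂ + i₃ * (d - j₃ - j₂) : ℤ) : ℝ) := by
      push_cast; exact hp1
    exact_mod_cast this
  · simp only [Phi]
    have : ((0 : ℤ) : ℝ) < (((j₁ : ℤ) * (d - i₂) + i₃ * (d - j₁ - (d - i₂)) : ℤ) : ℝ) := by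
      push_cast; exact hp2
    exact_mod_cast this
  · simp only [Phi]
    have : (((j₁ : ℤ) * (i₂ - i₁) * (j₃ * j₂ + i₃ * (d - j₃ - j₂)) : ℤ) : ℝ) =
        (((i₁ : ℤ) * (j₁ - j₂) * i₃ * (i₂ + j₃ - d) : ℤ) : ℝ) := by
      push_cast; exact heq
    exact_mod_cast this

end Pool.Agent.WSR
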