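import Pool.Agent.WSR.Stmts

set_option autoImplicit false

/-!
# WSR, module EQC: three concurrent lines of different corners
-/

namespace Pool.Agent.WSR

namespace EQC_

/-- two concurrent lines of different corners -/
theorem cross_lt (d u z w v a b e : ℝ) (ha : 0 < a) (hb : 0 < b) (he : 0 < e) (hs : a + b + e = d)
    (h1 : z * b + u * e - u * z = 0) (h2 : v * e + w * a - w * v = 0) (hu : 0 < u) (hz : 0 < z)
    (hw : 0 < w) (hv : 0 < v) (hzd : z < d) (hwd : w ≤ d) : d < u + v := by
  by_contra hcon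
  push Not at hcon
  have hk : (u + v - d) * (z * w) = e * (u * w + v * z - z * w) := by
    subst hs
    linear_combination (-w) * h1 + (-z) * h2
  have hn : d * (z * w - u * w - v * z) < (d - u - v) * (z * w) := by
    have h3 : 0 < u * w * (d - z) := by
      have : 0 < d - z := by linarith
      positivity
    have h4 : 0 ≤ v * z * (d - w) := by
      have : 0 ≤ d - w := by linarith
      positivity
    nlinarith
  have h5 : (d - e) * (z * w - u * w - v * z) < 0 := by nlinarith
  have h6 : 0 < d - e := by linarith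
  have h7 : z * w - u * w - v * z < 0 := by
    by_contra h8
    push Not at h8
    have := mul_nonneg h6.le h8
    linarith
  have h8 : 0 ≤ (d - u - v) * (z * w) := mul_nonneg (by linarith) (by positivity)
  have h9 : e * (z * w - u * w - v * z) < 0 := mul_neg_of_pos_of_neg he h7
  nlinarith

theorem phi_pos (d a b w : ℝ) (hd : 0 < d)
    (h : 0 < a * b * (d - w) + (d - a) * (d - b) * w) : 0 < a * b + w * (d - a - b) := by
  have h1 : d * (a * b + w * (d - a - b)) = a * b * (d - w) + (d - a) * (d - b) * w := by ring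
  rw [← h1] at h
  exact (mul_pos_iff_of_pos_left hd).mp h

theorem core (d u z w v y x : ℕ) (a b e : ℝ) (ha : 0 < a) (hb : 0 < b) (he : 0 < e)
    (hs : a + b + e = d)
    (h1 : (z : ℝ) * b + u * e - u * z = 0) (h2 : (v : ℝ) * e + w * a - w * v = 0)
    (h3 : (x : ℝ) * a + y * b - y * x = 0)
    (hu1 : 1 ≤ u) (hu : u ≤ d) (hz1 : 1 ≤ z) (hz : z ≤ d - 1) (hw1 : 1 ≤ w) (hw : w ≤ d)
    (hv1 : 1 ≤ v) (hv : v ≤ d - 1) (hy1 : 1 ≤ y) (hy : y ≤ d) (hx1 : 1 ≤ x) (hx : x ≤ d - 1) :
    PC d (u, z, w, v, y, x) := by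
  have hd1 : 1 ≤ d := hu1.trans hu
  have ru : (1 : ℝ) ≤ u := by exact_mod_cast hu1
  have rz : (1 : ℝ) ≤ z := by exact_mod_cast hz1
  have rw' : (1 : ℝ) ≤ w := by exact_mod_cast hw1
  have rv : (1 : ℝ) ≤ v := by exact_mod_cast hv1
  have ry : (1 : ℝ) ≤ y := by exact_mod_cast hy1
  have rx : (1 : ℝ) ≤ x := by exact_mod_cast hx1
  have su : (u : ℝ) ≤ d := by exact_mod_cast hu
  have sw : (w : ℝ) ≤ d := by exact_mod_cast hw
  have sy : (y : ℝ) ≤ d := by exact_mod_cast hy
  have sz : (z : ℝ) + 1 ≤ d := by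
    have : z + 1 ≤ d := by omega
    exact_mod_cast this
  have sv : (v : ℝ) + 1 ≤ d := by
    have : v + 1 ≤ d := by omega
    exact_mod_cast this
  have sx : (x : ℝ) + 1 ≤ d := by
    have : x + 1 ≤ d := by omega
    exact_mod_cast this
  have c1 : (d : ℝ) < u + v := cross_lt d u z w v a b e ha hb he hs h1 h2 (by linarith)
    (by linarith) (by linarith) (by linarith) (by linarith) sw
  have c2 : (d : ℝ) < w + x := cross_lt d w v y x b e a hb he ha (by linarith)
    (by linarith) (by linarith) (by linarith) (by linarith) (by linarith) (by linarith)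
    (by linarith) sy
  have c3 : (d : ℝ) < y + z := cross_lt d y x u z e a b he ha hb (by linarith)
    (by linarith) (by linarith) (by linarith) (by linarith) (by linarith) (by linarith)
    (by linarith) su
  have d0 : (0 : ℝ) < d := by linarith
  have p1 : (0 : ℝ) < v * z + w * (d - v - z) := by
    refine phi_pos d v z w d0 ?_
    have t1 : 0 ≤ (v : ℝ) * z * (d - w) := mul_nonneg (by positivity) (by linarith)
    have t2 : 0 < ((d : ℝ) - v) * (d - z) * w :=
      mul_pos (mul_pos (by linarith) (by linarith)) (by linarith)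
    linarith
  have p2 : (0 : ℝ) < u * y + x * (d - u - y) := by
    refine phi_pos d u y x d0 ?_
    have t1 : 0 < (u : ℝ) * y * (d - x) := mul_pos (by positivity) (by linarith)
    have t2 : 0 ≤ ((d : ℝ) - u) * (d - y) * x :=
      mul_nonneg (mul_nonneg (by linarith) (by linarith)) (by linarith)
    linarith
  have hez : e < z := by
    by_contra hh
    push Not at hh
    have t1 : (u : ℝ) * z ≤ u * e := mul_le_mul_of_nonneg_left hh (by linarith)
    have t2 : 0 < (z : ℝ) * b := by positivity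
    linarith
  have e1 : e * (v * z + w * (d - v - z)) = (z - e) * (w * (u + v - d)) := by
    have : (d : ℝ) = a + b + e := hs.symm
    rw [this]
    linear_combination (z : ℝ) * h2 + (w : ℝ) * h1
  have e2 : e * (x * (z + y - d)) = (z - e) * (u * y + x * (d - u - y)) := by
    have : (d : ℝ) = a + b + e := hs.symm
    rw [this]
    linear_combination (-(z : ℝ)) * h3 + ((y : ℝ) - x) * h1
  have hmain : (w : ℝ) * x * (u + v - d) * (z + y - d) =
      (v * z + w * (d - v - z)) * (u * y + x * (d - u - y)) := by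
    have hne : e * (z - e) ≠ 0 := mul_ne_zero he.ne' (by linarith)
    apply mul_left_cancel₀ hne
    calc e * (z - e) * ((w : ℝ) * x * (u + v - d) * (z + y - d))
        = ((z - e) * (w * (u + v - d))) * (e * (x * (z + y - d))) := by ring
      _ = (e * (v * z + w * (d - v - z))) * ((z - e) * (u * y + x * (d - u - y))) := by
          rw [← e1, e2]
      _ = _ := by ring
  refine ⟨⟨⟨hu1, hu⟩, ⟨hz1, by omega⟩, ⟨hw1, hw⟩, ⟨hv1, by omega⟩, ⟨hy1, hy⟩,
    ⟨hx1, by omega⟩⟩, by exact_mod_cast c1, by exact_mod_cast c2, by exact_mod_cast c3, ?_, ?_, ?_⟩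
  · have : ((Phi d v z w : ℤ) : ℝ) = v * z + w * (d - v - z) := by
      unfold Phi; push_cast; ring
    rw [← this] at p1
    exact_mod_cast p1
  · have : ((Phi d u y x : ℤ) : ℝ) = u * y + x * (d - u - y) := by
      unfold Phi; push_cast; ring
    rw [← this] at p2
    exact_mod_cast p2
  · have : (((w : ℤ) * x * (u + v - d) * (z + y - d) : ℤ) : ℝ) =
        ((Phi d v z w * Phi d u y x : ℤ) : ℝ) := by
      unfold Phi; push_cast; exact hmain
    exact_mod_cast this

end EQC_

open EQC_ in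
theorem eqc_proof : Stmt_EQC := by
  intro d c i₁ j₁ i₂ j₂ i₃ j₃ _ hl1 hl2 hl3 hC
  simp only [lines, Finset.mem_product, Finset.mem_Icc, Finset.mem_univ, true_and] at hl1 hl2 hl3
  obtain ⟨p, ⟨hpos, hsum⟩, hF1, hF2, hF3⟩ := hC
  have hs : p c + p (c + 1) + p (c + 2) = d := by
    rw [← hsum]
    fin_cases c
    · rfl
    · show p 1 + p 2 + p 0 = _; ring
    · show p 2 + p 0 + p 1 = _; ring
  have k1 : (c + 1) + 1 = c + 2 := by fin_cases c <;> rfl
  have k2 : (c + 1) + 2 = c := by fin_cases c <;> rfl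
  have k3 : (c + 2) + 1 = c := by fin_cases c <;> rfl
  have k4 : (c + 2) + 2 = c + 1 := by fin_cases c <;> rfl
  simp only [F, L] at hF1 hF2 hF3
  rw [k1, k2] at hF2
  rw [k3, k4] at hF3
  exact core d i₁ j₁ i₂ j₂ i₃ j₃ (p c) (p (c + 1)) (p (c + 2)) (hpos c) (hpos _) (hpos _) hs
    hF1 hF2 hF3 hl1.1.1 hl1.1.2 hl1.2.1 hl1.2.2 hl2.1.1 hl2.1.2 hl2.2.1 hl2.2.2
    hl3.1.1 hl3.1.2 hl3.2.1 hl3.2.2

end Pool.Agent.WSR
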