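import Pool.Agent.WSR.Stmts

set_option autoImplicit false

namespace Pool.Agent.WSR

namespace EQD_

/-- The real form of the statement in the coordinates of the corner. -/
theorem core (d i₁ j₁ i₂ j₂ i₃ j₃ x y z : ℝ)
    (hi₁ : 1 ≤ i₁) (hi₁' : i₁ ≤ d) (hj₁ : 1 ≤ j₁)
    (hi₂ : 1 ≤ i₂) (hi₂' : i₂ ≤ d) (hj₂' : j₂ < d)
    (hi₃ : 1 ≤ i₃) (hi₃' : i₃ ≤ d) (hj₃ : 1 ≤ j₃) (hj₃' : j₃ < d)
    (hj : j₁ < j₂) (hy : 0 < y) (hz : 0 < z) (hs : x + y + z = d)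
    (f1 : j₁ * y + i₁ * z - i₁ * j₁ = 0) (f2 : j₂ * y + i₂ * z - i₂ * j₂ = 0)
    (f3 : j₃ * x + i₃ * y - i₃ * j₃ = 0) :
    i₂ < i₁ ∧ d < j₁ + i₃ ∧ 0 < i₃ * i₂ + j₃ * (d - i₃ - i₂) ∧
      0 < i₁ * (d - j₂) + j₃ * (d - i₁ - (d - j₂)) ∧
      i₁ * (j₂ - j₁) * (i₃ * i₂ + j₃ * (d - i₃ - i₂)) =
        j₁ * (i₁ - i₂) * j₃ * (j₂ + i₃ - d) := by
  have hlt : i₂ < i₁ := by
    -- `i₁ i₂ (j₂ * f1 - j₁ * f2)` type combination
    have e : y * (j₁ * j₂) * (i₂ - i₁) + z * (i₁ * i₂) * (j₂ - j₁) = 0 := by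
      linear_combination (i₂ * j₂) * f1 - (i₁ * j₁) * f2
    by_contra hcon
    push Not at hcon
    have q1 : 0 < i₁ := by linarith
    have q2 : 0 < i₂ := by linarith
    have q3 : 0 < j₁ := by linarith
    have q4 : 0 < j₂ := by linarith
    have a1 : 0 ≤ y * (j₁ * j₂) * (i₂ - i₁) :=
      mul_nonneg (by positivity) (by linarith)
    have a2 : 0 < z * (i₁ * i₂) * (j₂ - j₁) :=
      mul_pos (by positivity) (by linarith)
    linarith
  have hx : x = d - y - z := by linarith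
  subst hx
  -- the value at the foot on the side opposite to the third corner
  have hfoot : ∀ i : ℝ, 1 ≤ i → i ≤ d → 0 < i₃ * i + j₃ * (d - i₃ - i) := by
    intro i h1 h2
    have e : i₃ * i + j₃ * (d - i₃ - i) = (d - i) * (j₃ * (d - i₃)) / d + i * (i₃ * (d - j₃)) / d := by
      have hd : d ≠ 0 := by linarith
      field_simp
      ring
    rw [e]
    have hd : 0 < d := by linarith
    have b1 : 0 ≤ (d - i) * (j₃ * (d - i₃)) / d :=
      div_nonneg (mul_nonneg (by linarith) (mul_nonneg (by linarith) (by linarith))) hd.le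
    have b2 : 0 < i * (i₃ * (d - j₃)) / d :=
      div_pos (mul_pos (by linarith) (mul_pos (by linarith) (by linarith))) hd
    linarith
  refine ⟨hlt, ?_, hfoot i₂ hi₂ hi₂', ?_, ?_⟩
  · -- `j₁ i₁ F3 = j₁ y * (foot) + i₁ z * j₃ (d - j₁ - i₃)`
    by_contra hcon
    push Not at hcon
    have h1 := hfoot i₁ hi₁ hi₁'
    have e : j₁ * y * (i₃ * i₁ + j₃ * (d - i₃ - i₁)) + i₁ * z * (j₃ * (d - j₁ - i₃)) = 0 := by
      linear_combination (j₃ * (d - i₃)) * f1 + (i₁ * j₁) * f3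
    have a1 : 0 < j₁ * y * (i₃ * i₁ + j₃ * (d - i₃ - i₁)) :=
      mul_pos (mul_pos (by linarith) hy) h1
    have a2 : 0 ≤ i₁ * z * (j₃ * (d - j₁ - i₃)) :=
      mul_nonneg (mul_nonneg (by linarith) hz.le) (mul_nonneg (by linarith) (by linarith))
    linarith
  · by_cases hc : d - j₂ - j₃ ≤ 0
    · nlinarith [mul_nonneg (sub_nonneg.2 hi₁') (sub_nonneg.2 hc),
        mul_pos (sub_pos.2 hj₂') (sub_pos.2 hj₃')]
    · push Not at hc
      have a1 : 0 < i₁ * (d - j₂ - j₃) := mul_pos (by linarith) hc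
      have a2 : 0 < j₃ * j₂ := mul_pos (by linarith) (by linarith)
      nlinarith
  · -- the resultant
    have hD : 0 < i₁ * j₂ - i₂ * j₁ := by nlinarith
    have ey : (i₁ * j₂ - i₂ * j₁) * y = i₁ * i₂ * (j₂ - j₁) := by
      linear_combination i₁ * f2 - i₂ * f1
    have ez : (i₁ * j₂ - i₂ * j₁) * z = j₁ * j₂ * (i₁ - i₂) := by
      linear_combination j₂ * f1 - j₁ * f2
    linear_combination (i₁ * j₂ - i₂ * j₁) * f3 + (j₃ - i₃) * ey + j₃ * ez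

end EQD_

theorem eqd_proof : Stmt_EQD := by
  intro d c i₁ j₁ i₂ j₂ i₃ j₃ hd h1 h2 h3 hj hC
  obtain ⟨p, ⟨hpos, hsum⟩, f1, f2, f3⟩ := hC
  simp only [lines, Finset.mem_product, Finset.mem_univ, true_and, Finset.mem_Icc] at h1 h2 h3
  obtain ⟨⟨a1, a2⟩, a3, a4⟩ := h1
  obtain ⟨⟨b1, b2⟩, b3, b4⟩ := h2
  obtain ⟨⟨c1, c2⟩, c3, c4⟩ := h3
  have e1 : c + 2 + 1 = c := by fin_cases c <;> rfl
  have e2 : c + 2 + 2 = c + 1 := by fin_cases c <;> rfl
  have hs : p c + p (c + 1) + p (c + 2) = d := by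
    fin_cases c
    · exact hsum
    · have : p 1 + p 2 + p 0 = d := by linarith
      exact this
    · have : p 2 + p 0 + p 1 = d := by linarith
      exact this
  simp only [F, L] at f1 f2 f3
  rw [e1, e2] at f3
  have hk : ∀ j : ℕ, j ≤ d - 1 → (j : ℝ) < d := fun j h => by
    have : j < d := by omega
    exact_mod_cast this
  have key := EQD_.core (d : ℝ) i₁ j₁ i₂ j₂ i₃ j₃ (p c) (p (c + 1)) (p (c + 2))
    (by exact_mod_cast a1) (by exact_mod_cast a2) (by exact_mod_cast a3)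
    (by exact_mod_cast b1) (by exact_mod_cast b2) (hk _ b4)
    (by exact_mod_cast c1) (by exact_mod_cast c2) (by exact_mod_cast c3) (hk _ c4)
    (by exact_mod_cast hj) (hpos _) (hpos _) hs f1 f2 f3
  obtain ⟨k1, k2, k3, k4, k5⟩ := key
  refine ⟨⟨⟨a3, by omega⟩, ⟨a1, a2⟩, ⟨b3, by omega⟩, ⟨b1, b2⟩, ⟨c3, by omega⟩, ⟨c1, c2⟩⟩, hj,
    by exact_mod_cast k1, by exact_mod_cast k2, ?_, ?_, ?_⟩
  · simp only [Phi]
    exact_mod_cast k3
  · simp only [Phi]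
    exact_mod_cast k4
  · simp only [Phi]
    exact_mod_cast k5

end Pool.Agent.WSR
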