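import Pool.Agent.WSR.Stmts

set_option autoImplicit false

/-! # FAC: a divisor of a product of four factors -/

namespace Pool.Agent.WSR

theorem fac_proof : Stmt_FAC := by
  intro n x₁ x₂ x₃ x₄ _ h
  obtain ⟨a, n₄, ha, h₄, rfl⟩ := exists_dvd_and_dvd_of_dvd_mul h
  obtain ⟨b, n₃, hb, h₃, rfl⟩ := exists_dvd_and_dvd_of_dvd_mul ha
  obtain ⟨n₁, n₂, h₁, h₂, rfl⟩ := exists_dvd_and_dvd_of_dvd_mul hb
  exact ⟨n₁, n₂, n₃, n₄, h₁, h₂, h₃, h₄, rfl⟩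

end Pool.Agent.WSR
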