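import Pool.Agent.WSR.Stmts

set_option autoImplicit false

/-!
# WSR: the module FIN (assembly)
-/

open scoped BigOperators Topology

namespace Pool.Agent.WSR

namespace FIN_

/-- The map of the connected components induced by a homeomorphism. -/
noncomputable def ccEquiv {X Y : Type*} [TopologicalSpace X] [TopologicalSpace Y] (e : X ≃ₜ Y) :
    ConnectedComponents X ≃ ConnectedComponents Y where
  toFun := e.continuous.connectedComponentsMap
  invFun := e.symm.continuous.connectedComponentsMap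
  left_inv := by
    intro x
    obtain ⟨x, rfl⟩ := ConnectedComponents.surjective_coe x
    rw [Continuous.connectedComponentsMap_mk, Continuous.connectedComponentsMap_mk]
    simp
  right_inv := by
    intro x
    obtain ⟨x, rfl⟩ := ConnectedComponents.surjective_coe x
    rw [Continuous.connectedComponentsMap_mk, Continuous.connectedComponentsMap_mk]
    simp

theorem tri_convex (d : ℕ) : Convex ℝ (Tri d) := by
  intro p hp q hq a b ha hb hab
  refine ⟨fun c => ?_, ?_⟩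
  · have h1 := hp.1 c
    have h2 := hq.1 c
    simp only [Pi.add_apply, Pi.smul_apply, smul_eq_mul]
    rcases ha.eq_or_lt with h | h
    · have hb1 : b = 1 := by linarith
      rw [← h, hb1]; linarith
    · have := mul_pos h h1
      have := mul_nonneg hb h2.le
      linarith
  · have h1 := hp.2
    have h2 := hq.2
    simp only [Pi.add_apply, Pi.smul_apply, smul_eq_mul]
    linear_combination a * h1 + b * h2 + (d : ℝ) * hab

theorem card_eq (h1 : Stmt_HOM) (h2 : Stmt_CMP) (b : AffineBasis (Fin 3) ℝ E2) (d : ℕ)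
    (hd : 1 ≤ d) : Finite (ConnectedComponents (body b d)) ∧ R b d = N (Tri d) (lines d) := by
  obtain ⟨e⟩ := h1 b d hd
  obtain ⟨hf, hc⟩ := h2 (Tri d) (lines d) (tri_convex d)
  have E := ccEquiv e
  refine ⟨?_, ?_⟩
  · exact Finite.of_equiv _ E.symm
  · unfold R
    rw [Nat.card_congr E, hc]

theorem two_sided (h3 : Stmt_ARRB) (h4 : Stmt_CNT) (d : ℕ) (hd : 1 ≤ d) :
    (N (Tri d) (lines d) : ℝ) ≤ Pd d ∧
      Pd d ≤ (N (Tri d) (lines d) : ℝ) + ((T3s d (lines d)).card : ℝ) := by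
  obtain ⟨ha, hb⟩ := h3 d (lines d) hd (Finset.Subset.refl _)
  obtain ⟨hc, hx⟩ := h4 d hd
  have ha' : (2 : ℝ) * (N (Tri d) (lines d) : ℝ) ≤
      2 + 2 * ((lines d).card : ℝ) + (X2 d (lines d) : ℝ) := by exact_mod_cast ha
  have hb' : (2 : ℝ) + 2 * ((lines d).card : ℝ) + (X2 d (lines d) : ℝ) ≤
      2 * (N (Tri d) (lines d) : ℝ) + 2 * ((T3s d (lines d)).card : ℝ) := by exact_mod_cast hb
  have hc' : ((lines d).card : ℝ) = 3 * (d : ℝ) * ((d : ℝ) - 1) := by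
    rw [hc]; push_cast [Nat.cast_sub hd]; ring
  have hx' : (2 : ℝ) * (X2 d (lines d) : ℝ) =
      3 * (d : ℝ) * ((d : ℝ) - 1) ^ 2 * (3 * (d : ℝ) - 2) := by
    have h32 : 2 ≤ 3 * d := by omega
    have := congrArg (fun n : ℕ => (n : ℝ)) hx
    push_cast [Nat.cast_sub hd, Nat.cast_sub h32] at this
    linarith
  have hP : 2 * Pd d = 2 + 2 * ((lines d).card : ℝ) + (X2 d (lines d) : ℝ) := by
    unfold Pd
    rw [hc']
    linear_combination (-1 / 2) * hx'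
  constructor
  · linarith
  · linarith

theorem lower (h3 : Stmt_ARRB) (h4 : Stmt_CNT) (h5 : Stmt_DIV) (h6 : Stmt_TRI) (ε : ℝ)
    (hε : 0 < ε) : ∃ C : ℝ, ∀ d : ℕ, 1 ≤ d →
      Pd d - C * (d : ℝ) ^ (3 + ε) ≤ (N (Tri d) (lines d) : ℝ) := by
  obtain ⟨C, hC, hB⟩ := h5 (ε / 4) (by positivity)
  refine ⟨468 * C ^ 4, fun d hd => ?_⟩
  obtain ⟨B, hB1, hDB, hBC⟩ := hB d hd
  have hT := h6 d B hd hB1 hDB
  have hT' : ((T3s d (lines d)).card : ℝ) ≤ 468 * (d : ℝ) ^ 3 * (B : ℝ) ^ 4 := by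
    exact_mod_cast hT
  have h2 := (two_sided h3 h4 d hd).2
  have hd0 : (0 : ℝ) < (d : ℝ) := by exact_mod_cast hd
  have hB4 : (B : ℝ) ^ 4 ≤ C ^ 4 * (d : ℝ) ^ ε := by
    have h := pow_le_pow_left₀ (Nat.cast_nonneg B) hBC 4
    rw [mul_pow, ← Real.rpow_mul_natCast hd0.le] at h
    have he : ε / 4 * ((4 : ℕ) : ℝ) = ε := by push_cast; ring
    rwa [he] at h
  have h7 : (d : ℝ) ^ (3 + ε) = (d : ℝ) ^ 3 * (d : ℝ) ^ ε := by
    rw [Real.rpow_add hd0]
    congr 1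
    exact_mod_cast Real.rpow_natCast (d : ℝ) 3
  have h8 : 468 * (d : ℝ) ^ 3 * (B : ℝ) ^ 4 ≤ 468 * C ^ 4 * (d : ℝ) ^ (3 + ε) := by
    rw [h7]
    have h9 : (0 : ℝ) ≤ 468 * (d : ℝ) ^ 3 := by positivity
    have := mul_le_mul_of_nonneg_left hB4 h9
    linarith
  linarith

theorem tendsto_Pd : Filter.Tendsto (fun d : ℕ => Pd d / (d : ℝ) ^ 4) Filter.atTop
    (𝓝 (9 / 4)) := by
  have h1 : Filter.Tendsto (fun d : ℕ => 1 / (d : ℝ)) Filter.atTop (𝓝 0) :=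
    tendsto_one_div_atTop_nhds_zero_nat
  have h2 : Filter.Tendsto (fun d : ℕ => (1 / (d : ℝ)) ^ 4 +
      3 * (1 / (d : ℝ)) ^ 2 * (1 - 1 / (d : ℝ)) +
      3 / 4 * (1 - 1 / (d : ℝ)) ^ 2 * (3 - 2 * (1 / (d : ℝ)))) Filter.atTop
      (𝓝 ((0 : ℝ) ^ 4 + 3 * 0 ^ 2 * (1 - 0) + 3 / 4 * (1 - 0) ^ 2 * (3 - 2 * 0))) := by
    refine Filter.Tendsto.add (Filter.Tendsto.add (h1.pow 4)
      ((h1.pow 2).const_mul 3 |>.mul (h1.const_sub 1))) ?_
    exact (((h1.const_sub 1).pow 2).const_mul (3 / 4)).mul ((h1.const_mul 2).const_sub 3)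
  have h3 : ((0 : ℝ) ^ 4 + 3 * 0 ^ 2 * (1 - 0) + 3 / 4 * (1 - 0) ^ 2 * (3 - 2 * 0)) = 9 / 4 := by
    norm_num
  rw [h3] at h2
  refine h2.congr' ?_
  filter_upwards [Filter.eventually_ge_atTop 1] with d hd
  have hd0 : (d : ℝ) ≠ 0 := by
    have : (0 : ℝ) < (d : ℝ) := by exact_mod_cast hd
    exact this.ne'
  unfold Pd
  field_simp

theorem tendsto_err (C : ℝ) : Filter.Tendsto
    (fun d : ℕ => Pd d / (d : ℝ) ^ 4 - C * (d : ℝ) ^ (-(1 / 2) : ℝ)) Filter.atTop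
    (𝓝 (9 / 4)) := by
  have h1 : Filter.Tendsto (fun d : ℕ => (d : ℝ) ^ (-(1 / 2) : ℝ)) Filter.atTop (𝓝 0) :=
    (tendsto_rpow_neg_atTop (by norm_num : (0 : ℝ) < 1 / 2)).comp tendsto_natCast_atTop_atTop
  have h2 := tendsto_Pd.sub (h1.const_mul C)
  simpa using h2

end FIN_

open FIN_ in
theorem fin_proof (h1 : Stmt_HOM) (h2 : Stmt_CMP) (h3 : Stmt_ARRB) (h4 : Stmt_CNT)
    (h5 : Stmt_DIV) (h6 : Stmt_TRI) : Stmt_FIN := by
  refine ⟨?_, ?_, ?_⟩
  · intro d b hd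
    obtain ⟨hf, hR⟩ := card_eq h1 h2 b d hd
    refine ⟨hf, ?_⟩
    rw [hR]
    exact (two_sided h3 h4 d hd).1
  · intro ε hε
    obtain ⟨C, hC⟩ := lower h3 h4 h5 h6 ε hε
    refine ⟨C, fun d b hd => ?_⟩
    rw [(card_eq h1 h2 b d hd).2]
    exact hC d hd
  · intro b
    obtain ⟨C, hC⟩ := lower h3 h4 h5 h6 (1 / 2) (by norm_num)
    refine tendsto_of_tendsto_of_tendsto_of_le_of_le' (tendsto_err C) tendsto_Pd ?_ ?_
    · filter_upwards [Filter.eventually_ge_atTop 1] with d hd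
      rw [(card_eq h1 h2 b d hd).2]
      have hd0 : (0 : ℝ) < (d : ℝ) := by exact_mod_cast hd
      have h4' : (0 : ℝ) < (d : ℝ) ^ 4 := by positivity
      rw [le_div_iff₀ h4']
      have h := hC d hd
      have h7 : (d : ℝ) ^ (-(1 / 2) : ℝ) * (d : ℝ) ^ 4 = (d : ℝ) ^ (3 + 1 / 2 : ℝ) := by
        rw [← Real.rpow_natCast (d : ℝ) 4, ← Real.rpow_add hd0]
        norm_num
      have h8 : (Pd d / (d : ℝ) ^ 4 - C * (d : ℝ) ^ (-(1 / 2) : ℝ)) * (d : ℝ) ^ 4 =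
          Pd d - C * (d : ℝ) ^ (3 + 1 / 2 : ℝ) := by
        rw [sub_mul, div_mul_cancel₀ _ h4'.ne', mul_assoc, h7]
      rw [h8]
      exact h
    · filter_upwards [Filter.eventually_ge_atTop 1] with d hd
      rw [(card_eq h1 h2 b d hd).2]
      have hd0 : (0 : ℝ) < (d : ℝ) := by exact_mod_cast hd
      have h4' : (0 : ℝ) < (d : ℝ) ^ 4 := by positivity
      exact div_le_div_of_nonneg_right (two_sided h3 h4 d hd).1 h4'.le

end Pool.Agent.WSR
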