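import Pool.Agent.WSR.Stmts

set_option autoImplicit false

/-! # WSR, module GEOA: the lines cross the open triangle -/

open scoped BigOperators Topology

namespace Pool.Agent.WSR

noncomputable section

namespace GEOA_

theorem f1 : ∀ c : Fin 3, c + 1 ≠ c := by decide
theorem f2 : ∀ c : Fin 3, c + 2 ≠ c := by decide
theorem f3 : ∀ c : Fin 3, c + 2 ≠ c + 1 := by decide

theorem cases3 : ∀ c e : Fin 3, e = c ∨ e = c + 1 ∨ e = c + 2 := by decide

theorem sumc (p : B3) (c : Fin 3) : p 0 + p 1 + p 2 = p c + p (c + 1) + p (c + 2) := by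
  have h0 : (0 : Fin 3) + 1 = 1 := by decide
  have h1 : (0 : Fin 3) + 2 = 2 := by decide
  have h2 : (1 : Fin 3) + 1 = 2 := by decide
  have h3 : (1 : Fin 3) + 2 = 0 := by decide
  have h4 : (2 : Fin 3) + 1 = 0 := by decide
  have h5 : (2 : Fin 3) + 2 = 1 := by decide
  have hc : c = 0 ∨ c = 1 ∨ c = 2 := by
    revert c
    decide
  rcases hc with rfl | rfl | rfl
  · rw [h0, h1]
  · rw [h2, h3]
    ring
  · rw [h4, h5]
    ring

theorem exists_vec (c : Fin 3) (X Y Z : ℝ) : ∃ p : B3, p c = X ∧ p (c + 1) = Y ∧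
    p (c + 2) = Z := by
  refine ⟨fun e => if e = c then X else if e = c + 1 then Y else Z, ?_, ?_, ?_⟩
  · simp
  · simp only [f1 c, if_false, if_true]
  · simp only [f2 c, f3 c, if_false]

theorem exists_pt (d : ℕ) (c : Fin 3) (X Y Z : ℝ) (hX : 0 < X) (hY : 0 < Y) (hZ : 0 < Z)
    (hs : X + Y + Z = d) : ∃ p ∈ Tri d, p c = X ∧ p (c + 1) = Y ∧ p (c + 2) = Z := by
  obtain ⟨p, a1, a2, a3⟩ := exists_vec c X Y Z
  refine ⟨p, ⟨?_, ?_⟩, a1, a2, a3⟩
  · intro e
    rcases cases3 c e with rfl | rfl | rfl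
    · rw [a1]
      exact hX
    · rw [a2]
      exact hY
    · rw [a3]
      exact hZ
  · rw [sumc p c, a1, a2, a3]
    exact hs

theorem conv_tri (d : ℕ) : Convex ℝ (Tri d) := by
  rw [convex_iff_forall_pos]
  rintro x ⟨hx, hxs⟩ y ⟨hy, hys⟩ a b ha hb hab
  refine ⟨?_, ?_⟩
  · intro c
    simp only [Pi.add_apply, Pi.smul_apply, smul_eq_mul]
    exact add_pos (mul_pos ha (hx c)) (mul_pos hb (hy c))
  · simp only [Pi.add_apply, Pi.smul_apply, smul_eq_mul]
    have : a * x 0 + b * y 0 + (a * x 1 + b * y 1) + (a * x 2 + b * y 2) =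
        a * (x 0 + x 1 + x 2) + b * (y 0 + y 1 + y 2) := by ring
    rw [this, hxs, hys, ← add_mul, hab, one_mul]

theorem F_aff (l : Ix) (x y : B3) (a b : ℝ) (hab : a + b = 1) :
    F l (a • x + b • y) = a * F l x + b * F l y := by
  unfold F L
  simp only [Pi.add_apply, Pi.smul_apply, smul_eq_mul]
  linear_combination ((l.2.1 : ℝ) * (l.2.2 : ℝ)) * hab

end GEOA_

open GEOA_ in
theorem geoa_proof : Stmt_GEOA := by
  intro d hd
  have rd : (0 : ℝ) < d := by
    have : 0 < d := by omega
    exact_mod_cast this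
  refine ⟨conv_tri d, ?_, ?_⟩
  · obtain ⟨p, hp, -⟩ := exists_pt d 0 ((d : ℝ) / 3) ((d : ℝ) / 3) ((d : ℝ) / 3)
      (by linarith) (by linarith) (by linarith) (by ring)
    exact ⟨p, hp⟩
  · rintro ⟨c, i, j⟩ hl
    simp only [lines, Finset.mem_product, Finset.mem_univ, true_and, Finset.mem_Icc] at hl
    obtain ⟨⟨hi1, hid⟩, hj1, hjd⟩ := hl
    have ri : (0 : ℝ) < i := by
      have : 0 < i := by omega
      exact_mod_cast this
    have rj : (0 : ℝ) < j := by
      have : 0 < j := by omega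
      exact_mod_cast this
    have rid : (i : ℝ) ≤ d := by exact_mod_cast hid
    have rjd : (j : ℝ) < d := by
      have : j < d := by omega
      exact_mod_cast this
    refine ⟨?_, ?_, ?_⟩
    · obtain ⟨p, hp, a1, a2, a3⟩ := exists_pt d c ((d : ℝ) - i / 2 - j / 2) ((i : ℝ) / 2)
        ((j : ℝ) / 2) (by linarith) (by linarith) (by linarith) (by ring)
      refine ⟨p, hp, ?_⟩
      unfold F L
      simp only
      rw [a2, a3]
      ring
    · rw [convex_iff_forall_pos]
      rintro x ⟨hx, hFx⟩ y ⟨hy, hFy⟩ a b ha hb hab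
      refine ⟨conv_tri d hx hy ha.le hb.le hab, ?_⟩
      rw [F_aff _ _ _ _ _ hab, hFx, hFy]
      ring
    · rintro p ⟨⟨hp, hps⟩, hFp⟩
      obtain ⟨v, v1, v2, v3⟩ := exists_vec c (-1) 1 0
      refine ⟨v, ?_, min (p c) (p (c + 1)), lt_min (hp _) (hp _), ?_⟩
      · unfold L
        simp only
        rw [v2, v3]
        have : (j : ℝ) * 1 + i * 0 = j := by ring
        rw [this]
        exact rj.ne'
      · intro t ht
        have h1 : |t| < p c := lt_of_lt_of_le ht (min_le_left _ _)
        have h2 : |t| < p (c + 1) := lt_of_lt_of_le ht (min_le_right _ _)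
        have h3 := (abs_lt.1 h1).2
        have h4 := (abs_lt.1 h2).1
        have h5 := hp (c + 2)
        refine ⟨?_, ?_⟩
        · intro e
          simp only [Pi.add_apply, Pi.smul_apply, smul_eq_mul]
          rcases cases3 c e with rfl | rfl | rfl
          · rw [v1]
            linarith
          · rw [v2]
            linarith
          · rw [v3]
            linarith
        · rw [sumc _ c] at hps ⊢
          simp only [Pi.add_apply, Pi.smul_apply, smul_eq_mul]
          rw [v1, v2, v3]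
          linarith

end

end Pool.Agent.WSR
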