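import Pool.Agent.WSR.Stmts

set_option autoImplicit false

/-!
# WSR, GEOB: different lines are not parallel if they meet
-/

namespace Pool.Agent.WSR.GEOB_

open Pool.Agent.WSR

lemma same {i j i' j' : ℕ} (hj : 1 ≤ j) (hi' : 1 ≤ i') (hj' : 1 ≤ j')
    (hne : ¬ (i = i' ∧ j = j')) {b e x y : ℝ}
    (h1 : (j : ℝ) * b + i * e - i * j = 0) (h2 : (j' : ℝ) * b + i' * e - i' * j' = 0)
    (h3 : (j : ℝ) * x + i * y = 0) (h4 : (j' : ℝ) * x + i' * y = 0) : x = 0 ∧ y = 0 := by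
  have hj0 : (0 : ℝ) < j := by exact_mod_cast hj
  have hi'0 : (0 : ℝ) < i' := by exact_mod_cast hi'
  have hj'0 : (0 : ℝ) < j' := by exact_mod_cast hj'
  have hdet : (j : ℝ) * i' - i * j' ≠ 0 := by
    intro hd
    apply hne
    have h5 : (j : ℝ) * j' * (i - i') = 0 := by
      linear_combination (-(j' : ℝ)) * h1 + (j : ℝ) * h2 - e * hd
    have h6 : (i : ℝ) = i' := by
      rcases mul_eq_zero.1 h5 with h | h
      · exact absurd h (mul_pos hj0 hj'0).ne'
      · linarith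
    have h7 : (j : ℝ) = j' := by
      rw [h6] at hd
      have h8 : (i' : ℝ) * (j - j') = 0 := by linear_combination hd
      rcases mul_eq_zero.1 h8 with h | h
      · exact absurd h hi'0.ne'
      · linarith
    exact ⟨by exact_mod_cast h6, by exact_mod_cast h7⟩
  constructor
  · have h5 : ((j : ℝ) * i' - i * j') * x = 0 := by
      linear_combination (i' : ℝ) * h3 - (i : ℝ) * h4
    exact (mul_eq_zero.1 h5).resolve_left hdet
  · have h5 : ((j : ℝ) * i' - i * j') * y = 0 := by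
      linear_combination (j : ℝ) * h4 - (j' : ℝ) * h3
    exact (mul_eq_zero.1 h5).resolve_left hdet

lemma next {d i j i' j' : ℕ} (hi : 1 ≤ i) (hid : i ≤ d) (hj : 1 ≤ j) (hjd : j + 1 ≤ d)
    (hi' : 1 ≤ i') (hi'd : i' ≤ d) {a b e x y z : ℝ} (h0 : a + b + e = d)
    (h1 : (j : ℝ) * b + i * e - i * j = 0) (h2 : (j' : ℝ) * e + i' * a - i' * j' = 0)
    (h5 : x + y + z = 0) (h3 : (j : ℝ) * y + i * z = 0) (h4 : (j' : ℝ) * z + i' * x = 0) :
    x = 0 ∧ y = 0 ∧ z = 0 := by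
  have hj0 : (0 : ℝ) < j := by exact_mod_cast hj
  have hi0 : (1 : ℝ) ≤ i := by exact_mod_cast hi
  have hi'0 : (0 : ℝ) < i' := by exact_mod_cast hi'
  have hid' : (i : ℝ) ≤ d := by exact_mod_cast hid
  have hi'd' : (i' : ℝ) ≤ d := by exact_mod_cast hi'd
  have hjd' : (j : ℝ) + 1 ≤ d := by exact_mod_cast hjd
  have h6 : ((j : ℝ) * j' - i' * (j - i)) * z = 0 := by
    linear_combination (j : ℝ) * h4 - (i' : ℝ) * j * h5 + (i' : ℝ) * h3
  by_cases hz : z = 0
  · subst hz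
    have hy : y = 0 := by
      have h7 : (j : ℝ) * y = 0 := by linarith
      exact (mul_eq_zero.1 h7).resolve_left hj0.ne'
    exact ⟨by linarith, hy, rfl⟩
  exfalso
  have hR : (j : ℝ) * j' - i' * (j - i) = 0 := (mul_eq_zero.1 h6).resolve_right hz
  have h7 : (i' : ℝ) * j * (j' - (d - i)) = 0 := by
    linear_combination (i' : ℝ) * j * h0 - (i' : ℝ) * h1 - (j : ℝ) * h2 + e * hR
  have h8 : (j' : ℝ) = d - i := by
    rcases mul_eq_zero.1 h7 with h | h
    · exact absurd h (mul_pos hi'0 hj0).ne'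
    · linarith
  rw [h8] at hR
  rcases le_or_gt (j : ℝ) i with hji | hij
  · have h9 : (i' : ℝ) * (j - i) ≤ 0 := mul_nonpos_of_nonneg_of_nonpos hi'0.le (by linarith)
    have h10 : (0 : ℝ) ≤ j * (d - i) := mul_nonneg hj0.le (by linarith)
    have h11 : (j : ℝ) * (d - i) = 0 := by linarith
    have h12 : (d : ℝ) - i = 0 := (mul_eq_zero.1 h11).resolve_left hj0.ne'
    have h13 : (i' : ℝ) * (j - i) = 0 := by linarith
    have h14 : (j : ℝ) - i = 0 := (mul_eq_zero.1 h13).resolve_left hi'0.ne'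
    linarith
  · have h9 : (i' : ℝ) * (j - i) ≤ d * (j - i) := mul_le_mul_of_nonneg_right hi'd' (by linarith)
    nlinarith

end Pool.Agent.WSR.GEOB_

namespace Pool.Agent.WSR

open GEOB_

theorem geob_proof : Stmt_GEOB := by
  intro d l l' p v hd hl hl' hne hp hF hF' hv hL hL'
  obtain ⟨c, i, j⟩ := l
  obtain ⟨c', i', j'⟩ := l'
  simp only [lines, Finset.mem_product, Finset.mem_Icc, Finset.mem_univ, true_and] at hl hl'
  obtain ⟨⟨hi, hid⟩, hj, hjd⟩ := hl
  obtain ⟨⟨hi', hi'd⟩, hj', hj'd⟩ := hl'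
  have hs := hp.2
  simp only [F, L] at hF hF' hL hL'
  have hjd1 : j + 1 ≤ d := by omega
  have hj'd1 : j' + 1 ≤ d := by omega
  have hsame : c = c' → ¬ (i = i' ∧ j = j') := by
    rintro rfl ⟨rfl, rfl⟩
    exact hne rfl
  have fin3 : ∀ w : B3, w 0 = 0 → w 1 = 0 → w 2 = 0 → w = 0 := by
    intro w h0 h1 h2
    funext k
    fin_cases k
    · exact h0
    · exact h1
    · exact h2
  fin_cases c <;> fin_cases c' <;>
    simp only [Fin.mk_zero, Fin.mk_one, Fin.reduceFinMk, Fin.isValue, Fin.reduceAdd, zero_add]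
      at hF hF' hL hL'
  · obtain ⟨h1, h2⟩ := same hj hi' hj' (hsame rfl) hF hF' hL hL'
    exact fin3 v (by linarith) h1 h2
  · obtain ⟨h1, h2, h3⟩ := next hi hid hj hjd1 hi' hi'd (a := p 0) (b := p 1) (e := p 2)
      hs hF hF' hv hL hL'
    exact fin3 v h1 h2 h3
  · obtain ⟨h1, h2, h3⟩ := next hi' hi'd hj' hj'd1 hi hid (a := p 2) (b := p 0) (e := p 1)
      (by linarith) hF' hF (by linarith : v 2 + v 0 + v 1 = 0) hL' hL
    exact fin3 v h2 h3 h1
  · obtain ⟨h1, h2, h3⟩ := next hi' hi'd hj' hj'd1 hi hid (a := p 0) (b := p 1) (e := p 2)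
      hs hF' hF hv hL' hL
    exact fin3 v h1 h2 h3
  · obtain ⟨h1, h2⟩ := same hj hi' hj' (hsame rfl) hF hF' hL hL'
    exact fin3 v h2 (by linarith) h1
  · obtain ⟨h1, h2, h3⟩ := next hi hid hj hjd1 hi' hi'd (a := p 1) (b := p 2) (e := p 0)
      (by linarith) hF hF' (by linarith : v 1 + v 2 + v 0 = 0) hL hL'
    exact fin3 v h3 h1 h2
  · obtain ⟨h1, h2, h3⟩ := next hi hid hj hjd1 hi' hi'd (a := p 2) (b := p 0) (e := p 1)
      (by linarith) hF hF' (by linarith : v 2 + v 0 + v 1 = 0) hL hL'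
    exact fin3 v h2 h3 h1
  · obtain ⟨h1, h2, h3⟩ := next hi' hi'd hj' hj'd1 hi hid (a := p 1) (b := p 2) (e := p 0)
      (by linarith) hF' hF (by linarith : v 1 + v 2 + v 0 = 0) hL' hL
    exact fin3 v h3 h1 h2
  · obtain ⟨h1, h2⟩ := same hj hi' hj' (hsame rfl) hF hF' hL hL'
    exact fin3 v h1 h2 (by linarith)

end Pool.Agent.WSR
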