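import Pool.Agent.WSR.Stmts

set_option autoImplicit false

/-!
# WSR: module GEOC (different lines cross transversally in at most one point)
-/

namespace Pool.Agent.WSR.GEOC_

theorem L_add (l : Ix) (p v : B3) (t : ℝ) : L l (p + t • v) = L l p + t * L l v := by
  simp only [L, Pi.add_apply, Pi.smul_apply, smul_eq_mul]
  ring

theorem L_sub (l : Ix) (p v : B3) : L l (p - v) = L l p - L l v := by
  simp only [L, Pi.sub_apply]
  ring

/-- the direction of a line -/
def dir (l : Ix) : B3 := fun c =>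
  if c = l.1 then (l.2.2 : ℝ) - l.2.1 else if c = l.1 + 1 then (l.2.1 : ℝ) else -(l.2.2 : ℝ)

theorem dir_facts (l : Ix) : dir l 0 + dir l 1 + dir l 2 = 0 ∧ L l (dir l) = 0 ∧
    dir l (l.1 + 1) = l.2.1 := by
  obtain ⟨c, i, j⟩ := l
  refine ⟨?_, ?_, ?_⟩
  · fin_cases c <;> simp [dir] <;> ring
  · fin_cases c <;> simp [dir, L] <;> ring
  · fin_cases c <;> simp [dir]

theorem dir_bound (l : Ix) (c : Fin 3) : |dir l c| ≤ (l.2.1 : ℝ) + l.2.2 := by
  have h1 : (0 : ℝ) ≤ l.2.1 := Nat.cast_nonneg _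
  have h2 : (0 : ℝ) ≤ l.2.2 := Nat.cast_nonneg _
  unfold dir
  split_ifs
  · rw [abs_le]
    constructor <;> linarith
  · rw [abs_of_nonneg h1]
    linarith
  · rw [abs_neg, abs_of_nonneg h2]
    linarith

end Pool.Agent.WSR.GEOC_

namespace Pool.Agent.WSR

open GEOC_ in
/-- GEOC. -/
theorem geoc_proof (h1 : Stmt_GEOB) : Stmt_GEOC := by
  intro d l l' hd hl hl' hne
  have hi : 1 ≤ l.2.1 := by
    unfold lines at hl
    rw [Finset.mem_product, Finset.mem_product, Finset.mem_Icc] at hl
    exact hl.2.1.1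
  have hi' : (1 : ℝ) ≤ l.2.1 := by exact_mod_cast hi
  have hj' : (0 : ℝ) ≤ l.2.2 := Nat.cast_nonneg _
  obtain ⟨s1, s2, s3⟩ := dir_facts l
  refine ⟨?_, ?_⟩
  · intro p hp
    obtain ⟨⟨hp1, hp2⟩, hp3⟩ := hp
    refine ⟨dir l, ?_, ?_⟩
    · intro h0
      have h2 := h1 d l l' p (dir l) hd hl hl' hne hp1 hp2 hp3 s1 s2 h0
      rw [h2] at s3
      have : (0 : ℝ) = l.2.1 := s3
      linarith
    · obtain ⟨m, hm0, hm⟩ : ∃ m : ℝ, 0 < m ∧ ∀ c, m ≤ p c := by
        refine ⟨min (p 0) (min (p 1) (p 2)), ?_, ?_⟩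
        · exact lt_min (hp1.1 0) (lt_min (hp1.1 1) (hp1.1 2))
        · intro c
          fin_cases c
          · exact min_le_left _ _
          · exact (min_le_right _ _).trans (min_le_left _ _)
          · exact (min_le_right _ _).trans (min_le_right _ _)
      have hM : (0 : ℝ) < l.2.1 + l.2.2 := by linarith
      refine ⟨m / (l.2.1 + l.2.2), by positivity, ?_⟩
      intro t ht
      rw [lt_div_iff₀ hM] at ht
      refine ⟨⟨?_, ?_⟩, ?_⟩
      · intro c
        have h3 : |t * dir l c| < m := by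
          rw [abs_mul]
          exact lt_of_le_of_lt (mul_le_mul_of_nonneg_left (dir_bound l c) (abs_nonneg t)) ht
        have h4 := (abs_lt.1 h3).1
        have h5 := hm c
        show 0 < p c + t * dir l c
        linarith
      · have h6 := hp1.2
        show p 0 + t * dir l 0 + (p 1 + t * dir l 1) + (p 2 + t * dir l 2) = d
        linear_combination h6 + t * s1
      · unfold F at hp2 ⊢
        rw [L_add, s2]
        linarith
  · intro p hp p' hp'
    obtain ⟨⟨a1, a2⟩, a3⟩ := hp
    obtain ⟨⟨b1, b2⟩, b3⟩ := hp'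
    have h2 := h1 d l l' p (p - p') hd hl hl' hne a1 a2 a3 (by
        have e1 := a1.2
        have e2 := b1.2
        show p 0 - p' 0 + (p 1 - p' 1) + (p 2 - p' 2) = 0
        linear_combination e1 - e2)
      (by
        rw [L_sub]
        unfold F at a2 b2
        linarith)
      (by
        rw [L_sub]
        unfold F at a3 b3
        linarith)
    exact sub_eq_zero.1 h2

end Pool.Agent.WSR
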