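import Pool.Agent.WSR.Stmts

set_option autoImplicit false

/-!
# WSR, module HOM: the body is homeomorphic to the open triangle without the lines
-/

namespace Pool.Agent.WSR

namespace HOM_

/-- The inverse of the barycentric coordinates. -/
noncomputable def inv (b : AffineBasis (Fin 3) ℝ E2) (d : ℕ) (p : B3) : E2 :=
  ∑ c, (p c / (d : ℝ)) • b c

theorem inv_bary (b : AffineBasis (Fin 3) ℝ E2) {d : ℕ} (hd : 1 ≤ d) (x : E2) :
    inv b d (bary b d x) = x := by
  have hd0 : (d : ℝ) ≠ 0 := by
    have : (0 : ℝ) < d := by exact_mod_cast hd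
    exact this.ne'
  have h := b.linear_combination_coord_eq_self x
  unfold inv bary
  have h2 : ∀ c : Fin 3, ((d : ℝ) * b.coord c x / d) • b c = b.coord c x • b c := by
    intro c
    rw [mul_div_cancel_left₀ _ hd0]
  rw [Finset.sum_congr rfl (fun c _ => h2 c)]
  exact h

theorem bary_inv (b : AffineBasis (Fin 3) ℝ E2) {d : ℕ} (hd : 1 ≤ d) (p : B3)
    (hp : p 0 + p 1 + p 2 = d) : bary b d (inv b d p) = p := by
  have hd0 : (d : ℝ) ≠ 0 := by
    have : (0 : ℝ) < d := by exact_mod_cast hd
    exact this.ne'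
  have hs : ∑ c : Fin 3, p c / (d : ℝ) = 1 := by
    rw [Fin.sum_univ_three, ← add_div, ← add_div, hp]
    exact div_self hd0
  funext c
  unfold bary inv
  have h1 : ∑ c : Fin 3, (p c / (d : ℝ)) • b c =
      Finset.univ.affineCombination ℝ b (fun c => p c / (d : ℝ)) := by
    rw [Finset.affineCombination_eq_linear_combination _ _ _ hs]
  rw [h1, b.coord_apply_combination_of_mem (Finset.mem_univ c) hs]
  field_simp

theorem continuous_bary (b : AffineBasis (Fin 3) ℝ E2) (d : ℕ) : Continuous (bary b d) := by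
  refine continuous_pi (fun c => ?_)
  exact continuous_const.mul (continuous_barycentric_coord b c)

theorem continuous_inv (b : AffineBasis (Fin 3) ℝ E2) (d : ℕ) : Continuous (inv b d) := by
  unfold inv
  refine continuous_finsetSum _ (fun c _ => ?_)
  exact ((continuous_apply c).div_const _).smul continuous_const

theorem bary_mem_Tri (b : AffineBasis (Fin 3) ℝ E2) {d : ℕ} (hd : 1 ≤ d) (x : E2) :
    bary b d x ∈ Tri d ↔ x ∈ interior (convexHull ℝ (Set.range b)) := by
  have hdR : (0 : ℝ) < d := by exact_mod_cast hd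
  rw [AffineBasis.interior_convexHull]
  constructor
  · rintro ⟨h, -⟩ c
    exact (mul_pos_iff_of_pos_left hdR).1 (h c)
  · intro h
    refine ⟨fun c => mul_pos hdR (h c), ?_⟩
    have hs := b.sum_coord_apply_eq_one x
    rw [Fin.sum_univ_three] at hs
    unfold bary
    linear_combination (d : ℝ) * hs

end HOM_

open HOM_ in
theorem hom_proof (hA : Stmt_CUTA) (hB : Stmt_CUTB) : Stmt_HOM := by
  intro b d hd
  have key : ∀ x : E2, x ∈ body b d ↔ bary b d x ∈ off (Tri d) (lines d) := by
    intro x
    constructor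
    · rintro ⟨h1, h2⟩
      exact ⟨(bary_mem_Tri b hd x).2 h1, fun l hl h0 => h2 (hA b d x hd h1 l hl h0)⟩
    · rintro ⟨h1, h2⟩
      have h3 := (bary_mem_Tri b hd x).1 h1
      refine ⟨h3, fun h4 => ?_⟩
      obtain ⟨l, hl, h0⟩ := hB b d x hd h3 h4
      exact h2 l hl h0
  have hsum : ∀ p : B3, p ∈ off (Tri d) (lines d) → p 0 + p 1 + p 2 = d := fun p hp => hp.1.2
  refine ⟨{
    toFun := fun x => ⟨bary b d x.1, (key x.1).1 x.2⟩
    invFun := fun p => ⟨inv b d p.1, (key _).2 (by
      rw [bary_inv b hd p.1 (hsum p.1 p.2)]; exact p.2)⟩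
    left_inv := fun x => Subtype.ext (inv_bary b hd x.1)
    right_inv := fun p => Subtype.ext (bary_inv b hd p.1 (hsum p.1 p.2))
    continuous_toFun := ?_
    continuous_invFun := ?_ }⟩
  · exact ((continuous_bary b d).comp continuous_subtype_val).subtype_mk _
  · exact ((continuous_inv b d).comp continuous_subtype_val).subtype_mk _

end Pool.Agent.WSR
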