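import Pool.Agent.WSR.Stmts

set_option autoImplicit false

namespace Pool.Agent.WSR

theorem hyp_proof : Stmt_HYP := by
  intro d B hB α β γ δ hα hD hbd S hS
  have hn : 0 < (β * γ - α * δ).natAbs := Int.natAbs_pos.2 hD
  have hle : (β * γ - α * δ).natAbs ≤ (2 * d) ^ 20 := by
    have h : (((β * γ - α * δ).natAbs : ℕ) : ℤ) ≤ (2 * (d : ℤ)) ^ 20 := by
      rw [Int.natCast_natAbs]
      exact hbd
    exact_mod_cast h
  have hc := hB _ hn hle
  have hprod : ∀ s ∈ S, (α * s.1 + γ) * (α * s.2 + β) = β * γ - α * δ := by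
    intro s hs
    linear_combination α * hS s hs
  have hT : (((β * γ - α * δ).natAbs.divisors.image fun n : ℕ => (n : ℤ)) ∪
      ((β * γ - α * δ).natAbs.divisors.image fun n : ℕ => -(n : ℤ))).card ≤ 2 * B := by
    refine (Finset.card_union_le _ _).trans ?_
    have h1 := Finset.card_image_le (s := (β * γ - α * δ).natAbs.divisors)
      (f := fun n : ℕ => (n : ℤ))
    have h2 := Finset.card_image_le (s := (β * γ - α * δ).natAbs.divisors)
      (f := fun n : ℕ => -(n : ℤ))
    omega
  refine le_trans (Finset.card_le_card_of_injOn (fun s => α * s.1 + γ) ?_ ?_) hT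
  · intro s hs
    have hp := hprod s hs
    have hdvd : (α * s.1 + γ).natAbs ∣ (β * γ - α * δ).natAbs :=
      Int.natAbs_dvd_natAbs.2 ⟨_, hp.symm⟩
    have hmem : (α * s.1 + γ).natAbs ∈ (β * γ - α * δ).natAbs.divisors :=
      Nat.mem_divisors.2 ⟨hdvd, hn.ne'⟩
    simp only [Finset.coe_union, Finset.coe_image, Set.mem_union, Set.mem_image,
      Finset.mem_coe]
    rcases Int.natAbs_eq (α * s.1 + γ) with h | h
    · exact Or.inl ⟨_, hmem, h.symm⟩
    · exact Or.inr ⟨_, hmem, h.symm⟩
  · intro s hs t ht hst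
    have hp := hprod s hs
    have hq := hprod t ht
    simp only at hst
    have h1 : s.1 = t.1 := by
      have : α * s.1 = α * t.1 := by linarith
      exact mul_left_cancel₀ hα this
    have hne : α * t.1 + γ ≠ 0 := by
      intro h0
      rw [h0, zero_mul] at hq
      exact hD hq.symm
    have h2 : s.2 = t.2 := by
      rw [hst, ← hq] at hp
      have h3 := mul_left_cancel₀ hne hp
      have : α * s.2 = α * t.2 := by linarith
      exact mul_left_cancel₀ hα this
    exact Prod.ext h1 h2

end Pool.Agent.WSR
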