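import Pool.Agent.WSR.Stmts

set_option autoImplicit false

/-!
# WSR: MRK, the marked points in barycentric coordinates
-/

namespace Pool.Agent.WSR

namespace MRK_

theorem coord_lineMap (b : AffineBasis (Fin 3) ℝ E2) (i j c : Fin 3) (t : ℝ) :
    b.coord c (AffineMap.lineMap (b i) (b j) t) =
      (1 - t) * (if c = i then 1 else 0) + t * (if c = j then 1 else 0) := by
  rw [AffineMap.apply_lineMap, AffineBasis.coord_apply, AffineBasis.coord_apply,
    AffineMap.lineMap_apply_module]
  simp only [smul_eq_mul]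

theorem third (i j : Fin 3) : ∃ c : Fin 3, c ≠ i ∧ c ≠ j := by
  fin_cases i <;> fin_cases j <;> decide

theorem sum_ind (i : Fin 3) (m : ℕ) :
    (if (0 : Fin 3) = i then m else 0) + (if (1 : Fin 3) = i then m else 0) +
      (if (2 : Fin 3) = i then m else 0) = m := by
  fin_cases i <;> simp

theorem e12 (c : Fin 3) : c + 1 ≠ c + 2 ∧ c ≠ c + 1 ∧ c ≠ c + 2 := by
  fin_cases c <;> decide

theorem cases3 (c e : Fin 3) : e = c ∨ e = c + 1 ∨ e = c + 2 := by
  fin_cases c <;> fin_cases e <;> decide

theorem sum3 (c : Fin 3) (a : Fin 3 → ℕ) : a c + a (c + 1) + a (c + 2) = a 0 + a 1 + a 2 := by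
  fin_cases c
  · rfl
  · show a 1 + a 2 + a 0 = a 0 + a 1 + a 2
    omega
  · show a 2 + a 0 + a 1 = a 0 + a 1 + a 2
    omega

end MRK_

open MRK_

theorem mrk_proof : Stmt_MRK := by
  intro b d P hd
  have hd0 : (d : ℝ) ≠ 0 := by
    have : d ≠ 0 := by omega
    exact_mod_cast this
  constructor
  · rintro ⟨i, j, k, hk, rfl⟩
    refine ⟨fun c => (if c = i then d - k else 0) + (if c = j then k else 0), ?_, ?_, ?_⟩
    · have h1 := sum_ind i (d - k)
      have h2 := sum_ind j k
      simp only
      omega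
    · obtain ⟨c, hci, hcj⟩ := third i j
      exact ⟨c, by simp [hci, hcj]⟩
    · funext c
      unfold bary
      rw [coord_lineMap]
      push_cast [Nat.cast_sub hk]
      have h1 : (d : ℝ) * ((1 - (k : ℝ) / d) * (if c = i then 1 else 0) +
          (k : ℝ) / d * (if c = j then 1 else 0)) =
          ((d : ℝ) - k) * (if c = i then 1 else 0) + (k : ℝ) * (if c = j then 1 else 0) := by
        field_simp
      rw [h1]
      split_ifs <;> simp
  · rintro ⟨a, ha, ⟨c, hc⟩, hP⟩
    have hs := sum3 c a
    rw [ha, hc, zero_add] at hs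
    refine ⟨c + 1, c + 2, a (c + 2), by omega, ?_⟩
    apply b.ext_elem
    intro e
    rw [coord_lineMap]
    have he : (d : ℝ) * b.coord e P = (a e : ℝ) := by
      have := congrFun hP e
      exact this
    have h2 : b.coord e P = (a e : ℝ) / d := by
      field_simp
      rw [mul_comm]
      exact he
    rw [h2]
    obtain ⟨n1, n2, n3⟩ := e12 c
    have hsr : (a (c + 1) : ℝ) + (a (c + 2) : ℝ) = d := by exact_mod_cast hs
    rcases cases3 c e with rfl | rfl | rfl
    · rw [if_neg n2, if_neg n3, hc]
      simp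
    · rw [if_pos rfl, if_neg n1]
      field_simp
      linarith
    · rw [if_neg n1.symm, if_pos rfl]
      field_simp
      ring

end Pool.Agent.WSR
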