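import Pool.Agent.WSR.Stmts

set_option autoImplicit false

/-!
# REC: the recursion for the number of the sign patterns
-/

open scoped BigOperators Topology

namespace Pool.Agent.WSR

namespace REC_

theorem L_add (l : Ix) (p v : B3) (t : ℝ) : L l (p + t • v) = L l p + t * L l v := by
  unfold L
  simp only [Pi.add_apply, Pi.smul_apply, smul_eq_mul]
  ring

theorem F_add (l : Ix) (p v : B3) (t : ℝ) : F l (p + t • v) = F l p + t * L l v := by
  unfold F
  rw [L_add]
  ring

theorem F_conv (l : Ix) (p q : B3) (a b : ℝ) (hab : a + b = 1) :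
    F l (a • p + b • q) = a * F l p + b * F l q := by
  have hb : b = 1 - a := by linarith
  subst hb
  unfold F L
  simp only [Pi.add_apply, Pi.smul_apply, smul_eq_mul]
  ring

/-- signs do not change for small displacements -/
theorem signs (s : Finset Ix) (p v : B3) (hp : ∀ l ∈ s, F l p ≠ 0) :
    ∀ᶠ t : ℝ in 𝓝 0, ∀ l ∈ s, F l (p + t • v) ≠ 0 ∧ (0 < F l (p + t • v) ↔ 0 < F l p) := by
  rw [Filter.eventually_all_finset]
  intro l hl
  have hc : Continuous (fun t : ℝ => F l (p + t • v)) := by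
    have : (fun t : ℝ => F l (p + t • v)) = fun t : ℝ => F l p + t * L l v := by
      funext t
      exact F_add l p v t
    rw [this]
    fun_prop
  have h0 : F l (p + (0 : ℝ) • v) = F l p := by
    rw [zero_smul, add_zero]
  rcases lt_or_gt_of_ne (hp l hl) with h | h
  · have h1 : ∀ᶠ t : ℝ in 𝓝 0, F l (p + t • v) < 0 := by
      apply hc.continuousAt.eventually_lt continuousAt_const
      rw [h0]
      exact h
    filter_upwards [h1] with t ht
    exact ⟨ht.ne, ⟨fun h2 => absurd h2 (not_lt.2 ht.le), fun h2 => absurd h2 (not_lt.2 h.le)⟩⟩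
  · have h1 : ∀ᶠ t : ℝ in 𝓝 0, 0 < F l (p + t • v) := by
      apply continuousAt_const.eventually_lt hc.continuousAt
      rw [h0]
      exact h
    filter_upwards [h1] with t ht
    exact ⟨ht.ne', ⟨fun _ => h, fun _ => ht⟩⟩

open Classical in
/-- the patterns on the negative side -/
noncomputable def Am (K : Set B3) (s : Finset Ix) (l : Ix) : Set (Finset Ix) :=
  {t | ∃ p ∈ off K s, F l p < 0 ∧ t = s.filter (fun l => 0 < F l p)}

open Classical in
/-- the patterns on the positive side -/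
noncomputable def Ap (K : Set B3) (s : Finset Ix) (l : Ix) : Set (Finset Ix) :=
  {t | ∃ p ∈ off K s, 0 < F l p ∧ t = s.filter (fun l => 0 < F l p)}

/-- moving off the line in both directions -/
theorem move (K : Set B3) (s : Finset Ix) (l : Ix) (hX : Cross K l) (p : B3)
    (hp : p ∈ off K s) (h0 : F l p = 0) (t : Finset Ix)
    (ht : t = s.filter (fun l => 0 < F l p)) : t ∈ Am K s l ∧ t ∈ Ap K s l := by
  classical
  obtain ⟨v, hv, δ, hδ, hK⟩ := hX p ⟨hp.1, h0⟩
  have h1 := signs s p v hp.2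
  rw [Metric.eventually_nhds_iff] at h1
  obtain ⟨ε, hε, h2⟩ := h1
  have key : ∀ τ : ℝ, |τ| < ε → |τ| < δ → p + τ • v ∈ off K s ∧
      t = s.filter (fun l => 0 < F l (p + τ • v)) := by
    intro τ h3 h4
    have h5 := h2 (y := τ) (by rw [Real.dist_eq, sub_zero]; exact h3)
    refine ⟨⟨hK τ h4, fun l hl => (h5 l hl).1⟩, ?_⟩
    rw [ht]
    exact Finset.filter_congr fun l hl => ((h5 l hl).2).symm
  set τ : ℝ := min ε δ / 2 with hτ
  have hm : 0 < min ε δ := lt_min hε hδ
  have hτ0 : 0 < τ := by rw [hτ]; linarith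
  have hτε : τ < ε := by
    have := min_le_left ε δ
    rw [hτ]; linarith
  have hτδ : τ < δ := by
    have := min_le_right ε δ
    rw [hτ]; linarith
  have k1 := key τ (by rw [abs_of_pos hτ0]; exact hτε) (by rw [abs_of_pos hτ0]; exact hτδ)
  have k2 := key (-τ) (by rw [abs_neg, abs_of_pos hτ0]; exact hτε)
    (by rw [abs_neg, abs_of_pos hτ0]; exact hτδ)
  have e1 : F l (p + τ • v) = τ * L l v := by rw [F_add, h0, zero_add]
  have e2 : F l (p + (-τ) • v) = -(τ * L l v) := by rw [F_add, h0, zero_add]; ring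
  rcases lt_or_gt_of_ne hv with h | h
  · have h3 : τ * L l v < 0 := mul_neg_of_pos_of_neg hτ0 h
    exact ⟨⟨_, k1.1, by rw [e1]; exact h3, k1.2⟩, ⟨_, k2.1, by rw [e2]; linarith, k2.2⟩⟩
  · have h3 : 0 < τ * L l v := mul_pos hτ0 h
    exact ⟨⟨_, k2.1, by rw [e2]; linarith, k2.2⟩, ⟨_, k1.1, by rw [e1]; exact h3, k1.2⟩⟩

theorem union_eq (K : Set B3) (s : Finset Ix) (l : Ix) (hX : Cross K l) :
    Am K s l ∪ Ap K s l = pats K s := by
  classical
  ext t
  constructor
  · rintro (⟨p, hp, _, ht⟩ | ⟨p, hp, _, ht⟩)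
    · exact ⟨p, hp, ht⟩
    · exact ⟨p, hp, ht⟩
  · rintro ⟨p, hp, ht⟩
    rcases lt_trichotomy (F l p) 0 with h | h | h
    · exact Or.inl ⟨p, hp, h, ht⟩
    · exact Or.inl (move K s l hX p hp h t ht).1
    · exact Or.inr ⟨p, hp, h, ht⟩

theorem inter_eq (K : Set B3) (s : Finset Ix) (l : Ix) (hK : Convex ℝ K) (hX : Cross K l) :
    Am K s l ∩ Ap K s l = pats (cut K l) s := by
  classical
  ext t
  constructor
  · rintro ⟨⟨p, hp, hpl, ht⟩, ⟨q, hq, hql, ht'⟩⟩
    -- the point on the line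
    set a : ℝ := F l q / (F l q - F l p) with ha
    set b : ℝ := -F l p / (F l q - F l p) with hb
    have hd : 0 < F l q - F l p := by linarith
    have ha0 : 0 < a := div_pos hql hd
    have hb0 : 0 < b := div_pos (by linarith) hd
    have hab : a + b = 1 := by
      rw [ha, hb, ← add_div, ← sub_eq_add_neg]
      exact div_self hd.ne'
    have hF : ∀ l', F l' (a • p + b • q) = a * F l' p + b * F l' q := fun l' =>
      F_conv l' p q a b hab
    have hl0 : F l (a • p + b • q) = 0 := by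
      rw [hF, ha, hb]
      field_simp
      ring
    have hsg : ∀ l' ∈ s, F l' (a • p + b • q) ≠ 0 ∧
        (0 < F l' (a • p + b • q) ↔ 0 < F l' p) := by
      intro l' hl'
      have h1 : (0 < F l' p) ↔ (0 < F l' q) := by
        have h2 : l' ∈ s.filter (fun l => 0 < F l p) ↔ l' ∈ s.filter (fun l => 0 < F l q) := by
          rw [← ht, ← ht']
        simpa [Finset.mem_filter, hl'] using h2
      rw [hF]
      by_cases h3 : 0 < F l' p
      · have h4 := h1.1 h3
        have h5 : 0 < a * F l' p + b * F l' q := add_pos (mul_pos ha0 h3) (mul_pos hb0 h4)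
        exact ⟨h5.ne', ⟨fun _ => h3, fun _ => h5⟩⟩
      · have h4 : F l' p < 0 := lt_of_le_of_ne (not_lt.1 h3) (hp.2 l' hl')
        have h5 : ¬ 0 < F l' q := fun h => h3 (h1.2 h)
        have h6 : F l' q < 0 := lt_of_le_of_ne (not_lt.1 h5) (hq.2 l' hl')
        have h7 : a * F l' p + b * F l' q < 0 :=
          add_neg (mul_neg_of_pos_of_neg ha0 h4) (mul_neg_of_pos_of_neg hb0 h6)
        exact ⟨h7.ne, ⟨fun h => absurd h (not_lt.2 h7.le), fun h => absurd h h3⟩⟩
    refine ⟨a • p + b • q, ⟨⟨hK hp.1 hq.1 ha0.le hb0.le hab, hl0⟩, fun l' hl' => (hsg l' hl').1⟩,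
      ?_⟩
    rw [ht]
    exact Finset.filter_congr fun l' hl' => ((hsg l' hl').2).symm
  · rintro ⟨p, hp, ht⟩
    exact move K s l hX p ⟨hp.1.1, hp.2⟩ hp.1.2 t ht

theorem sub_pow (K : Set B3) (s : Finset Ix) (l : Ix) :
    Am K s l ⊆ ↑(s.powerset) ∧ Ap K s l ⊆ ↑(s.powerset) := by
  classical
  constructor
  · rintro t ⟨p, _, _, ht⟩
    rw [Finset.mem_coe, Finset.mem_powerset, ht]
    exact Finset.filter_subset _ _
  · rintro t ⟨p, _, _, ht⟩
    rw [Finset.mem_coe, Finset.mem_powerset, ht]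
    exact Finset.filter_subset _ _

theorem ins_eq (K : Set B3) (s : Finset Ix) (l : Ix) :
    pats K (insert l s) = Am K s l ∪ (insert l) '' Ap K s l := by
  classical
  ext t
  constructor
  · rintro ⟨p, hp, ht⟩
    have hp' : p ∈ off K s := ⟨hp.1, fun l' hl' => hp.2 l' (Finset.mem_insert_of_mem hl')⟩
    have hl0 := hp.2 l (Finset.mem_insert_self l s)
    rw [Finset.filter_insert] at ht
    rcases lt_or_gt_of_ne hl0 with h | h
    · rw [if_neg (not_lt.2 h.le)] at ht
      exact Or.inl ⟨p, hp', h, ht⟩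
    · rw [if_pos h] at ht
      exact Or.inr ⟨_, ⟨p, hp', h, rfl⟩, ht.symm⟩
  · rintro (⟨p, hp, h, ht⟩ | ⟨t', ⟨p, hp, h, ht⟩, ht'⟩)
    · refine ⟨p, ⟨hp.1, ?_⟩, ?_⟩
      · intro l' hl'
        rcases Finset.mem_insert.1 hl' with h1 | h1
        · rw [h1]
          exact h.ne
        · exact hp.2 l' h1
      · rw [Finset.filter_insert, if_neg (not_lt.2 h.le)]
        exact ht
    · refine ⟨p, ⟨hp.1, ?_⟩, ?_⟩
      · intro l' hl'
        rcases Finset.mem_insert.1 hl' with h1 | h1
        · rw [h1]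
          exact h.ne'
        · exact hp.2 l' h1
      · rw [Finset.filter_insert, if_pos h, ← ht', ht]

end REC_

open REC_ in
theorem rec_proof : Stmt_REC := by
  classical
  intro K s l hK hl hX
  unfold N
  have hfin : ((s.powerset : Finset (Finset Ix)) : Set (Finset Ix)).Finite :=
    Finset.finite_toSet _
  have f1 : (Am K s l).Finite := hfin.subset (sub_pow K s l).1
  have f2 : (Ap K s l).Finite := hfin.subset (sub_pow K s l).2
  have e1 := Set.ncard_union_add_ncard_inter (Am K s l) (Ap K s l) f1 f2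
  rw [union_eq K s l hX, inter_eq K s l hK hX] at e1
  rw [e1, ins_eq]
  have hinj : Set.InjOn (insert l : Finset Ix → Finset Ix) (Ap K s l) := by
    intro t ht t' ht' h
    have h1 : t ⊆ s := Finset.mem_powerset.1 (Finset.mem_coe.1 ((sub_pow K s l).2 ht))
    have h2 : t' ⊆ s := Finset.mem_powerset.1 (Finset.mem_coe.1 ((sub_pow K s l).2 ht'))
    have h3 : l ∉ t := fun h => hl (h1 h)
    have h4 : l ∉ t' := fun h => hl (h2 h)
    have h5 : (insert l t).erase l = (insert l t').erase l := by rw [h]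
    rw [Finset.erase_insert h3, Finset.erase_insert h4] at h5
    exact h5
  have hdis : Disjoint (Am K s l) ((insert l) '' Ap K s l) := by
    rw [Set.disjoint_left]
    rintro t ht ⟨t', _, ht'⟩
    have h1 : t ⊆ s := Finset.mem_powerset.1 (Finset.mem_coe.1 ((sub_pow K s l).1 ht))
    apply hl
    apply h1
    rw [← ht']
    exact Finset.mem_insert_self l t'
  rw [Set.ncard_union_eq hdis f1 (f2.image _), Set.ncard_image_of_injOn hinj]

end Pool.Agent.WSR
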