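import Pool.Agent.WSR.Stmts

set_option autoImplicit false

/-!
# WSR module STD: the standard concurrent triples
-/

namespace Pool.Agent.WSR

noncomputable section

namespace STD_

/-- counting through an injection -/
theorem bnd (S : Finset (Ix × Ix × Ix)) (f : Ix × Ix × Ix → N6) (P : N6 → Prop) (K : ℕ)
    (hK : ∀ T : Finset N6, (∀ t ∈ T, P t) → T.card ≤ K) (hP : ∀ q ∈ S, P (f q))
    (hf : Set.InjOn f S) : S.card ≤ K := by
  classical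
  rw [← Finset.card_image_of_injOn hf]
  apply hK
  intro t ht
  obtain ⟨q, hq, rfl⟩ := Finset.mem_image.mp ht
  exact hP q hq

/-- the numbers of a triple -/
def f1 (q : Ix × Ix × Ix) : N6 :=
  (q.1.2.1, q.1.2.2, q.2.1.2.1, q.2.1.2.2, q.2.2.2.1, q.2.2.2.2)

/-- the same, reflected -/
def f2 (q : Ix × Ix × Ix) : N6 :=
  (q.1.2.2, q.1.2.1, q.2.1.2.2, q.2.1.2.1, q.2.2.2.2, q.2.2.2.1)

theorem inj1 (S : Finset (Ix × Ix × Ix)) (c c' c'' : Fin 3)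
    (h : ∀ q ∈ S, q.1.1 = c ∧ q.2.1.1 = c' ∧ q.2.2.1 = c'') : Set.InjOn f1 S := by
  rintro ⟨⟨a, i, j⟩, ⟨a', i', j'⟩, ⟨a'', i'', j''⟩⟩ hq ⟨⟨b, k, l⟩, ⟨b', k', l'⟩, ⟨b'', k'', l''⟩⟩ hr he
  have h1 := h _ (Finset.mem_coe.mp hq)
  have h2 := h _ (Finset.mem_coe.mp hr)
  simp only at h1 h2
  simp only [f1, Prod.mk.injEq] at he
  obtain ⟨rfl, rfl, rfl⟩ := h1
  obtain ⟨rfl, rfl, rfl⟩ := h2
  obtain ⟨rfl, rfl, rfl, rfl, rfl, rfl⟩ := he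
  rfl

theorem inj2 (S : Finset (Ix × Ix × Ix)) (c c' c'' : Fin 3)
    (h : ∀ q ∈ S, q.1.1 = c ∧ q.2.1.1 = c' ∧ q.2.2.1 = c'') : Set.InjOn f2 S := by
  rintro ⟨⟨a, i, j⟩, ⟨a', i', j'⟩, ⟨a'', i'', j''⟩⟩ hq ⟨⟨b, k, l⟩, ⟨b', k', l'⟩, ⟨b'', k'', l''⟩⟩ hr he
  have h1 := h _ (Finset.mem_coe.mp hq)
  have h2 := h _ (Finset.mem_coe.mp hr)
  simp only at h1 h2
  simp only [f2, Prod.mk.injEq] at he
  obtain ⟨rfl, rfl, rfl⟩ := h1
  obtain ⟨rfl, rfl, rfl⟩ := h2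
  obtain ⟨rfl, rfl, rfl, rfl, rfl, rfl⟩ := he
  rfl

end STD_

theorem std_proof (h1 : Stmt_EQA) (h2 : Stmt_EQB) (h3 : Stmt_EQD) (h4 : Stmt_EQC)
    (h5 : Stmt_CA) (h6 : Stmt_CB) (h7 : Stmt_CC) : Stmt_STD := by
  classical
  intro d B hd hB hDB S hS
  set M : ℕ := d ^ 3 * B ^ 4 with hM
  let Sa : Fin 3 → Finset (Ix × Ix × Ix) := fun c => S.filter fun q =>
    q.1.1 = c ∧ q.2.1.1 = c ∧ q.2.2.1 = c ∧ q.1.2.1 < q.2.1.2.1 ∧ q.2.1.2.1 < q.2.2.2.1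
  let Sb : Fin 3 → Finset (Ix × Ix × Ix) := fun c => S.filter fun q =>
    q.1.1 = c ∧ q.2.1.1 = c ∧ q.2.2.1 = c + 1 ∧ q.1.2.1 < q.2.1.2.1
  let Sd : Fin 3 → Finset (Ix × Ix × Ix) := fun c => S.filter fun q =>
    q.1.1 = c ∧ q.2.1.1 = c ∧ q.2.2.1 = c + 2 ∧ q.1.2.2 < q.2.1.2.2
  let Sc : Fin 3 → Finset (Ix × Ix × Ix) := fun c => S.filter fun q =>
    q.1.1 = c ∧ q.2.1.1 = c + 1 ∧ q.2.2.1 = c + 2
  have ba : ∀ c, (Sa c).card ≤ 8 * M := by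
    intro c
    apply STD_.bnd (Sa c) STD_.f1 (PA d) (8 * M)
    · intro T hT
      have := h5 d B hd hDB T hT
      rw [hM]; linarith [this, (by ring : 8 * d ^ 3 * B ^ 4 = 8 * (d ^ 3 * B ^ 4))]
    · rintro ⟨⟨a, i, j⟩, ⟨a', i', j'⟩, ⟨a'', i'', j''⟩⟩ hq
      obtain ⟨hq1, rfl, hq3, hq4, hq5, hq6⟩ := Finset.mem_filter.mp hq
      simp only at hq3 hq4 hq5 hq6
      subst hq3
      subst hq4
      obtain ⟨g1, g2, g3, g4, _⟩ := hS _ hq1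
      exact h1 d _ i j i' j' i'' j'' hd g1 g2 g3 hq5 hq6 g4
    · exact STD_.inj1 _ c c c fun q hq => by
        obtain ⟨_, e1, e2, e3, _⟩ := Finset.mem_filter.mp hq
        exact ⟨e1, e2, e3⟩
  have bb : ∀ c, (Sb c).card ≤ 5 * M := by
    intro c
    apply STD_.bnd (Sb c) STD_.f1 (PB d) (5 * M)
    · intro T hT
      have := h6 d B hd hB hDB T hT
      rw [hM]; linarith [this, (by ring : 5 * d ^ 3 * B ^ 4 = 5 * (d ^ 3 * B ^ 4))]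
    · rintro ⟨⟨a, i, j⟩, ⟨a', i', j'⟩, ⟨a'', i'', j''⟩⟩ hq
      obtain ⟨hq1, rfl, hq3, hq4, hq5⟩ := Finset.mem_filter.mp hq
      simp only at hq3 hq4 hq5
      subst hq3
      subst hq4
      obtain ⟨g1, g2, g3, g4, _⟩ := hS _ hq1
      exact h2 d _ i j i' j' i'' j'' hd g1 g2 g3 hq5 g4
    · exact STD_.inj1 _ c c (c + 1) fun q hq => by
        obtain ⟨_, e1, e2, e3, _⟩ := Finset.mem_filter.mp hq
        exact ⟨e1, e2, e3⟩
  have bd : ∀ c, (Sd c).card ≤ 5 * M := by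
    intro c
    apply STD_.bnd (Sd c) STD_.f2 (PB d) (5 * M)
    · intro T hT
      have := h6 d B hd hB hDB T hT
      rw [hM]; linarith [this, (by ring : 5 * d ^ 3 * B ^ 4 = 5 * (d ^ 3 * B ^ 4))]
    · rintro ⟨⟨a, i, j⟩, ⟨a', i', j'⟩, ⟨a'', i'', j''⟩⟩ hq
      obtain ⟨hq1, rfl, hq3, hq4, hq5⟩ := Finset.mem_filter.mp hq
      simp only at hq3 hq4 hq5
      subst hq3
      subst hq4
      obtain ⟨g1, g2, g3, g4, _⟩ := hS _ hq1
      exact h3 d _ i j i' j' i'' j'' hd g1 g2 g3 hq5 g4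
    · exact STD_.inj2 _ c c (c + 2) fun q hq => by
        obtain ⟨_, e1, e2, e3, _⟩ := Finset.mem_filter.mp hq
        exact ⟨e1, e2, e3⟩
  have bc : ∀ c, (Sc c).card ≤ 8 * M := by
    intro c
    apply STD_.bnd (Sc c) STD_.f1 (PC d) (8 * M)
    · intro T hT
      have := h7 d B hd hB hDB T hT
      rw [hM]; linarith [this, (by ring : 8 * d ^ 3 * B ^ 4 = 8 * (d ^ 3 * B ^ 4))]
    · rintro ⟨⟨a, i, j⟩, ⟨a', i', j'⟩, ⟨a'', i'', j''⟩⟩ hq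
      obtain ⟨hq1, rfl, hq3, hq4⟩ := Finset.mem_filter.mp hq
      simp only at hq3 hq4
      subst hq3
      subst hq4
      obtain ⟨g1, g2, g3, g4, _⟩ := hS _ hq1
      exact h4 d _ i j i' j' i'' j'' hd g1 g2 g3 g4
    · exact STD_.inj1 _ c (c + 1) (c + 2) fun q hq => by
        obtain ⟨_, e1, e2, e3⟩ := Finset.mem_filter.mp hq
        exact ⟨e1, e2, e3⟩
  have hcov : S ⊆ Finset.univ.biUnion fun c : Fin 3 => Sa c ∪ (Sb c ∪ (Sd c ∪ Sc c)) := by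
    intro q hq
    rw [Finset.mem_biUnion]
    refine ⟨q.1.1, Finset.mem_univ _, ?_⟩
    obtain ⟨_, _, _, _, hp⟩ := hS q hq
    rcases hp with ⟨e1, e2, e3, e4⟩ | ⟨e1, e2, e3⟩ | ⟨e1, e2, e3⟩ | ⟨e1, e2⟩
    · exact Finset.mem_union_left _ (Finset.mem_filter.mpr ⟨hq, rfl, e1, e2, e3, e4⟩)
    · exact Finset.mem_union_right _ (Finset.mem_union_left _
        (Finset.mem_filter.mpr ⟨hq, rfl, e1, e2, e3⟩))
    · exact Finset.mem_union_right _ (Finset.mem_union_right _ (Finset.mem_union_left _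
        (Finset.mem_filter.mpr ⟨hq, rfl, e1, e2, e3⟩)))
    · exact Finset.mem_union_right _ (Finset.mem_union_right _ (Finset.mem_union_right _
        (Finset.mem_filter.mpr ⟨hq, rfl, e1, e2⟩)))
  have hc : ∀ c : Fin 3, (Sa c ∪ (Sb c ∪ (Sd c ∪ Sc c))).card ≤ 26 * M := by
    intro c
    have e1 := Finset.card_union_le (Sa c) (Sb c ∪ (Sd c ∪ Sc c))
    have e2 := Finset.card_union_le (Sb c) (Sd c ∪ Sc c)
    have e3 := Finset.card_union_le (Sd c) (Sc c)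
    have e4 := ba c
    have e5 := bb c
    have e6 := bd c
    have e7 := bc c
    omega
  calc S.card ≤ (Finset.univ.biUnion fun c : Fin 3 => Sa c ∪ (Sb c ∪ (Sd c ∪ Sc c))).card :=
        Finset.card_le_card hcov
    _ ≤ ∑ c : Fin 3, (Sa c ∪ (Sb c ∪ (Sd c ∪ Sc c))).card := Finset.card_biUnion_le
    _ ≤ ∑ _c : Fin 3, 26 * M := Finset.sum_le_sum fun c _ => hc c
    _ = 78 * d ^ 3 * B ^ 4 := by
        rw [Finset.sum_const, Finset.card_univ, Fintype.card_fin, hM]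
        simp only [smul_eq_mul]
        ring

end

end Pool.Agent.WSR
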