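import Pool.Agent.WSR.Stmts

set_option autoImplicit false

/-!
# WSR, module TRI: the number of the concurrent triples
-/

open scoped BigOperators Topology

namespace Pool.Agent.WSR

noncomputable section

namespace TRI_

/-- The standard patterns. -/
def pat (q : Ix × Ix × Ix) : Prop :=
  (q.2.1.1 = q.1.1 ∧ q.2.2.1 = q.1.1 ∧ q.1.2.1 < q.2.1.2.1 ∧ q.2.1.2.1 < q.2.2.2.1) ∨
  (q.2.1.1 = q.1.1 ∧ q.2.2.1 = q.1.1 + 1 ∧ q.1.2.1 < q.2.1.2.1) ∨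
  (q.2.1.1 = q.1.1 ∧ q.2.2.1 = q.1.1 + 2 ∧ q.1.2.2 < q.2.1.2.2) ∨
  (q.2.1.1 = q.1.1 + 1 ∧ q.2.2.1 = q.1.1 + 2)

/-- The permutations of a triple. -/
def sg (k : Fin 6) (q : Ix × Ix × Ix) : Ix × Ix × Ix :=
  match k with
  | 0 => (q.1, q.2.1, q.2.2)
  | 1 => (q.1, q.2.2, q.2.1)
  | 2 => (q.2.1, q.1, q.2.2)
  | 3 => (q.2.1, q.2.2, q.1)
  | 4 => (q.2.2, q.1, q.2.1)
  | 5 => (q.2.2, q.2.1, q.1)

theorem sg_inj (k : Fin 6) : Function.Injective (sg k) := by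
  rintro ⟨a, b, c⟩ ⟨a', b', c'⟩ h
  fin_cases k <;> simp only [sg, Prod.mk.injEq] at h ⊢ <;> tauto

theorem cover (a b c : Ix)
    (hab : a.1 = b.1 → (a.2.1 < b.2.1 ∧ b.2.2 < a.2.2) ∨ (b.2.1 < a.2.1 ∧ a.2.2 < b.2.2))
    (hac : a.1 = c.1 → (a.2.1 < c.2.1 ∧ c.2.2 < a.2.2) ∨ (c.2.1 < a.2.1 ∧ a.2.2 < c.2.2))
    (hbc : b.1 = c.1 → (b.2.1 < c.2.1 ∧ c.2.2 < b.2.2) ∨ (c.2.1 < b.2.1 ∧ b.2.2 < c.2.2)) :
    ∃ k : Fin 6, pat (sg k (a, b, c)) := by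
  have key : pat (a, b, c) ∨ pat (a, c, b) ∨ pat (b, a, c) ∨ pat (b, c, a) ∨ pat (c, a, b) ∨
      pat (c, b, a) := by
    obtain ⟨a1, a2, a3⟩ := a
    obtain ⟨b1, b2, b3⟩ := b
    obtain ⟨c1, c2, c3⟩ := c
    simp only [pat] at *
    fin_cases a1 <;> fin_cases b1 <;> fin_cases c1 <;> simp at hab hac hbc ⊢ <;> omega
  rcases key with h | h | h | h | h | h
  · exact ⟨0, h⟩
  · exact ⟨1, h⟩
  · exact ⟨2, h⟩
  · exact ⟨3, h⟩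
  · exact ⟨4, h⟩
  · exact ⟨5, h⟩

/-- The properties which do not depend on the order. -/
def Q (d : ℕ) (q : Ix × Ix × Ix) : Prop :=
  q.1 ∈ lines d ∧ q.2.1 ∈ lines d ∧ q.2.2 ∈ lines d ∧ Cs d q.1 q.2.1 q.2.2

theorem Q_sg (d : ℕ) (k : Fin 6) (q : Ix × Ix × Ix) (h : Q d q) : Q d (sg k q) := by
  obtain ⟨h1, h2, h3, p, hp, e1, e2, e3⟩ := h
  fin_cases k <;> simp only [sg, Q]
  · exact ⟨h1, h2, h3, p, hp, e1, e2, e3⟩
  · exact ⟨h1, h3, h2, p, hp, e1, e3, e2⟩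
  · exact ⟨h2, h1, h3, p, hp, e2, e1, e3⟩
  · exact ⟨h2, h3, h1, p, hp, e2, e3, e1⟩
  · exact ⟨h3, h1, h2, p, hp, e3, e1, e2⟩
  · exact ⟨h3, h2, h1, p, hp, e3, e2, e1⟩

end TRI_

open TRI_ in
theorem tri_proof (h1 : Stmt_STD) (h2 : Stmt_CRA) : Stmt_TRI := by
  classical
  intro d B hd hB hDB
  have ord : ∀ a b : Ix, a ∈ lines d → b ∈ lines d → a ≠ b → Xs d a b → a.1 = b.1 →
      (a.2.1 < b.2.1 ∧ b.2.2 < a.2.2) ∨ (b.2.1 < a.2.1 ∧ a.2.2 < b.2.2) := by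
    rintro ⟨a1, a2, a3⟩ ⟨b1, b2, b3⟩ ha hb hne hx hc
    simp only at hc
    subst hc
    have hne' : (a2, a3) ≠ (b2, b3) := fun h => hne (by rw [h])
    exact (h2 d a1 a2 a3 b2 b3 hd ha hb hne').1 hx
  have hT : ∀ q ∈ T3s d (lines d), Q d q ∧ ∃ k : Fin 6, pat (sg k q) := by
    rintro ⟨a, b, c⟩ hq
    simp only [T3s, Finset.mem_filter, Finset.mem_product] at hq
    obtain ⟨⟨ha, hb, hc⟩, hab, hac, hbc, p, hp, ea, eb, ec⟩ := hq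
    refine ⟨⟨ha, hb, hc, p, hp, ea, eb, ec⟩, cover a b c ?_ ?_ ?_⟩
    · exact ord a b ha hb hab ⟨p, hp, ea, eb⟩
    · exact ord a c ha hc hac ⟨p, hp, ea, ec⟩
    · exact ord b c hb hc hbc ⟨p, hp, eb, ec⟩
  have hsub : T3s d (lines d) ⊆
      (Finset.univ : Finset (Fin 6)).biUnion fun k => (T3s d (lines d)).filter fun q =>
        pat (sg k q) := by
    intro q hq
    obtain ⟨k, hk⟩ := (hT q hq).2
    exact Finset.mem_biUnion.2 ⟨k, Finset.mem_univ _, Finset.mem_filter.2 ⟨hq, hk⟩⟩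
  have hcard : ∀ k ∈ (Finset.univ : Finset (Fin 6)),
      ((T3s d (lines d)).filter fun q => pat (sg k q)).card ≤ 78 * d ^ 3 * B ^ 4 := by
    intro k _
    rw [← Finset.card_image_of_injective _ (sg_inj k)]
    refine h1 d B hd hB hDB _ ?_
    intro q hq
    obtain ⟨q', hq', rfl⟩ := Finset.mem_image.1 hq
    obtain ⟨hq1, hq2⟩ := Finset.mem_filter.1 hq'
    obtain ⟨e1, e2, e3, e4⟩ := Q_sg d k q' (hT q' hq1).1
    exact ⟨e1, e2, e3, e4, hq2⟩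
  refine (Finset.card_le_card hsub).trans
    ((Finset.card_biUnion_le_card_mul _ _ _ hcard).trans (le_of_eq ?_))
  rw [Finset.card_univ, Fintype.card_fin]
  ring

end

end Pool.Agent.WSR
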