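import Pool.Agent.WSR.AFC
import Pool.Agent.WSR.AH1
import Pool.Agent.WSR.AH2
import Pool.Agent.WSR.ARRA
import Pool.Agent.WSR.ARRB
import Pool.Agent.WSR.B1
import Pool.Agent.WSR.B2
import Pool.Agent.WSR.BD
import Pool.Agent.WSR.BFC
import Pool.Agent.WSR.BH1
import Pool.Agent.WSR.BH2
import Pool.Agent.WSR.C1
import Pool.Agent.WSR.CA
import Pool.Agent.WSR.CB
import Pool.Agent.WSR.CC
import Pool.Agent.WSR.CD
import Pool.Agent.WSR.CFC
import Pool.Agent.WSR.CH
import Pool.Agent.WSR.CMP
import Pool.Agent.WSR.CNT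
import Pool.Agent.WSR.CRA
import Pool.Agent.WSR.CRB
import Pool.Agent.WSR.CUTA
import Pool.Agent.WSR.CUTB
import Pool.Agent.WSR.DIV
import Pool.Agent.WSR.EQA
import Pool.Agent.WSR.EQB
import Pool.Agent.WSR.EQC
import Pool.Agent.WSR.EQD
import Pool.Agent.WSR.FAC
import Pool.Agent.WSR.FIN
import Pool.Agent.WSR.GEOA
import Pool.Agent.WSR.GEOB
import Pool.Agent.WSR.GEOC
import Pool.Agent.WSR.HOM
import Pool.Agent.WSR.HYP
import Pool.Agent.WSR.MRK
import Pool.Agent.WSR.REC
import Pool.Agent.WSR.SID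
import Pool.Agent.WSR.STD
import Pool.Agent.WSR.TRI

set_option autoImplicit false

/-!
# WSR: all modules together
-/

namespace Pool.Agent.WSR

theorem all_fin : Stmt_FIN := by
  have hHOM : Stmt_HOM := hom_proof (cuta_proof mrk_proof sid_proof) (cutb_proof mrk_proof sid_proof)
  have hARRA : Stmt_ARRA := arra_proof rec_proof geoa_proof (geoc_proof geob_proof)
  have hARRB : Stmt_ARRB := arrb_proof rec_proof geoa_proof hARRA
  have hCNT : Stmt_CNT := cnt_proof cra_proof crb_proof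
  have hCA : Stmt_CA := ca_proof (ah1_proof hyp_proof) (ah2_proof hyp_proof) (afc_proof fac_proof)
  have hCB : Stmt_CB := cb_proof bd_proof (bfc_proof fac_proof) (b1_proof (bh1_proof hyp_proof))
    (b2_proof (bh2_proof hyp_proof))
  have hCC : Stmt_CC := cc_proof cd_proof (cfc_proof fac_proof) (c1_proof (ch_proof hyp_proof))
  have hSTD : Stmt_STD := std_proof eqa_proof eqb_proof eqd_proof eqc_proof hCA hCB hCC
  have hTRI : Stmt_TRI := tri_proof hSTD cra_proof
  exact fin_proof hHOM cmp_proof hARRB hCNT div_proof hTRI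

end Pool.Agent.WSR
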