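import Pool.Agent.WSR.Stmts

set_option autoImplicit false

open scoped BigOperators Topology

namespace Pool.Agent.WSR

namespace CNT_

theorem sum_rot (G : Fin 3 → ℕ) (c : Fin 3) : ∑ c', G c' = G c + G (c + 1) + G (c + 2) := by
  rw [Fin.sum_univ_three]
  fin_cases c
  · show G 0 + G 1 + G 2 = G 0 + G 1 + G 2
    rfl
  · show G 0 + G 1 + G 2 = G 1 + G 2 + G 0
    omega
  · show G 0 + G 1 + G 2 = G 2 + G 0 + G 1
    omega

theorem xs_symm (d : ℕ) (l l' : Ix) : Xs d l l' ↔ Xs d l' l := by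
  unfold Xs
  constructor
  · rintro ⟨p, h1, h2, h3⟩; exact ⟨p, h1, h3, h2⟩
  · rintro ⟨p, h1, h2, h3⟩; exact ⟨p, h1, h3, h2⟩

theorem sum_lines (d : ℕ) (f : Ix → ℕ) : ∑ l ∈ lines d, f l =
    ∑ c : Fin 3, ∑ i ∈ Finset.Icc 1 d, ∑ j ∈ Finset.Icc 1 (d - 1), f (c, i, j) := by
  unfold lines
  rw [Finset.sum_product]
  refine Finset.sum_congr rfl fun c _ => ?_
  rw [Finset.sum_product]

/-- pairs `i < i'` -/
def g (n : ℕ) : ℕ := ∑ i ∈ Finset.Icc 1 n, ∑ i' ∈ Finset.Icc 1 n, if i < i' then 1 else 0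

theorem g_eq (n : ℕ) : 2 * g n = n * (n - 1) := by
  have h1 : g n = ∑ i' ∈ Finset.Icc 1 n, (i' - 1) := by
    unfold g
    rw [Finset.sum_comm]
    refine Finset.sum_congr rfl fun i' hi' => ?_
    rw [← Finset.card_filter]
    have : (Finset.Icc 1 n).filter (fun i => i < i') = Finset.Ico 1 i' := by
      ext i
      simp only [Finset.mem_filter, Finset.mem_Icc, Finset.mem_Ico] at hi' ⊢
      omega
    rw [this, Nat.card_Ico]
  have h2 : ∀ n : ℕ, ∑ i' ∈ Finset.Icc 1 n, (i' - 1) = ∑ k ∈ Finset.range n, k := by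
    intro n
    induction n with
    | zero => simp
    | succ n ih =>
      rw [Finset.sum_Icc_succ_top (by omega), Finset.sum_range_succ, ih]
      simp
  rw [h1, h2, mul_comm]
  exact Finset.sum_range_id_mul_two n

/-- pairs with `d < i + j` -/
def h (d : ℕ) : ℕ := ∑ i ∈ Finset.Icc 1 d, ∑ j ∈ Finset.Icc 1 (d - 1), if d < i + j then 1 else 0

theorem h_eq (d : ℕ) (hd : 1 ≤ d) : 2 * h d = d * (d - 1) := by
  have h1 : h d = ∑ j ∈ Finset.Icc 1 (d - 1), j := by
    unfold h
    rw [Finset.sum_comm]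
    refine Finset.sum_congr rfl fun j hj => ?_
    rw [← Finset.card_filter]
    have : (Finset.Icc 1 d).filter (fun i => d < i + j) = Finset.Ioc (d - j) d := by
      ext i
      simp only [Finset.mem_filter, Finset.mem_Icc, Finset.mem_Ioc] at hj ⊢
      omega
    rw [this, Nat.card_Ioc]
    simp only [Finset.mem_Icc] at hj
    omega
  have h2 : ∀ n : ℕ, ∑ j ∈ Finset.Icc 1 n, j = ∑ k ∈ Finset.range (n + 1), k := by
    intro n
    induction n with
    | zero => simp
    | succ n ih =>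
      rw [Finset.sum_Icc_succ_top (by omega), Finset.sum_range_succ, ih]
  rw [h1, h2, mul_comm, Finset.sum_range_id_mul_two]
  have : d - 1 + 1 = d := by omega
  rw [this]

theorem sum4 (I J : Finset ℕ) (A B : ℕ → ℕ → ℕ) :
    ∑ i ∈ I, ∑ j ∈ J, ∑ i' ∈ I, ∑ j' ∈ J, A i i' * B j j' =
      (∑ i ∈ I, ∑ i' ∈ I, A i i') * (∑ j ∈ J, ∑ j' ∈ J, B j j') := by
  simp only [← Finset.mul_sum, ← Finset.sum_mul]

theorem S0 (d : ℕ) : ∑ i ∈ Finset.Icc 1 d, ∑ j ∈ Finset.Icc 1 (d - 1),
    ∑ i' ∈ Finset.Icc 1 d, ∑ j' ∈ Finset.Icc 1 (d - 1),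
      (if (i < i' ∧ j' < j) ∨ (i' < i ∧ j < j') then 1 else 0) = 2 * (g d * g (d - 1)) := by
  have e : ∀ i j i' j' : ℕ, (if (i < i' ∧ j' < j) ∨ (i' < i ∧ j < j') then 1 else 0) =
      (if i < i' then 1 else 0) * (if j' < j then 1 else 0) +
      (if i' < i then 1 else 0) * (if j < j' then 1 else 0) := by
    intro i j i' j'
    by_cases h1 : i < i' <;> by_cases h2 : i' < i <;> by_cases h3 : j < j' <;>
      by_cases h4 : j' < j <;> simp [h1, h2, h3, h4] <;> omega
  simp only [e, Finset.sum_add_distrib]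
  rw [sum4 (Finset.Icc 1 d) (Finset.Icc 1 (d - 1)) (fun i i' => if i < i' then 1 else 0)
      (fun j j' => if j' < j then 1 else 0),
    sum4 (Finset.Icc 1 d) (Finset.Icc 1 (d - 1)) (fun i i' => if i' < i then 1 else 0)
      (fun j j' => if j < j' then 1 else 0)]
  have c1 : ∀ n : ℕ, (∑ i ∈ Finset.Icc 1 n, ∑ i' ∈ Finset.Icc 1 n, if i' < i then 1 else 0) =
      g n := by
    intro n
    unfold g
    rw [Finset.sum_comm]
  rw [c1, c1]
  unfold g
  ring

theorem S1 (d : ℕ) : ∑ i ∈ Finset.Icc 1 d, ∑ _j ∈ Finset.Icc 1 (d - 1),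
    ∑ _i' ∈ Finset.Icc 1 d, ∑ j' ∈ Finset.Icc 1 (d - 1),
      (if d < i + j' then 1 else 0) = (d - 1) * (d * h d) := by
  simp only [Finset.sum_const, Nat.card_Icc, smul_eq_mul, ← Finset.mul_sum]
  unfold h
  have e1 : d - 1 + 1 - 1 = d - 1 := by omega
  have e2 : d + 1 - 1 = d := by omega
  rw [e1, e2]

theorem S2 (d : ℕ) : ∑ _i ∈ Finset.Icc 1 d, ∑ j ∈ Finset.Icc 1 (d - 1),
    ∑ i' ∈ Finset.Icc 1 d, ∑ _j' ∈ Finset.Icc 1 (d - 1),
      (if d < i' + j then 1 else 0) = d * ((d - 1) * h d) := by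
  simp only [Finset.sum_const, Nat.card_Icc, smul_eq_mul, ← Finset.mul_sum]
  unfold h
  have e1 : d - 1 + 1 - 1 = d - 1 := by omega
  have e2 : d + 1 - 1 = d := by omega
  rw [e1, e2, Finset.sum_comm]

end CNT_

open CNT_

theorem cnt_proof (h1 : Stmt_CRA) (h2 : Stmt_CRB) : Stmt_CNT := by
  classical
  intro d hd
  refine ⟨?_, ?_⟩
  · unfold lines
    rw [Finset.card_product, Finset.card_product, Nat.card_Icc, Nat.card_Icc, Finset.card_univ,
      Fintype.card_fin]
    have e1 : d - 1 + 1 - 1 = d - 1 := by omega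
    have e2 : d + 1 - 1 = d := by omega
    rw [e1, e2]
    ring
  · have hmem : ∀ (c : Fin 3) (i j : ℕ), i ∈ Finset.Icc 1 d → j ∈ Finset.Icc 1 (d - 1) →
        (c, i, j) ∈ lines d := by
      intro c i j hi hj
      unfold lines
      simp only [Finset.mem_product, Finset.mem_univ, true_and]
      exact ⟨hi, hj⟩
    have hX : X2 d (lines d) = ∑ l ∈ lines d, ∑ l' ∈ lines d,
        if l ≠ l' ∧ Xs d l l' then 1 else 0 := by
      unfold X2
      rw [Finset.card_filter, Finset.sum_product]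
    have hrow : ∀ (c : Fin 3) (i j : ℕ), i ∈ Finset.Icc 1 d → j ∈ Finset.Icc 1 (d - 1) →
        ∑ l' ∈ lines d, (if (c, i, j) ≠ l' ∧ Xs d (c, i, j) l' then 1 else 0) =
        (∑ i' ∈ Finset.Icc 1 d, ∑ j' ∈ Finset.Icc 1 (d - 1),
          (if (i < i' ∧ j' < j) ∨ (i' < i ∧ j < j') then 1 else 0)) +
        (∑ _i' ∈ Finset.Icc 1 d, ∑ j' ∈ Finset.Icc 1 (d - 1),
          (if d < i + j' then 1 else 0)) +
        (∑ i' ∈ Finset.Icc 1 d, ∑ _j' ∈ Finset.Icc 1 (d - 1),
          (if d < i' + j then 1 else 0)) := by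
      intro c i j hi hj
      rw [sum_lines, sum_rot _ c]
      congr 1
      · congr 1
        · refine Finset.sum_congr rfl fun i' hi' => Finset.sum_congr rfl fun j' hj' => ?_
          by_cases he : (i, j) = (i', j')
          · have e1 : i = i' := congrArg Prod.fst he
            have e2 : j = j' := congrArg Prod.snd he
            subst e1; subst e2
            simp
          · have hne : (c, i, j) ≠ ((c, i', j') : Ix) := by
              intro h
              exact he (congrArg Prod.snd h)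
            have := h1 d c i j i' j' hd (hmem c i j hi hj) (hmem c i' j' hi' hj') he
            simp only [this, hne, ne_eq, not_false_eq_true, true_and]
        · refine Finset.sum_congr rfl fun i' hi' => Finset.sum_congr rfl fun j' hj' => ?_
          have hne : (c, i, j) ≠ ((c + 1, i', j') : Ix) := by
            intro h
            have h3 : c = c + 1 := congrArg Prod.fst h
            revert h3
            fin_cases c <;> decide
          have := h2 d c i j i' j' hd (hmem c i j hi hj) (hmem (c + 1) i' j' hi' hj')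
          simp only [this, hne, ne_eq, not_false_eq_true, true_and]
      · refine Finset.sum_congr rfl fun i' hi' => Finset.sum_congr rfl fun j' hj' => ?_
        have hne : (c, i, j) ≠ ((c + 2, i', j') : Ix) := by
          intro h
          have h3 : c = c + 2 := congrArg Prod.fst h
          revert h3
          fin_cases c <;> decide
        have hc : c + 2 + 1 = c := by fin_cases c <;> rfl
        have := h2 d (c + 2) i' j' i j hd (hmem (c + 2) i' j' hi' hj')
          (by rw [hc]; exact hmem c i j hi hj)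
        rw [hc] at this
        rw [xs_symm] at this
        simp only [this, hne, ne_eq, not_false_eq_true, true_and]
    have htot : X2 d (lines d) = 3 * (2 * (g d * g (d - 1)) + (d - 1) * (d * h d) +
        d * ((d - 1) * h d)) := by
      rw [hX, sum_lines]
      have : ∀ c : Fin 3, (∑ i ∈ Finset.Icc 1 d, ∑ j ∈ Finset.Icc 1 (d - 1),
          ∑ l' ∈ lines d, (if (c, i, j) ≠ l' ∧ Xs d (c, i, j) l' then 1 else 0)) =
          2 * (g d * g (d - 1)) + (d - 1) * (d * h d) + d * ((d - 1) * h d) := by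
        intro c
        rw [← S0, ← S1, ← S2, ← Finset.sum_add_distrib, ← Finset.sum_add_distrib]
        refine Finset.sum_congr rfl fun i hi => ?_
        rw [← Finset.sum_add_distrib, ← Finset.sum_add_distrib]
        refine Finset.sum_congr rfl fun j hj => ?_
        exact hrow c i j hi hj
      simp only [this, Finset.sum_const, Finset.card_univ, Fintype.card_fin, smul_eq_mul]
    have e1 := g_eq d
    have e2 := g_eq (d - 1)
    have e3 := h_eq d hd
    rw [htot]
    obtain ⟨n, rfl⟩ : ∃ n, d = n + 1 := ⟨d - 1, by omega⟩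
    simp only [Nat.add_sub_cancel] at e1 e2 e3 ⊢
    rcases Nat.eq_zero_or_pos n with rfl | hn
    · simp at e2 ⊢
      exact Or.inr e2
    · obtain ⟨m, rfl⟩ : ∃ m, n = m + 1 := ⟨n - 1, by omega⟩
      simp only [Nat.add_sub_cancel] at e2
      have e4 : 3 * (m + 1 + 1) - 2 = 3 * m + 4 := by omega
      rw [e4]
      have e5 : 4 * (g (m + 1 + 1) * g (m + 1)) =
          ((m + 1 + 1) * (m + 1)) * ((m + 1) * m) := by
        rw [← e1, ← e2]; ring
      have e6 : 2 * (3 * (2 * (g (m + 1 + 1) * g (m + 1)) +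
          (m + 1) * ((m + 1 + 1) * h (m + 1 + 1)) +
          (m + 1 + 1) * ((m + 1) * h (m + 1 + 1)))) =
          3 * (4 * (g (m + 1 + 1) * g (m + 1))) +
          6 * ((m + 1) * (m + 1 + 1) * (2 * h (m + 1 + 1))) := by ring
      rw [e6, e5, e3]
      ring

end Pool.Agent.WSR
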