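import Mathlib

set_option autoImplicit false

/-!
# WSR: the number of regions of the Wang-Shi split (problem MP_968b5d_co)

Definitions.
-/

open scoped BigOperators Topology

namespace Pool.Agent.WSR

noncomputable section

/-! ## The objects of the problem -/

/-- The Euclidean plane. -/
abbrev E2 := EuclideanSpace ℝ (Fin 2)

/-- The marked points of the triangle with the vertices `b 0`, `b 1`, `b 2`: the vertices and the
points which cut a side into `d` segments of equal length. -/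
def IsMarked (b : AffineBasis (Fin 3) ℝ E2) (d : ℕ) (P : E2) : Prop :=
  ∃ (i j : Fin 3) (k : ℕ), k ≤ d ∧ P = AffineMap.lineMap (b i) (b j) ((k : ℝ) / (d : ℝ))

/-- The cross-cuts: the closed segments joining two marked points which do not lie on a common
side. -/
def cuts (b : AffineBasis (Fin 3) ℝ E2) (d : ℕ) : Set (Set E2) :=
  {s | ∃ P Q : E2, IsMarked b d P ∧ IsMarked b d Q ∧
    (∀ i j : Fin 3, ¬ (P ∈ segment ℝ (b i) (b j) ∧ Q ∈ segment ℝ (b i) (b j))) ∧
    s = segment ℝ P Q}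

/-- The interior of the triangle minus the cross-cuts. -/
def body (b : AffineBasis (Fin 3) ℝ E2) (d : ℕ) : Set E2 :=
  interior (convexHull ℝ (Set.range b)) \ ⋃₀ cuts b d

/-- The number of regions of the Wang-Shi split. -/
def R (b : AffineBasis (Fin 3) ℝ E2) (d : ℕ) : ℕ := Nat.card (ConnectedComponents (body b d))

/-- The number of regions in the case that no three cross-cuts meet in an interior point. -/
def Pd (d : ℕ) : ℝ :=
  1 + 3 * (d : ℝ) * ((d : ℝ) - 1) +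
    3 / 4 * (d : ℝ) * ((d : ℝ) - 1) ^ 2 * (3 * (d : ℝ) - 2)

/-! ## Barycentric coordinates -/

/-- Barycentric coordinates. -/
abbrev B3 := Fin 3 → ℝ

/-- Barycentric coordinates with sum `d`. -/
def bary (b : AffineBasis (Fin 3) ℝ E2) (d : ℕ) (x : E2) : B3 := fun c => (d : ℝ) * b.coord c x

/-- The open triangle. -/
def Tri (d : ℕ) : Set B3 := {p | (∀ c, 0 < p c) ∧ p 0 + p 1 + p 2 = d}

/-- The index of a line: `(c, i, j)` is the line through the points of the sides at the corner `c`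
with distance `i` from `c` towards `c + 1` and distance `j` from `c` towards `c + 2`. -/
abbrev Ix := Fin 3 × ℕ × ℕ

/-- The indices of the cross-cuts (`i = d`: the cevians from the vertex `c + 1`). -/
def lines (d : ℕ) : Finset Ix := Finset.univ ×ˢ (Finset.Icc 1 d ×ˢ Finset.Icc 1 (d - 1))

/-- The linear part of the equation of a line. -/
def L (l : Ix) (p : B3) : ℝ := (l.2.2 : ℝ) * p (l.1 + 1) + (l.2.1 : ℝ) * p (l.1 + 2)

/-- The equation of a line. -/
def F (l : Ix) (p : B3) : ℝ := L l p - (l.2.1 : ℝ) * (l.2.2 : ℝ)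

/-- The points of `K` on no line of `s`. -/
def off (K : Set B3) (s : Finset Ix) : Set B3 := {p | p ∈ K ∧ ∀ l ∈ s, F l p ≠ 0}

open Classical in
/-- The sign patterns of the lines of `s` on `K`. -/
def pats (K : Set B3) (s : Finset Ix) : Set (Finset Ix) :=
  {t | ∃ p ∈ off K s, t = s.filter (fun l => 0 < F l p)}

/-- The number of the sign patterns. -/
def N (K : Set B3) (s : Finset Ix) : ℕ := (pats K s).ncard

/-- The part of `K` on the line `l`. -/
def cut (K : Set B3) (l : Ix) : Set B3 := {p | p ∈ K ∧ F l p = 0}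

/-- The line `l` crosses `K` transversally at all its points in `K`. -/
def Cross (K : Set B3) (l : Ix) : Prop :=
  ∀ p ∈ cut K l, ∃ v : B3, L l v ≠ 0 ∧ ∃ δ : ℝ, 0 < δ ∧ ∀ t : ℝ, |t| < δ → p + t • v ∈ K

/-- Two lines meet in the open triangle. -/
def Xs (d : ℕ) (l l' : Ix) : Prop := ∃ p ∈ Tri d, F l p = 0 ∧ F l' p = 0

/-- Three lines meet in a point of the open triangle. -/
def Cs (d : ℕ) (l l' l'' : Ix) : Prop := ∃ p ∈ Tri d, F l p = 0 ∧ F l' p = 0 ∧ F l'' p = 0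

open Classical in
/-- The number of the lines of `s` which meet `l` in the open triangle. -/
def X1 (d : ℕ) (l : Ix) (s : Finset Ix) : ℕ := (s.filter fun l' => Xs d l l').card

open Classical in
/-- The number of the ordered pairs of distinct lines of `s` concurrent with `l`. -/
def T2 (d : ℕ) (l : Ix) (s : Finset Ix) : ℕ :=
  ((s ×ˢ s).filter fun q => q.1 ≠ q.2 ∧ Cs d l q.1 q.2).card

open Classical in
/-- The number of the ordered pairs of distinct lines of `s` which meet in the open triangle. -/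
def X2 (d : ℕ) (s : Finset Ix) : ℕ := ((s ×ˢ s).filter fun q => q.1 ≠ q.2 ∧ Xs d q.1 q.2).card

open Classical in
/-- The ordered triples of distinct lines of `s` which meet in a point of the open triangle. -/
def T3s (d : ℕ) (s : Finset Ix) : Finset (Ix × Ix × Ix) :=
  (s ×ˢ (s ×ˢ s)).filter fun q => q.1 ≠ q.2.1 ∧ q.1 ≠ q.2.2 ∧ q.2.1 ≠ q.2.2 ∧
    Cs d q.1 q.2.1 q.2.2

/-! ## Divisors and the arithmetic conditions -/

/-- `B` bounds the number of divisors of all the numbers which occur. -/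
def DB (d B : ℕ) : Prop := ∀ n : ℕ, 0 < n → n ≤ (2 * d) ^ 20 → n.divisors.card ≤ B

/-- Six natural numbers. -/
abbrev N6 := ℕ × ℕ × ℕ × ℕ × ℕ × ℕ

/-- All six numbers lie in `[1, d]`. -/
def In6 (d : ℕ) : N6 → Prop
  | (a₁, a₂, a₃, a₄, a₅, a₆) => (1 ≤ a₁ ∧ a₁ ≤ d) ∧ (1 ≤ a₂ ∧ a₂ ≤ d) ∧ (1 ≤ a₃ ∧ a₃ ≤ d) ∧
      (1 ≤ a₄ ∧ a₄ ≤ d) ∧ (1 ≤ a₅ ∧ a₅ ≤ d) ∧ (1 ≤ a₆ ∧ a₆ ≤ d)

/-- The form `a b + w (d - a - b)`. -/
def Phi (d a b w : ℤ) : ℤ := a * b + w * (d - a - b)

/-- Three lines of the same corner: `(u₁, z₁, u₂, z₂, u₃, z₃)`. -/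
def PA (d : ℕ) : N6 → Prop
  | (u₁, z₁, u₂, z₂, u₃, z₃) => In6 d (u₁, z₁, u₂, z₂, u₃, z₃) ∧
      u₁ < u₂ ∧ u₂ < u₃ ∧ z₃ < z₂ ∧ z₂ < z₁ ∧
      (z₁ : ℤ) * (u₂ - u₁) * u₃ * (z₂ - z₃) = u₁ * (z₁ - z₂) * z₃ * (u₃ - u₂)

/-- Two lines of a corner and a line of another corner: `(u₁, z₁, u₂, z₂, w, v)`. -/
def PB (d : ℕ) : N6 → Prop
  | (u₁, z₁, u₂, z₂, w, v) => In6 d (u₁, z₁, u₂, z₂, w, v) ∧
      u₁ < u₂ ∧ z₂ < z₁ ∧ d < u₁ + v ∧ 0 < Phi d v z₂ w ∧ 0 < Phi d z₁ (d - u₂) w ∧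
      (z₁ : ℤ) * (u₂ - u₁) * Phi d v z₂ w = u₁ * (z₁ - z₂) * w * (u₂ + v - d)

/-- Three lines of different corners: `(u, z, w, v, y, x)`. -/
def PC (d : ℕ) : N6 → Prop
  | (u, z, w, v, y, x) => In6 d (u, z, w, v, y, x) ∧
      d < u + v ∧ d < w + x ∧ d < y + z ∧ 0 < Phi d v z w ∧ 0 < Phi d u y x ∧
      (w : ℤ) * x * (u + v - d) * (z + y - d) = Phi d v z w * Phi d u y x

end

end Pool.Agent.WSR
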