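import Pool.Agent.WSR.Stmts

/-!
# WSR, module SID: the sides in barycentric coordinates
-/

set_option autoImplicit false

namespace Pool.Agent.WSR

namespace SID_

theorem coord_zero (b : AffineBasis (Fin 3) ℝ E2) (P : E2) (i j c : Fin 3) (hi : c ≠ i)
    (hj : c ≠ j) (h : P ∈ segment ℝ (b i) (b j)) : b.coord c P = 0 := by
  rw [segment_eq_image_lineMap] at h
  obtain ⟨t, -, rfl⟩ := h
  rw [AffineMap.apply_lineMap, b.coord_apply_ne hi, b.coord_apply_ne hj,
    AffineMap.lineMap_same_apply]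

theorem sum_three (c : Fin 3) {M : Type*} [AddCommMonoid M] (f : Fin 3 → M) :
    ∑ k, f k = f c + (f (c + 1) + f (c + 2)) := by
  rw [Fin.sum_univ_three]
  fin_cases c
  · change f 0 + f 1 + f 2 = f 0 + (f 1 + f 2)
    rw [add_assoc]
  · change f 0 + f 1 + f 2 = f 1 + (f 2 + f 0)
    rw [add_comm (f 2) (f 0), ← add_assoc, add_comm (f 1) (f 0)]
  · change f 0 + f 1 + f 2 = f 2 + (f 0 + f 1)
    rw [add_comm]

theorem mem_side (b : AffineBasis (Fin 3) ℝ E2) (P : E2) (c : Fin 3)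
    (hP : ∀ k, 0 ≤ b.coord k P) (h : b.coord c P = 0) :
    P ∈ segment ℝ (b (c + 1)) (b (c + 2)) := by
  have h1 := b.sum_coord_apply_eq_one P
  rw [sum_three c, h, zero_add] at h1
  have h2 := b.linear_combination_coord_eq_self P
  rw [sum_three c, h, zero_smul, zero_add] at h2
  exact ⟨b.coord (c + 1) P, b.coord (c + 2) P, hP _, hP _, h1, h2⟩

theorem exists_third (i j : Fin 3) : ∃ c : Fin 3, c ≠ i ∧ c ≠ j := by
  revert i j
  decide

end SID_

open SID_ in
theorem sid_proof : Stmt_SID := by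
  intro b P Q hP hQ
  constructor
  · rintro h c ⟨h1, h2⟩
    exact h (c + 1) (c + 2) ⟨mem_side b P c hP h1, mem_side b Q c hQ h2⟩
  · rintro h i j ⟨h1, h2⟩
    obtain ⟨c, hi, hj⟩ := exists_third i j
    exact h c ⟨coord_zero b P i j c hi hj h1, coord_zero b Q i j c hi hj h2⟩

end Pool.Agent.WSR
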