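import Pool.Agent.WSR.Defs

set_option autoImplicit false

/-!
# WSR: the exact statements of the modules (MP_968b5d_co)

Recipes: /team-store/MP_968b5d_WSR.md. The module `XYZ` proves `theorem xyz_proof : Stmt_XYZ`
(hypotheses `Stmt_Y` for the statements it uses).
-/

open scoped BigOperators Topology

namespace Pool.Agent.WSR

noncomputable section

/-! ## A. From the plane to barycentric coordinates -/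

/-- MRK: the marked points in barycentric coordinates. -/
def Stmt_MRK : Prop := ∀ (b : AffineBasis (Fin 3) ℝ E2) (d : ℕ) (P : E2), 1 ≤ d →
  (IsMarked b d P ↔ ∃ a : Fin 3 → ℕ, a 0 + a 1 + a 2 = d ∧ (∃ c, a c = 0) ∧
    bary b d P = fun c => (a c : ℝ))

/-- SID: the sides in barycentric coordinates. -/
def Stmt_SID : Prop := ∀ (b : AffineBasis (Fin 3) ℝ E2) (P Q : E2),
  (∀ c, 0 ≤ b.coord c P) → (∀ c, 0 ≤ b.coord c Q) →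
  ((∀ i j : Fin 3, ¬ (P ∈ segment ℝ (b i) (b j) ∧ Q ∈ segment ℝ (b i) (b j))) ↔
    ∀ c, ¬ (b.coord c P = 0 ∧ b.coord c Q = 0))

/-- CUTA: a point of the open triangle on a line lies on a cross-cut. -/
def Stmt_CUTA : Prop := ∀ (b : AffineBasis (Fin 3) ℝ E2) (d : ℕ) (x : E2), 1 ≤ d →
  x ∈ interior (convexHull ℝ (Set.range b)) → ∀ l ∈ lines d, F l (bary b d x) = 0 →
  x ∈ ⋃₀ cuts b d

/-- CUTB: a point of the open triangle on a cross-cut lies on a line. -/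
def Stmt_CUTB : Prop := ∀ (b : AffineBasis (Fin 3) ℝ E2) (d : ℕ) (x : E2), 1 ≤ d →
  x ∈ interior (convexHull ℝ (Set.range b)) → x ∈ ⋃₀ cuts b d →
  ∃ l ∈ lines d, F l (bary b d x) = 0

/-- HOM: the body is homeomorphic to the open triangle without the lines. -/
def Stmt_HOM : Prop := ∀ (b : AffineBasis (Fin 3) ℝ E2) (d : ℕ), 1 ≤ d →
  Nonempty (body b d ≃ₜ off (Tri d) (lines d))

/-- CMP: the connected components are the sign patterns. -/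
def Stmt_CMP : Prop := ∀ (K : Set B3) (s : Finset Ix), Convex ℝ K →
  Finite (ConnectedComponents (off K s)) ∧ Nat.card (ConnectedComponents (off K s)) = N K s

/-! ## B. Arrangements -/

/-- REC: the recursion for the number of the sign patterns. -/
def Stmt_REC : Prop := ∀ (K : Set B3) (s : Finset Ix) (l : Ix), Convex ℝ K → l ∉ s → Cross K l →
  N K (insert l s) = N K s + N (cut K l) s

/-- GEOA: the lines cross the open triangle. -/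
def Stmt_GEOA : Prop := ∀ d : ℕ, 1 ≤ d → Convex ℝ (Tri d) ∧ (Tri d).Nonempty ∧
  ∀ l ∈ lines d, (cut (Tri d) l).Nonempty ∧ Convex ℝ (cut (Tri d) l) ∧ Cross (Tri d) l

/-- GEOB: different lines are not parallel if they meet. -/
def Stmt_GEOB : Prop := ∀ (d : ℕ) (l l' : Ix) (p v : B3), 1 ≤ d → l ∈ lines d → l' ∈ lines d →
  l ≠ l' → p ∈ Tri d → F l p = 0 → F l' p = 0 → v 0 + v 1 + v 2 = 0 → L l v = 0 → L l' v = 0 →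
  v = 0

/-- GEOC: different lines cross transversally in at most one point. -/
def Stmt_GEOC : Prop := ∀ (d : ℕ) (l l' : Ix), 1 ≤ d → l ∈ lines d → l' ∈ lines d → l ≠ l' →
  Cross (cut (Tri d) l) l' ∧ (cut (cut (Tri d) l) l').Subsingleton

/-- ARRA: the number of the sign patterns on a line. -/
def Stmt_ARRA : Prop := ∀ (d : ℕ) (l : Ix) (s : Finset Ix), 1 ≤ d → l ∈ lines d → s ⊆ lines d →
  l ∉ s → N (cut (Tri d) l) s ≤ 1 + X1 d l s ∧ 1 + X1 d l s ≤ N (cut (Tri d) l) s + T2 d l s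

/-- ARRB: the number of the sign patterns of the triangle. -/
def Stmt_ARRB : Prop := ∀ (d : ℕ) (s : Finset Ix), 1 ≤ d → s ⊆ lines d →
  2 * N (Tri d) s ≤ 2 + 2 * s.card + X2 d s ∧
  2 + 2 * s.card + X2 d s ≤ 2 * N (Tri d) s + 2 * (T3s d s).card

/-! ## C. Crossing pairs -/

/-- CRA: the crossing criterion for lines of the same corner. -/
def Stmt_CRA : Prop := ∀ (d : ℕ) (c : Fin 3) (i j i' j' : ℕ), 1 ≤ d →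
  (c, i, j) ∈ lines d → (c, i', j') ∈ lines d → (i, j) ≠ (i', j') →
  (Xs d (c, i, j) (c, i', j') ↔ (i < i' ∧ j' < j) ∨ (i' < i ∧ j < j'))

/-- CRB: the crossing criterion for lines of different corners. -/
def Stmt_CRB : Prop := ∀ (d : ℕ) (c : Fin 3) (i j i' j' : ℕ), 1 ≤ d →
  (c, i, j) ∈ lines d → (c + 1, i', j') ∈ lines d →
  (Xs d (c, i, j) (c + 1, i', j') ↔ d < i + j')

/-- CNT: the number of the crossing pairs. -/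
def Stmt_CNT : Prop := ∀ d : ℕ, 1 ≤ d →
  (lines d).card = 3 * d * (d - 1) ∧ 2 * X2 d (lines d) = 3 * d * (d - 1) ^ 2 * (3 * d - 2)

/-! ## D. Divisors -/

/-- DIV: the divisor bound. -/
def Stmt_DIV : Prop := ∀ ε : ℝ, 0 < ε → ∃ C : ℝ, 0 < C ∧ ∀ d : ℕ, 1 ≤ d →
  ∃ B : ℕ, 1 ≤ B ∧ DB d B ∧ (B : ℝ) ≤ C * (d : ℝ) ^ ε

/-- FAC: a divisor of a product of four factors. -/
def Stmt_FAC : Prop := ∀ n x₁ x₂ x₃ x₄ : ℕ, 0 < n → n ∣ x₁ * x₂ * x₃ * x₄ →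
  ∃ n₁ n₂ n₃ n₄ : ℕ, n₁ ∣ x₁ ∧ n₂ ∣ x₂ ∧ n₃ ∣ x₃ ∧ n₄ ∣ x₄ ∧ n = n₁ * n₂ * n₃ * n₄

/-- HYP: integral points on a hyperbola. -/
def Stmt_HYP : Prop := ∀ (d B : ℕ), DB d B → ∀ α β γ δ : ℤ, α ≠ 0 → β * γ - α * δ ≠ 0 →
  |β * γ - α * δ| ≤ (2 * (d : ℤ)) ^ 20 → ∀ S : Finset (ℤ × ℤ),
  (∀ s ∈ S, α * s.1 * s.2 + β * s.1 + γ * s.2 + δ = 0) → S.card ≤ 2 * B

/-! ## E. Concurrent lines give solutions of the equations -/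

/-- EQA: three lines of the same corner. -/
def Stmt_EQA : Prop := ∀ (d : ℕ) (c : Fin 3) (i₁ j₁ i₂ j₂ i₃ j₃ : ℕ), 1 ≤ d →
  (c, i₁, j₁) ∈ lines d → (c, i₂, j₂) ∈ lines d → (c, i₃, j₃) ∈ lines d → i₁ < i₂ → i₂ < i₃ →
  Cs d (c, i₁, j₁) (c, i₂, j₂) (c, i₃, j₃) → PA d (i₁, j₁, i₂, j₂, i₃, j₃)

/-- EQB: two lines of a corner and a line of the next corner. -/
def Stmt_EQB : Prop := ∀ (d : ℕ) (c : Fin 3) (i₁ j₁ i₂ j₂ i₃ j₃ : ℕ), 1 ≤ d →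
  (c, i₁, j₁) ∈ lines d → (c, i₂, j₂) ∈ lines d → (c + 1, i₃, j₃) ∈ lines d → i₁ < i₂ →
  Cs d (c, i₁, j₁) (c, i₂, j₂) (c + 1, i₃, j₃) → PB d (i₁, j₁, i₂, j₂, i₃, j₃)

/-- EQD: two lines of a corner and a line of the previous corner. -/
def Stmt_EQD : Prop := ∀ (d : ℕ) (c : Fin 3) (i₁ j₁ i₂ j₂ i₃ j₃ : ℕ), 1 ≤ d →
  (c, i₁, j₁) ∈ lines d → (c, i₂, j₂) ∈ lines d → (c + 2, i₃, j₃) ∈ lines d → j₁ < j₂ →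
  Cs d (c, i₁, j₁) (c, i₂, j₂) (c + 2, i₃, j₃) → PB d (j₁, i₁, j₂, i₂, j₃, i₃)

/-- EQC: three lines of different corners. -/
def Stmt_EQC : Prop := ∀ (d : ℕ) (c : Fin 3) (i₁ j₁ i₂ j₂ i₃ j₃ : ℕ), 1 ≤ d →
  (c, i₁, j₁) ∈ lines d → (c + 1, i₂, j₂) ∈ lines d → (c + 2, i₃, j₃) ∈ lines d →
  Cs d (c, i₁, j₁) (c + 1, i₂, j₂) (c + 2, i₃, j₃) → PC d (i₁, j₁, i₂, j₂, i₃, j₃)

/-! ## F. Counting the solutions -/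

/-- AH1: type A, given `z₁, z₂, z₃` and `u₃`. -/
def Stmt_AH1 : Prop := ∀ (d B : ℕ), DB d B → ∀ (z₁ z₂ z₃ u₃ : ℕ) (S : Finset N6),
  (∀ t ∈ S, PA d t ∧ ∃ u₁ u₂, t = (u₁, z₁, u₂, z₂, u₃, z₃)) → S.card ≤ 2 * B

/-- AH2: type A, given `z₁, z₂, z₃` and `p = u₂ - u₁`. -/
def Stmt_AH2 : Prop := ∀ (d B : ℕ), DB d B → ∀ (z₁ z₂ z₃ p : ℕ) (S : Finset N6),
  (∀ t ∈ S, PA d t ∧ ∃ u₁ u₃, t = (u₁, z₁, u₁ + p, z₂, u₃, z₃)) → S.card ≤ 2 * B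

/-- AFC: the factorisation for type A. -/
def Stmt_AFC : Prop := ∀ (d u₁ z₁ u₂ z₂ u₃ z₃ : ℕ), PA d (u₁, z₁, u₂, z₂, u₃, z₃) →
  ∃ π σ ζ υ l₁ k₁ l₂ k₂ : ℕ, π ∣ (z₁ - z₂) * z₃ ∧ σ ∣ (z₁ - z₂) * z₃ ∧ ζ ∣ (z₁ - z₂) * z₃ ∧
    υ ∣ (z₁ - z₂) * z₃ ∧ u₂ - u₁ = π * l₂ ∧ z₂ - z₃ = σ * l₁ ∧ z₁ = ζ * k₁ ∧ u₃ = υ * k₂ ∧
    (l₁ * l₂ ≤ d ∨ l₁ * k₂ ≤ d ∨ k₁ * l₂ ≤ d ∨ k₁ * k₂ ≤ d)

/-- CA: the number of the solutions of type A. -/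
def Stmt_CA : Prop := ∀ (d B : ℕ), 1 ≤ d → DB d B → ∀ S : Finset N6, (∀ t ∈ S, PA d t) →
  S.card ≤ 8 * d ^ 3 * B ^ 4

/-- BH1: type B, given `z₂, w, v` and `u₁`, regular case. -/
def Stmt_BH1 : Prop := ∀ (d B : ℕ), DB d B → ∀ (u₁ z₂ w v : ℕ) (S : Finset N6),
  Phi d v z₂ w ≠ u₁ * w →
  (∀ t ∈ S, PB d t ∧ ∃ z₁ u₂, t = (u₁, z₁, u₂, z₂, w, v)) → S.card ≤ 2 * B

/-- BH2: type B, given `u₁, z₁, u₂` and `w`. -/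
def Stmt_BH2 : Prop := ∀ (d B : ℕ), DB d B → ∀ (u₁ z₁ u₂ w : ℕ) (S : Finset N6),
  (∀ t ∈ S, PB d t ∧ ∃ z₂ v, t = (u₁, z₁, u₂, z₂, w, v)) → S.card ≤ 2 * B

/-- BD: type B, degenerate case. -/
def Stmt_BD : Prop := ∀ (d B : ℕ), 1 ≤ d → DB d B → ∀ S : Finset N6,
  (∀ t ∈ S, ∃ u₁ z₁ u₂ z₂ w v : ℕ, t = (u₁, z₁, u₂, z₂, w, v) ∧ PB d t ∧
    Phi d v z₂ w = u₁ * w) → S.card ≤ d ^ 3 * B

/-- BFC: the factorisation for type B. -/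
def Stmt_BFC : Prop := ∀ (d u₁ z₁ u₂ z₂ w v : ℕ), PB d (u₁, z₁, u₂, z₂, w, v) →
  ∃ n a g f : ℕ, u₁ = a * n ∧ w = f * g ∧ (n : ℤ) ∣ Phi d v z₂ w ∧ g ∣ z₂ * v ∧
    a ∣ z₁ * (u₂ - u₁) ∧ f ∣ z₁ * (u₂ - u₁)

/-- B1: type B, first case, regular. -/
def Stmt_B1 : Prop := ∀ (d B : ℕ), 1 ≤ d → DB d B → ∀ S : Finset N6,
  (∀ t ∈ S, ∃ u₁ z₁ u₂ z₂ w v n a g f : ℕ, t = (u₁, z₁, u₂, z₂, w, v) ∧ PB d t ∧
    Phi d v z₂ w ≠ u₁ * w ∧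
    u₁ = a * n ∧ w = f * g ∧ (n : ℤ) ∣ Phi d v z₂ w ∧ g ∣ z₂ * v ∧ a ≤ g) →
  S.card ≤ 2 * d ^ 3 * B ^ 4

/-- B2: type B, second case. -/
def Stmt_B2 : Prop := ∀ (d B : ℕ), 1 ≤ d → DB d B → ∀ S : Finset N6,
  (∀ t ∈ S, ∃ u₁ z₁ u₂ z₂ w v n a g f : ℕ, t = (u₁, z₁, u₂, z₂, w, v) ∧ PB d t ∧
    u₁ = a * n ∧ w = f * g ∧ a ∣ z₁ * (u₂ - u₁) ∧ f ∣ z₁ * (u₂ - u₁) ∧ g ≤ a) →
  S.card ≤ 2 * d ^ 3 * B ^ 4

/-- CB: the number of the solutions of type B. -/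
def Stmt_CB : Prop := ∀ (d B : ℕ), 1 ≤ d → 1 ≤ B → DB d B → ∀ S : Finset N6,
  (∀ t ∈ S, PB d t) → S.card ≤ 5 * d ^ 3 * B ^ 4

/-- CH: type C, given `z, w, v` and `x`, regular case. -/
def Stmt_CH : Prop := ∀ (d B : ℕ), DB d B → ∀ (z w v x : ℕ) (S : Finset N6),
  Phi d v z w ≠ w * x →
  (∀ t ∈ S, PC d t ∧ ∃ u y, t = (u, z, w, v, y, x)) → S.card ≤ 2 * B

/-- CD: type C, degenerate case. -/
def Stmt_CD : Prop := ∀ (d B : ℕ), 1 ≤ d → DB d B → ∀ S : Finset N6,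
  (∀ t ∈ S, ∃ u z w v y x : ℕ, t = (u, z, w, v, y, x) ∧ PC d t ∧ Phi d v z w = w * x) →
  S.card ≤ 2 * d ^ 3 * B

/-- CFC: the factorisation for type C. -/
def Stmt_CFC : Prop := ∀ (d u z w v y x : ℕ), PC d (u, z, w, v, y, x) →
  ∃ w₁ w₂ x₁ x₂ : ℕ, w = w₁ * w₂ ∧ x = x₁ * x₂ ∧ w₁ ∣ z * v ∧ x₂ ∣ u * y ∧
    (x₁ : ℤ) ∣ Phi d v z w ∧ (w₂ : ℤ) ∣ Phi d u y x

/-- C1: type C, first case, regular. -/
def Stmt_C1 : Prop := ∀ (d B : ℕ), 1 ≤ d → DB d B → ∀ S : Finset N6,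
  (∀ t ∈ S, ∃ u z w v y x w₁ w₂ x₁ x₂ : ℕ, t = (u, z, w, v, y, x) ∧ PC d t ∧
    Phi d v z w ≠ w * x ∧ w = w₁ * w₂ ∧ x = x₁ * x₂ ∧ w₁ ∣ z * v ∧ (x₁ : ℤ) ∣ Phi d v z w ∧
    x₂ ≤ w₁) →
  S.card ≤ 2 * d ^ 3 * B ^ 4

/-- CC: the number of the solutions of type C. -/
def Stmt_CC : Prop := ∀ (d B : ℕ), 1 ≤ d → 1 ≤ B → DB d B → ∀ S : Finset N6,
  (∀ t ∈ S, PC d t) → S.card ≤ 8 * d ^ 3 * B ^ 4

/-! ## G. Assembly -/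

/-- STD: the standard concurrent triples. -/
def Stmt_STD : Prop := ∀ (d B : ℕ), 1 ≤ d → 1 ≤ B → DB d B → ∀ S : Finset (Ix × Ix × Ix),
  (∀ q ∈ S, q.1 ∈ lines d ∧ q.2.1 ∈ lines d ∧ q.2.2 ∈ lines d ∧ Cs d q.1 q.2.1 q.2.2 ∧
    ((q.2.1.1 = q.1.1 ∧ q.2.2.1 = q.1.1 ∧ q.1.2.1 < q.2.1.2.1 ∧ q.2.1.2.1 < q.2.2.2.1) ∨
     (q.2.1.1 = q.1.1 ∧ q.2.2.1 = q.1.1 + 1 ∧ q.1.2.1 < q.2.1.2.1) ∨
     (q.2.1.1 = q.1.1 ∧ q.2.2.1 = q.1.1 + 2 ∧ q.1.2.2 < q.2.1.2.2) ∨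
     (q.2.1.1 = q.1.1 + 1 ∧ q.2.2.1 = q.1.1 + 2))) →
  S.card ≤ 78 * d ^ 3 * B ^ 4

/-- TRI: the number of the concurrent triples. -/
def Stmt_TRI : Prop := ∀ (d B : ℕ), 1 ≤ d → 1 ≤ B → DB d B →
  (T3s d (lines d)).card ≤ 468 * d ^ 3 * B ^ 4

/-- The theorem. -/
def Stmt_FIN : Prop :=
  (∀ (d : ℕ) (b : AffineBasis (Fin 3) ℝ E2), 1 ≤ d →
    Finite (ConnectedComponents (body b d)) ∧ (R b d : ℝ) ≤ Pd d) ∧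
  (∀ ε : ℝ, 0 < ε → ∃ C : ℝ, ∀ (d : ℕ) (b : AffineBasis (Fin 3) ℝ E2), 1 ≤ d →
    Pd d - C * (d : ℝ) ^ (3 + ε) ≤ (R b d : ℝ)) ∧
  (∀ b : AffineBasis (Fin 3) ℝ E2, Filter.Tendsto (fun d : ℕ => (R b d : ℝ) / (d : ℝ) ^ 4)
    Filter.atTop (𝓝 (9 / 4)))

end

end Pool.Agent.WSR
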